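import Pool.Agent.Y951.TU.Norm
import Pool.Agent.Y951.TU.Clt

/-!
# Joint digit tests for general families of random tuples (helper79, after helper951)

A family of probability measures on the space of `r`-tuples is `GoodF` if its exponential sums save a
power for all the frequencies which occur in the tests on the digits after the first `a log M` ones. For
such families the tuples of words have the right frequencies in all the windows inside the first
`A log M` places, outside of events of probability `M ^ (-c)`, and the central limit theorem holds.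
-/

set_option autoImplicit false

namespace Pool.Agent.K7.H79.ND

open Finset Real MeasureTheory Filter Topology ProbabilityTheory
open Pool.Agent.Y933.KD (wd wd_lt Leb WS ci WS_ci mn cv cen cen_le cen_sum sigma2 sigma2_cen WS_cen
  measurable_WS)
open Pool.Agent.Y933.KE (WE TW normal_TW clt_TW WE_empty measurableSet_WE)
open Pool.Agent.Y951.TU

variable {r : ℕ}

/-- the frequencies of the tests on the digits after the first `a log M` ones -/
def Fb (b : Fin r → ℕ) (a A : ℝ) (M : ℕ) : Set (Fin r → ℤ) :=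
  {q | ∃ (j : Fin r) (n : ℕ), a * log M ≤ n ∧ (n : ℝ) ≤ A * log M ∧
    q = fun j' => ((b j ^ n : ℕ) : ℤ) * (Pi.single j 1 : Fin r → ℤ) j'}

/-- power saving for the exponential sums with these frequencies -/
def GoodF (b : Fin r → ℕ) (a : ℝ) (S : ℕ → Set (Measure (Fin r → ℝ))) : Prop :=
  ∀ (k : ℕ) (A : ℝ), ∃ η : ℝ, 0 < η ∧ ∃ M0 : ℕ, ∀ M : ℕ, M0 ≤ M → ∀ P ∈ S M,
    ∀ q : Fin k → Fin r → ℤ, (∀ i, q i ∈ Fb b a A M) → ∀ h : Fin k → ℤ,
    (∀ i, |(h i : ℝ)| ≤ (M : ℝ) ^ η) → ∑ i, h i • q i ≠ 0 →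
    ‖hat (lin r) P (∑ i, h i • q i)‖ ≤ (M : ℝ) ^ (-η)

lemma Fb_ne {b : Fin r → ℕ} (hb : ∀ j, 1 ≤ b j) {a A : ℝ} (M : ℕ) (q : Fin r → ℤ)
    (hq : q ∈ Fb b a A M) (h : ℤ) (hh : h ≠ 0) : h • q ≠ 0 := by
  obtain ⟨j, n, _, _, rfl⟩ := hq
  intro h0
  have h1 := congrFun h0 j
  simp only [Pi.smul_apply, smul_eq_mul, Pi.zero_apply, Pi.single_eq_same, mul_one] at h1
  rcases mul_eq_zero.1 h1 with h3 | h3
  · exact hh h3
  · have h4 : b j ^ n = 0 := by exact_mod_cast h3
    have h5 : 0 < b j ^ n := pow_pos (hb j) n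
    omega

/-- **digit tests for tuples** -/
theorem testsF {b : Fin r → ℕ} (hb : ∀ j, 1 ≤ b j) {a : ℝ} {S : ℕ → Set (Measure (Fin r → ℝ))}
    (hS : ∀ M, 1 ≤ M → ∀ P ∈ S M, IsProbabilityMeasure P) (hG : GoodF b a S) (k : ℕ) (A : ℝ) :
    ∃ δ : ℝ, 0 < δ ∧ ∃ C : ℝ, ∀ M : ℕ, 1 ≤ M → ∀ P ∈ S M, ∀ q : Fin k → Fin r → ℤ,
      (∀ i, q i ∈ Fb b a A M) → ∀ u v : Fin k → ℝ, (∀ i, 0 ≤ u i) → (∀ i, v i ≤ 1) →
      |P.real (Ev (lin r) q u v) - (Cube r).real (Ev (lin r) q u v)| ≤ C * (M : ℝ) ^ (-δ) := by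
  obtain ⟨η, hη, M0, hM0⟩ := hG k A
  obtain ⟨δ, hδ, _, C, hC⟩ := power (φ := lin r) measurable_lin (Cube r) hat_Cube k
    (S := S) (T := fun M => Fb b a A M) (fun M q hq h hh => Fb_ne hb M q hq h hh)
    hS hη M0 hM0
  exact ⟨δ, hδ, C, hC⟩

/-- the measures on the line -/
def SY (b : Fin r → ℕ) (a A0 A1 : ℝ) (S : ℕ → Set (Measure (Fin r → ℝ))) (M : ℕ) :
    Set (Measure ℝ) :=
  {P' | ∃ P ∈ S M, ∃ (s : Fin r → ℕ) (J : ℕ), (∀ j, a * log M ≤ s j) ∧
    (∀ j, (s j : ℝ) ≤ A0 * log M) ∧ A1 * log M ≤ J ∧ P' = P.map (Psi b J s)}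

lemma SY_prob {S : ℕ → Set (Measure (Fin r → ℝ))}
    (hS : ∀ M, 1 ≤ M → ∀ P ∈ S M, IsProbabilityMeasure P) (b : Fin r → ℕ) (a A0 A1 : ℝ) (M : ℕ)
    (hM : 1 ≤ M) (P' : Measure ℝ) (hP : P' ∈ SY b a A0 A1 S M) : IsProbabilityMeasure P' := by
  obtain ⟨P, hP, s, J, _, _, _, rfl⟩ := hP
  have := hS M hM P hP
  exact Measure.isProbabilityMeasure_map (measurable_Psi b J s).aemeasurable

theorem TW_SY {b : Fin r → ℕ} (hb : ∀ j, 1 ≤ b j) {a : ℝ} {S : ℕ → Set (Measure (Fin r → ℝ))}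
    (hS : ∀ M, 1 ≤ M → ∀ P ∈ S M, IsProbabilityMeasure P) (hG : GoodF b a S) (A0 A1 : ℝ) (k : ℕ) :
    TW (∏ j, b j) k A1 (SY b a A0 A1 S) := by
  obtain ⟨δ, hδ, C, hC⟩ := testsF hb hS hG (k * r) (|A0| + |A1|)
  refine ⟨δ, hδ, |C|, fun M hM P' hP' n w c hn => ?_⟩
  obtain ⟨P, hP, s, J, hsa, hs, hJ, rfl⟩ := hP'
  have := hS M hM P hP
  have hprob := Measure.isProbabilityMeasure_map (μ := P) (measurable_Psi b J s).aemeasurable
  have hq : 1 ≤ ∏ j, b j := prod_pos' hb
  have hMR : (1 : ℝ) ≤ M := by exact_mod_cast hM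
  have hlog0 : 0 ≤ log (M : ℝ) := Real.log_nonneg hMR
  have hM0 : 0 ≤ (M : ℝ) ^ (-δ) := by positivity
  have hnJ : ∀ i, n i + w i ≤ J := fun i => by
    have := (hn i).trans hJ
    exact_mod_cast this
  by_cases hc : ∃ i, (∏ j, b j) ^ w i ≤ c i
  · obtain ⟨i, hi⟩ := hc
    rw [WE_empty hq hi, measureReal_empty, measureReal_empty, sub_self, abs_zero]
    positivity
  push Not at hc
  choose V hV hV2 using fun i => mix_surj hb (w i) (c i) (hc i)
  rw [← Cube_WE hb s n w c, map_measureReal_apply (measurable_Psi b J s) (measurableSet_WE _ _ _ _)]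
  have h1 : Psi b J s ⁻¹' WE (∏ j, b j) n w c =
      {x | ∀ i, mix b (w i) (tw b (w i) (fun j => s j + n i) x) = c i} := by
    ext x
    unfold WE
    simp only [Set.mem_preimage, Set.mem_ofPred_eq]
    exact forall_congr' fun i => by rw [wd_Psi hb (hnJ i)]
  have h2 : {x : Fin r → ℝ | ∀ i, mix b (w i) (tw b (w i) (fun j => s j + n i) x) = c i} =
      {x | ∀ i, tw b (w i) (fun j => s j + n i) x = V i} := by
    ext x
    simp only [Set.mem_ofPred_eq]
    refine forall_congr' fun i => ?_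
    rw [← hV2 i]
    constructor
    · intro h
      exact mix_inj hb (w i) _ _ (tw_lt hb _ _ _) (hV i) h
    · intro h
      rw [h]
  rw [h1, h2, Ev_tq hb]
  refine (hC M hM P hP _ (fun p => ?_) _ _ (fun p => by positivity) (fun p => ?_)).trans ?_
  · refine ⟨(finProdFinEquiv.symm p).2, s (finProdFinEquiv.symm p).2 +
      n (finProdFinEquiv.symm p).1, ?_, ?_, rfl⟩
    · push_cast
      have h3 := hsa (finProdFinEquiv.symm p).2
      have h4 : (0 : ℝ) ≤ n (finProdFinEquiv.symm p).1 := Nat.cast_nonneg _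
      linarith
    · push_cast
      have h4 : (s (finProdFinEquiv.symm p).2 : ℝ) ≤ |A0| * log M :=
        (hs _).trans (by gcongr; exact le_abs_self _)
      have h5 : (n (finProdFinEquiv.symm p).1 : ℝ) ≤ |A1| * log M := by
        have h6 := hn (finProdFinEquiv.symm p).1
        have h7 : (0 : ℝ) ≤ w (finProdFinEquiv.symm p).1 := Nat.cast_nonneg _
        calc (n (finProdFinEquiv.symm p).1 : ℝ) ≤ A1 * log M := by linarith
          _ ≤ |A1| * log M := by gcongr; exact le_abs_self _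
      linarith
  · have hbj : (0 : ℝ) < b (finProdFinEquiv.symm p).2 := by
      exact_mod_cast hb (finProdFinEquiv.symm p).2
    rw [div_le_one (by positivity)]
    exact_mod_cast hV (finProdFinEquiv.symm p).1 (finProdFinEquiv.symm p).2
  · exact mul_le_mul_of_nonneg_right (le_abs_self C) (by positivity)

open Classical in
/-- the tuples of words of at most `w` digits of `x` have the right frequencies, up to an error `E`, in
all the windows of places between `a` and `L` -/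
def NrT (b : Fin r → ℕ) (w : ℕ) (a L E : ℝ) (x : Fin r → ℝ) : Prop :=
  ∀ (k : ℕ) (D s : Fin r → ℕ) (N : ℕ), 1 ≤ k → k ≤ w → (∀ j, D j < b j ^ k) → (∀ j, a ≤ s j) →
    (∀ j, (s j : ℝ) + N ≤ L) →
    |(((range N).filter (fun i => tw b k (fun j => s j + i) x = D)).card : ℝ) -
      N / ((∏ j, b j : ℕ) : ℝ) ^ k| ≤ E

open Classical in
/-- **joint normality up to `A log M` places** -/
theorem normalF (hr : 1 ≤ r) {b : Fin r → ℕ} (hb : ∀ j, 2 ≤ b j) {a : ℝ}
    {S : ℕ → Set (Measure (Fin r → ℝ))} (hS : ∀ M, 1 ≤ M → ∀ P ∈ S M, IsProbabilityMeasure P)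
    (hG : GoodF b a S) (w : ℕ) (A ε : ℝ) (hε : 0 < ε) :
    ∃ c : ℝ, 0 < c ∧ ∃ M₀ : ℕ, ∀ M : ℕ, M₀ ≤ M → ∃ V : Set (Fin r → ℝ), MeasurableSet V ∧
      (∀ P ∈ S M, P.real V ≤ (M : ℝ) ^ (-c)) ∧
      ∀ x, x ∉ V → NrT b w (a * log M) (A * log M) (ε * log M) x := by
  have hb1 : ∀ j, 1 ≤ b j := fun j => by have := hb j; omega
  obtain ⟨c, hc, M0, h⟩ := normal_TW (b := ∏ j, b j) (w := max w 1) (two_le_prod hr hb)
    (le_max_right _ _) (A := A) hε (SY_prob hS b a A (A + 1)) (TW_SY hb1 hS hG A (A + 1) 1)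
  have hrR : (0 : ℝ) < r := by exact_mod_cast hr
  set η : ℝ := c / (4 * r) with hη
  have hη0 : 0 < η := by positivity
  set C1 : ℝ := ((|A| + 1) * (1 + 1 / η)) ^ r with hC1
  have hlog : Tendsto (fun M : ℕ => log (M : ℝ)) atTop atTop :=
    Real.tendsto_log_atTop.comp tendsto_natCast_atTop_atTop
  obtain ⟨M1, hM1⟩ := eventually_atTop.1 ((hlog.eventually_ge_atTop (w : ℝ)).and
    (Pool.Agent.Y933.KD.VdC.ev_le C1 (c / 4) (by positivity)))
  refine ⟨c / 2, by positivity, max (max M0 M1) 2, fun M hM => ?_⟩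
  have hM0 : M0 ≤ M := (le_max_left _ _).trans ((le_max_left _ _).trans hM)
  obtain ⟨hM2, hM3⟩ := hM1 M ((le_max_right _ _).trans ((le_max_left _ _).trans hM))
  have hM4 : 2 ≤ M := (le_max_right _ _).trans hM
  have hMR : (2 : ℝ) ≤ M := by exact_mod_cast hM4
  have hMp : (0 : ℝ) < M := by linarith
  have hM1' : (1 : ℝ) ≤ M := by linarith
  set t : ℝ := log M with ht
  have ht0 : 0 < t := Real.log_pos (by linarith)
  obtain ⟨U, hU, hP, hx⟩ := h M hM0
  set J : ℕ := ⌈(A + 1) * t⌉₊ with hJ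
  have hJ1 : (A + 1) * t ≤ J := Nat.le_ceil _
  -- the starting places
  set T : Finset (Fin r → ℕ) := (Fintype.piFinset fun _ : Fin r => range (⌊|A| * t⌋₊ + 1)).filter
    (fun s => (∀ j, a * t ≤ s j) ∧ ∀ j, (s j : ℝ) ≤ A * t) with hT
  have hone : ∀ P ∈ S M, ∀ s ∈ T, P.real (Psi b J s ⁻¹' U) ≤ (M : ℝ) ^ (-c) := by
    intro P hPS s hs
    rw [hT, mem_filter] at hs
    have h1 := hP (P.map (Psi b J s)) ⟨P, hPS, s, J, hs.2.1, hs.2.2, hJ1, rfl⟩
    rwa [map_measureReal_apply (measurable_Psi b J s) hU] at h1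
  have hTcard : (T.card : ℝ) ≤ C1 * (M : ℝ) ^ (c / 4) := by
    have h1 : T.card ≤ (⌊|A| * t⌋₊ + 1) ^ r := by
      refine (card_filter_le _ _).trans (le_of_eq ?_)
      rw [Fintype.card_piFinset]
      simp
    have h2 : ((⌊|A| * t⌋₊ : ℕ) : ℝ) ≤ |A| * t := Nat.floor_le (by positivity)
    have h3 : 1 + t ≤ (1 + 1 / η) * (M : ℝ) ^ η :=
      Pool.Agent.Y933.KD.VdC.one_add_log_le hM1' hη0
    calc (T.card : ℝ) ≤ (((⌊|A| * t⌋₊ + 1) ^ r : ℕ) : ℝ) := by exact_mod_cast h1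
      _ = ((⌊|A| * t⌋₊ : ℝ) + 1) ^ r := by push_cast; ring
      _ ≤ ((|A| + 1) * (1 + t)) ^ r := by
          gcongr
          nlinarith [abs_nonneg A]
      _ ≤ ((|A| + 1) * ((1 + 1 / η) * (M : ℝ) ^ η)) ^ r := by gcongr
      _ = C1 * ((M : ℝ) ^ η) ^ r := by rw [hC1, ← mul_assoc, mul_pow]
      _ = C1 * (M : ℝ) ^ (c / 4) := by
          rw [← Real.rpow_natCast ((M : ℝ) ^ η), ← Real.rpow_mul hMp.le]
          congr 2
          rw [hη]
          field_simp
  refine ⟨⋃ s ∈ T, Psi b J s ⁻¹' U, ?_, ?_, ?_⟩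
  · exact Finset.measurableSet_biUnion _ fun s _ => measurable_Psi b J s hU
  · intro P hPS
    have := hS M (by omega) P hPS
    calc P.real (⋃ s ∈ T, Psi b J s ⁻¹' U) ≤ ∑ s ∈ T, P.real (Psi b J s ⁻¹' U) :=
          measureReal_biUnion_finset_le _ _
      _ ≤ ∑ _s ∈ T, (M : ℝ) ^ (-c) := sum_le_sum (hone P hPS)
      _ = T.card * (M : ℝ) ^ (-c) := by rw [sum_const, nsmul_eq_mul]
      _ ≤ (C1 * (M : ℝ) ^ (c / 4)) * (M : ℝ) ^ (-c) := by gcongr
      _ ≤ ((M : ℝ) ^ (c / 4) * (M : ℝ) ^ (c / 4)) * (M : ℝ) ^ (-c) := by gcongr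
      _ = (M : ℝ) ^ (-(c / 2)) := by
          rw [← Real.rpow_add hMp, ← Real.rpow_add hMp]
          congr 1
          ring
  · intro x hxV k D s N hk hkw hD hsa hsN
    have hsA : ∀ j, (s j : ℝ) ≤ A * t := fun j => by
      have h1 := hsN j
      have h2 : (0 : ℝ) ≤ N := Nat.cast_nonneg N
      linarith
    have hsT : s ∈ T := by
      rw [hT, mem_filter, Fintype.mem_piFinset]
      refine ⟨fun j => ?_, hsa, hsA⟩
      rw [mem_range, Nat.lt_succ_iff]
      apply Nat.le_floor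
      refine (hsA j).trans ?_
      gcongr
      exact le_abs_self A
    have hmU : Psi b J s x ∉ U := by
      intro h1
      apply hxV
      exact Set.mem_biUnion hsT h1
    have hNA : (N : ℝ) ≤ A * t := by
      have h1 := hsN ⟨0, hr⟩
      have h2 : (0 : ℝ) ≤ s ⟨0, hr⟩ := Nat.cast_nonneg _
      linarith
    have hDm : mix b k D < (∏ j, b j) ^ k := mix_lt hb1 k D
    have h2 := hx _ hmU k (mix b k D) 0 N hk (hkw.trans (le_max_left _ _)) hDm (by
      push_cast
      rw [zero_add]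
      exact hNA)
    rw [WS_ci (prod_pos' hb1)] at h2
    have h3 : (range N).filter (fun i => wd (∏ j, b j) k (0 + i) (Psi b J s x) =
        mix b k D) = (range N).filter (fun i => tw b k (fun j => s j + i) x = D) := by
      refine filter_congr fun i hi => ?_
      rw [mem_range] at hi
      have h4 : i + k ≤ J := by
        have h5 : ((i + k : ℕ) : ℝ) ≤ J := by
          push_cast
          have h6 : (i : ℝ) ≤ N := by exact_mod_cast hi.le
          have h7 : (k : ℝ) ≤ w := by exact_mod_cast hkw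
          calc (i : ℝ) + k ≤ A * t + t := by linarith
            _ = (A + 1) * t := by ring
            _ ≤ J := hJ1
        exact_mod_cast h5
      rw [zero_add, wd_Psi hb1 h4]
      constructor
      · intro h5
        exact mix_inj hb1 k _ _ (tw_lt hb1 _ _ _) hD h5
      · intro h5
        rw [h5]
    rw [h3] at h2
    exact h2

open Classical in
/-- the first digits do not matter -/
lemma NrT_shift {b : Fin r → ℕ} (hb : ∀ j, 1 ≤ b j) {w : ℕ} {a L E E' : ℝ} {x : Fin r → ℝ}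
    (h : NrT b w a L E x) (ha : a + 1 ≤ E') (hE : 0 ≤ E) (hE' : 0 ≤ E') :
    NrT b w 0 L (E' + E) x := by
  intro k D s N hk hkw hD _ hsN
  have hq : (1 : ℝ) ≤ ((∏ j, b j : ℕ) : ℝ) := by exact_mod_cast prod_pos' hb
  have hqk : (1 : ℝ) ≤ ((∏ j, b j : ℕ) : ℝ) ^ k := one_le_pow₀ hq
  have hqk0 : (0 : ℝ) < ((∏ j, b j : ℕ) : ℝ) ^ k := by linarith
  obtain ⟨i0, hi0, hi0'⟩ : ∃ i0 : ℕ, a ≤ i0 ∧ (i0 : ℝ) ≤ E' := by
    refine ⟨⌈a⌉₊, Nat.le_ceil _, ?_⟩
    rcases le_or_gt 0 a with h0 | h0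
    · exact (Nat.ceil_lt_add_one h0).le.trans ha
    · rw [Nat.ceil_eq_zero.2 h0.le]
      simpa using hE'
  obtain ⟨t, ht1, ht2⟩ : ∃ t : ℕ, t ≤ i0 ∧ (t = i0 ∨ t = N) ∧ t ≤ N := by
    rcases le_total i0 N with h1 | h1
    · exact ⟨i0, le_rfl, Or.inl rfl, h1⟩
    · exact ⟨N, h1, Or.inr rfl, le_rfl⟩
  obtain ⟨N', rfl⟩ : ∃ N', N = t + N' := ⟨N - t, by omega⟩
  have hcard : ((range (t + N')).filter (fun i => tw b k (fun j => s j + i) x = D)).card =
      ((range t).filter (fun i => tw b k (fun j => s j + i) x = D)).card +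
      ((range N').filter (fun i => tw b k (fun j => s j + t + i) x = D)).card := by
    simp only [Finset.card_filter]
    rw [Finset.sum_range_add]
    simp only [add_assoc]
  have h1 : |(((range t).filter (fun i => tw b k (fun j => s j + i) x = D)).card : ℝ) -
      t / ((∏ j, b j : ℕ) : ℝ) ^ k| ≤ E' := by
    have h2 : (((range t).filter (fun i => tw b k (fun j => s j + i) x = D)).card : ℝ) ≤ t := by
      have := Finset.card_filter_le (range t) (fun i => tw b k (fun j => s j + i) x = D)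
      rw [Finset.card_range] at this
      exact_mod_cast this
    have h3 : (t : ℝ) / ((∏ j, b j : ℕ) : ℝ) ^ k ≤ t := div_le_self (Nat.cast_nonneg t) hqk
    have h4 : (0 : ℝ) ≤ (t : ℝ) / ((∏ j, b j : ℕ) : ℝ) ^ k := by positivity
    have h5 : (0 : ℝ) ≤ (((range t).filter (fun i => tw b k (fun j => s j + i) x = D)).card : ℝ) :=
      Nat.cast_nonneg _
    have h6 : (t : ℝ) ≤ i0 := by exact_mod_cast ht1
    rw [abs_le]
    constructor <;> linarith
  have h2 : |(((range N').filter (fun i => tw b k (fun j => s j + t + i) x = D)).card : ℝ) -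
      N' / ((∏ j, b j : ℕ) : ℝ) ^ k| ≤ E := by
    rcases Nat.eq_zero_or_pos N' with rfl | hN'
    · simpa using hE
    · have ht : t = i0 := by
        rcases ht2.1 with h3 | h3
        · exact h3
        · omega
      refine h k D (fun j => s j + t) N' hk hkw hD (fun j => ?_) (fun j => ?_)
      · push_cast
        rw [ht]
        have : (0 : ℝ) ≤ s j := Nat.cast_nonneg _
        linarith
      · have h3 := hsN j
        push_cast at h3 ⊢
        linarith
  rw [hcard]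
  push_cast
  have e1 : (((range t).filter (fun i => tw b k (fun j => s j + i) x = D)).card : ℝ) +
      (((range N').filter (fun i => tw b k (fun j => s j + t + i) x = D)).card : ℝ) -
      ((t : ℝ) + N') / (∏ j, (b j : ℝ)) ^ k =
      ((((range t).filter (fun i => tw b k (fun j => s j + i) x = D)).card : ℝ) -
        t / (∏ j, (b j : ℝ)) ^ k) +
      ((((range N').filter (fun i => tw b k (fun j => s j + t + i) x = D)).card : ℝ) -
        N' / (∏ j, (b j : ℝ)) ^ k) := by ring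
  rw [e1]
  push_cast at h1 h2
  exact (abs_add_le _ _).trans (add_le_add h1 h2)

/-- **the central limit theorem** -/
theorem cltF {b : Fin r → ℕ} (hb : ∀ j, 1 ≤ b j) {w : ℕ} (hw : 1 ≤ w) (hr : 1 ≤ r) {a0 : ℝ}
    {S : ℕ → Set (Measure (Fin r → ℝ))} (hS : ∀ M, 1 ≤ M → ∀ P ∈ S M, IsProbabilityMeasure P)
    (hG : GoodF b a0 S) (F : (Fin r → ℕ) → ℝ)
    (hF : 0 < cvT b w F 0 + 2 * ∑ h ∈ Finset.Ico 1 w, cvT b w F h) (A : ℝ)
    (P : ℕ → Measure (Fin r → ℝ)) (hPS : ∀ᶠ M : ℕ in atTop, P M ∈ S M)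
    (s : ℕ → Fin r → ℕ) (N : ℕ → ℕ) (hN : Tendsto N atTop atTop)
    (hsa : ∀ᶠ M : ℕ in atTop, ∀ j, a0 * log M ≤ s M j)
    (hsN : ∀ᶠ M : ℕ in atTop, ∀ j, (s M j : ℝ) + N M ≤ A * log M) (a : ℝ) :
    Tendsto (fun M : ℕ => (P M).real {x |
      ∑ i ∈ range (N M), F (tw b w (fun j => s M j + i) x) - N M * mnT b w F ≤
        a * √((cvT b w F 0 + 2 * ∑ h ∈ Finset.Ico 1 w, cvT b w F h) * N M)}) atTop
      (𝓝 ((gaussianReal 0 1).real (Set.Iic a))) := by
  classical
  have hq : 1 ≤ ∏ j, b j := prod_pos' hb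
  set J : ℕ → ℕ := fun M => ⌈(A + 1) * log (M : ℝ)⌉₊ with hJ
  have hsig : sigma2 (∏ j, b j) w (cen (∏ j, b j) w (FM b w F)) =
      cvT b w F 0 + 2 * ∑ h ∈ Finset.Ico 1 w, cvT b w F h := by
    rw [sigma2_cen hq]
    simp only [cv_FM hb]
  set PT : ℕ → Measure ℝ := fun M =>
    if P M ∈ S M ∧ 1 ≤ M then (P M).map (Psi b (J M) (s M)) else Leb with hPT
  have hprob : ∀ M, IsProbabilityMeasure (PT M) := by
    intro M
    rw [hPT]
    simp only
    split_ifs with h
    · have := hS M h.2 (P M) h.1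
      exact Measure.isProbabilityMeasure_map (measurable_Psi b _ _).aemeasurable
    · infer_instance
  have key := clt_TW (G := cen (∏ j, b j) w (FM b w F)) hq hw (cen_le _ w _) (cen_sum hq _)
    (by rw [hsig]; exact hF) (SY_prob hS b a0 A (A + 1))
    (fun k => TW_SY hb hS hG A (A + 1) k) PT (by
      filter_upwards [hsN, hsa, hPS, eventually_ge_atTop 1] with M hM hMa hMP hM1
      rw [hPT]
      simp only
      rw [if_pos ⟨hMP, hM1⟩]
      exact ⟨P M, hMP, s M, J M, hMa, fun j => by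
        have h1 := hM j
        have h2 : (0 : ℝ) ≤ N M := Nat.cast_nonneg _
        linarith, Nat.le_ceil _, rfl⟩) (fun _ => 0) N hN (by
      filter_upwards [hsN] with M hM
      have h1 := hM ⟨0, hr⟩
      have h2 : (0 : ℝ) ≤ s M ⟨0, hr⟩ := Nat.cast_nonneg _
      push_cast
      linarith) a
  refine key.congr' ?_
  have hlog : Tendsto (fun M : ℕ => log (M : ℝ)) atTop atTop :=
    Real.tendsto_log_atTop.comp tendsto_natCast_atTop_atTop
  filter_upwards [hsN, hPS, eventually_ge_atTop 1, hlog.eventually_ge_atTop (w : ℝ)] with M hM hMP hM1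
    hMw
  have hmeas : MeasurableSet {z | WS (∏ j, b j) w (cen (∏ j, b j) w (FM b w F)) 0 (N M) z ≤
      a * √(sigma2 (∏ j, b j) w (cen (∏ j, b j) w (FM b w F)) * N M)} :=
    measurableSet_le (measurable_WS _ _ _ _ _) measurable_const
  rw [hPT]
  simp only
  rw [if_pos ⟨hMP, hM1⟩, map_measureReal_apply (measurable_Psi b _ _) hmeas]
  congr 1
  ext x
  simp only [Set.mem_preimage, Set.mem_ofPred_eq]
  rw [WS_cen hq, hsig, mn_FM hb]
  have h3 : ∑ i ∈ range (N M), FM b w F (wd (∏ j, b j) w (0 + i) (Psi b (J M) (s M) x)) =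
      ∑ i ∈ range (N M), F (tw b w (fun j => s M j + i) x) := by
    refine sum_congr rfl fun i hi => ?_
    rw [mem_range] at hi
    have h4 : i + w ≤ J M := by
      have h5 : ((i + w : ℕ) : ℝ) ≤ J M := by
        push_cast
        have h6 : (i : ℝ) ≤ N M := by exact_mod_cast hi.le
        have h7 := hM ⟨0, hr⟩
        have h8 : (0 : ℝ) ≤ s M ⟨0, hr⟩ := Nat.cast_nonneg _
        calc (i : ℝ) + w ≤ A * log M + log M := by linarith
          _ = (A + 1) * log M := by ring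
          _ ≤ J M := Nat.le_ceil _
      exact_mod_cast h5
    rw [zero_add, wd_Psi hb h4, FM_mix hb]
    exact mem_words.2 (tw_lt hb _ _ _)
  rw [h3]

end Pool.Agent.K7.H79.ND
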