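import Pool.Agent.K7.H79.ND.Abs

/-!
# Digit matrices of tuples: standard forms (helper79)

`word b k n x` is the word of the `k` digits in base `b` of `x` which follow the first `n` digits after
the point, read as an integer between `0` and `b ^ k - 1`. For a tuple `x` of `r` real numbers and bases
`b 0, …, b (r - 1)` the words `word (b j) k (s j + i) (x j)`, `i < N`, are the rows of the digit matrices
in a window of length `N`; the `j`-th row starts at the place `s j + i`.
-/

set_option autoImplicit false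

namespace Pool.Agent.K7.H79.ND

open Finset Real MeasureTheory Filter Topology ProbabilityTheory
open Pool.Agent.Y933.KD (wd wd_lt)
open Pool.Agent.Y951.TU

variable {r : ℕ}

/-- the word of the `k` digits in base `b` of `x` which follow the first `n` digits after the point,
read as an integer between `0` and `b ^ k - 1` -/
noncomputable def word (b k n : ℕ) (x : ℝ) : ℕ :=
  ⌊(b : ℝ) ^ k * Int.fract ((b : ℝ) ^ n * x)⌋₊

/-- all tuples `W` of words of `k ≤ w` digits (`W j` in base `b j`) occur in `x` with the right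
frequency in all windows inside the first `L` places, up to an error `E`: if `s j + N ≤ L` for all `j`,
then the number of the `i < N` with `word (b j) k (s j + i) (x j) = W j` for all `j` differs from
`N / ∏ j, b j ^ k` by at most `E` -/
def NormalUpTo (b : Fin r → ℕ) (w : ℕ) (L E : ℝ) (x : Fin r → ℝ) : Prop :=
  ∀ (k : ℕ) (W s : Fin r → ℕ) (N : ℕ), 1 ≤ k → k ≤ w → (∀ j, W j < b j ^ k) →
    (∀ j, (s j : ℝ) + N ≤ L) →
    |(({i : ℕ | i < N ∧ ∀ j, word (b j) k (s j + i) (x j) = W j}.ncard : ℕ) : ℝ) -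
      N / ∏ j, (b j : ℝ) ^ k| ≤ E

/-- the tuples of words of `w` digits, the `j`-th word in base `b j` -/
def words (b : Fin r → ℕ) (w : ℕ) : Finset (Fin r → ℕ) :=
  Fintype.piFinset fun j => Finset.range (b j ^ w)

/-- the mean of `F` over the tuples of words of `w` digits -/
noncomputable def mean (b : Fin r → ℕ) (w : ℕ) (F : (Fin r → ℕ) → ℝ) : ℝ :=
  (∑ c ∈ words b w, F c) / ∏ j, (b j : ℝ) ^ w

/-- the covariance of the values of `F` at the tuples of the words of `w` digits at the beginning and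
at the end of a random tuple `c` of words of `w + h` digits -/
noncomputable def covariance (b : Fin r → ℕ) (w : ℕ) (F : (Fin r → ℕ) → ℝ) (h : ℕ) : ℝ :=
  (∑ c ∈ words b (w + h), (F (fun j => c j / b j ^ h) - mean b w F) *
    (F (fun j => c j % b j ^ w) - mean b w F)) / ∏ j, (b j : ℝ) ^ (w + h)

/-- the asymptotic variance of the sums: the variance of the sum of `F` over `N` consecutive tuples of
words of independent random numbers is `N * variance + O(1)` -/
noncomputable def variance (b : Fin r → ℕ) (w : ℕ) (F : (Fin r → ℕ) → ℝ) : ℝ :=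
  covariance b w F 0 + 2 * ∑ h ∈ Finset.Ico 1 w, covariance b w F h

lemma prod_pow_cast (b : Fin r → ℕ) (k : ℕ) :
    (∏ j, (b j : ℝ) ^ k) = ((∏ j, b j : ℕ) : ℝ) ^ k := by
  rw [Finset.prod_pow]
  push_cast
  rfl

lemma mean_eq (b : Fin r → ℕ) (w : ℕ) (F : (Fin r → ℕ) → ℝ) : mean b w F = mnT b w F := by
  unfold mean mnT
  rw [prod_pow_cast]
  rfl

lemma variance_eq (b : Fin r → ℕ) (w : ℕ) (F : (Fin r → ℕ) → ℝ) :
    variance b w F = cvT b w F 0 + 2 * ∑ h ∈ Finset.Ico 1 w, cvT b w F h := by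
  have h2 : ∀ h, covariance b w F h = cvT b w F h := by
    intro h
    unfold covariance cvT
    rw [prod_pow_cast, mean_eq]
    rfl
  unfold variance
  simp only [h2]

lemma normalUpTo_iff (b : Fin r → ℕ) (w : ℕ) (L E : ℝ) (x : Fin r → ℝ) :
    NormalUpTo b w L E x ↔ NrT b w 0 L E x := by
  classical
  have key : ∀ (k : ℕ) (W s : Fin r → ℕ) (N : ℕ),
      ({i : ℕ | i < N ∧ ∀ j, word (b j) k (s j + i) (x j) = W j}.ncard : ℕ) =
        ((range N).filter (fun i => tw b k (fun j => s j + i) x = W)).card := by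
    intro k W s N
    rw [← Set.ncard_coe_finset]
    congr 1
    ext i
    simp only [Set.mem_ofPred_eq, coe_filter, mem_range, funext_iff]
    rfl
  unfold NormalUpTo NrT
  constructor
  · intro h k W s N hk hkw hW _ hsN
    have h1 := h k W s N hk hkw hW hsN
    rw [key, prod_pow_cast] at h1
    exact h1
  · intro h k W s N hk hkw hW hsN
    have h1 := h k W s N hk hkw hW (fun j => Nat.cast_nonneg _) hsN
    rw [key, prod_pow_cast]
    exact h1

open Classical in
/-- **joint normality for uniform laws on finite families** -/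
theorem count_normal {ι : Type*} (hr : 1 ≤ r) {b : Fin r → ℕ} (hb : ∀ j, 2 ≤ b j)
    {S : ℕ → Set (Measure (Fin r → ℝ))} (hS : ∀ M, 1 ≤ M → ∀ P ∈ S M, IsProbabilityMeasure P)
    (hG : ∀ a : ℝ, 0 < a → GoodF b a S) (w : ℕ) (A ε : ℝ) (hε : 0 < ε) :
    ∃ c : ℝ, 0 < c ∧ ∃ M₀ : ℕ, ∀ M : ℕ, M₀ ≤ M → ∀ (I : Finset ι) (x : ι → Fin r → ℝ),
      unif I x ∈ S M →
      ((I.filter (fun m => ¬ NormalUpTo b w (A * log M) (ε * log M) (x m))).card : ℝ) ≤
        I.card * (M : ℝ) ^ (-c) := by
  have hb1 : ∀ j, 1 ≤ b j := fun j => by have := hb j; omega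
  obtain ⟨c, hc, M0, h⟩ := normalF hr hb hS (hG (ε / 4) (by positivity)) w A (ε / 2) (by positivity)
  have hlog : Tendsto (fun M : ℕ => log (M : ℝ)) atTop atTop :=
    Real.tendsto_log_atTop.comp tendsto_natCast_atTop_atTop
  obtain ⟨M1, hM1⟩ := eventually_atTop.1 (hlog.eventually_ge_atTop (4 / ε))
  refine ⟨c, hc, max M0 M1, fun M hM I x hI => ?_⟩
  obtain ⟨V, hV, hVP, hVx⟩ := h M ((le_max_left _ _).trans hM)
  have hl := hM1 M ((le_max_right _ _).trans hM)
  have hl1 : 1 ≤ ε / 4 * log M := by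
    rw [div_le_iff₀ hε] at hl
    linarith
  have h1 := hVP _ hI
  rcases I.eq_empty_or_nonempty with h0 | h0
  · rw [h0]
    simp
  have hcard : (0 : ℝ) < I.card := by exact_mod_cast Finset.card_pos.2 h0
  rw [real_unif _ _ hV, div_le_iff₀ hcard] at h1
  refine le_trans ?_ (h1.trans (le_of_eq (mul_comm _ _)))
  rw [Nat.cast_le]
  refine card_le_card fun m hm => ?_
  rw [mem_filter] at hm ⊢
  refine ⟨hm.1, ?_⟩
  by_contra hmV
  apply hm.2
  rw [normalUpTo_iff]
  have h2 := NrT_shift hb1 (hVx _ hmV) (E' := ε / 2 * log M) (by linarith) (by linarith) (by linarith)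
  have e1 : ε / 2 * log M + ε / 2 * log M = ε * log (M : ℝ) := by ring
  rw [e1] at h2
  exact h2

open Classical in
/-- **the central limit theorem for uniform laws on finite families** -/
theorem count_clt {ι : Type*} (hr : 1 ≤ r) {b : Fin r → ℕ} (hb : ∀ j, 1 ≤ b j)
    {S : ℕ → Set (Measure (Fin r → ℝ))} (hS : ∀ M, 1 ≤ M → ∀ P ∈ S M, IsProbabilityMeasure P)
    {a0 : ℝ} (hG : GoodF b a0 S) {w : ℕ} (hw : 1 ≤ w) (F : (Fin r → ℕ) → ℝ)
    (hF : 0 < variance b w F) (A : ℝ) (I : ℕ → Finset ι) (x : ℕ → ι → Fin r → ℝ)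
    (hI : ∀ᶠ M : ℕ in atTop, unif (I M) (x M) ∈ S M) (s : ℕ → Fin r → ℕ) (N : ℕ → ℕ)
    (hN : Tendsto N atTop atTop) (hsa : ∀ᶠ M : ℕ in atTop, ∀ j, a0 * log M ≤ s M j)
    (hsN : ∀ᶠ M : ℕ in atTop, ∀ j, (s M j : ℝ) + N M ≤ A * log M) (a : ℝ) :
    Tendsto (fun M : ℕ => (((I M).filter (fun m => ∑ i ∈ range (N M),
        F (fun j => word (b j) w (s M j + i) (x M m j)) - N M * mean b w F ≤
          a * √(variance b w F * N M))).card : ℝ) / (I M).card) atTop
      (𝓝 ((gaussianReal 0 1).real (Set.Iic a))) := by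
  rw [variance_eq] at hF
  have key := cltF hb hw hr hS hG F hF A (fun M => unif (I M) (x M)) hI s N hN hsa hsN a
  refine key.congr' (Filter.Eventually.of_forall fun M => ?_)
  have hmeas : MeasurableSet {y : Fin r → ℝ |
      ∑ i ∈ range (N M), F (tw b w (fun j => s M j + i) y) - N M * mnT b w F ≤
        a * √((cvT b w F 0 + 2 * ∑ h ∈ Finset.Ico 1 w, cvT b w F h) * N M)} := by
    refine measurableSet_le ?_ measurable_const
    refine Measurable.sub_const ?_ _
    refine Finset.measurable_sum _ fun i _ => ?_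
    exact (measurable_of_countable F).comp (measurable_tw b w _)
  rw [real_unif _ _ hmeas, variance_eq, mean_eq]
  rfl

end Pool.Agent.K7.H79.ND
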