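import Pool.Agent.K7.H79.ND.TotG
import Pool.Agent.K7.H79.ND.Std

/-!
# The laws of tuples of elements of the fields generated by random algebraic numbers (helper79)
-/

set_option autoImplicit false

namespace Pool.Agent.K7.H79.ND

open Finset Real MeasureTheory Filter Topology Polynomial
open Pool.Agent.Y951.TU
open Pool.Agent.Y933.KG (Alg Alg_finite Alg_many)
open Pool.Agent.Y933.KD.VdC (ev_le)
open Pool.Agent.Y933.KD (e e_sum norm_e)

variable {r : ℕ}

/-- a nonsingular integral system has bounded inverse -/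
lemma inv_bound {n : ℕ} (F : Fin r → Fin n → ℤ) {Z : ℝ} (hZ : 1 ≤ Z)
    (hF : ∀ j i, |(F j i : ℝ)| ≤ Z) (hind : ∀ l : Fin r → ℤ, l ≠ 0 → ∃ i, ∑ j, l j * F j i ≠ 0)
    (l : Fin r → ℤ) {V : ℝ} (hV0 : 0 ≤ V) (hV : ∀ i, |((∑ j, l j * F j i : ℤ) : ℝ)| ≤ V) (j : Fin r) :
    |(l j : ℝ)| ≤ (r * (r.factorial * (n + 1) ^ (r + 1))) * Z ^ (2 * r + 1) * V := by
  classical
  set M : Matrix (Fin r) (Fin n) ℤ := Matrix.of F with hM
  set G : Matrix (Fin r) (Fin r) ℤ := M * M.transpose with hG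
  have hGe : ∀ i j, G i j = ∑ k, F i k * F j k := by
    intro i j
    rw [hG, Matrix.mul_apply]
    rfl
  have hdet : G.det ≠ 0 := by
    intro h0
    obtain ⟨y, hy, hy0⟩ := (Matrix.exists_vecMul_eq_zero_iff (M := G)).2 h0
    obtain ⟨i, hi⟩ := hind y hy
    have h1 : ∑ k, (∑ j, y j * F j k) ^ 2 = 0 := by
      have h2 : ∑ k, (∑ j, y j * F j k) ^ 2 = ∑ j', (Matrix.vecMul y G) j' * y j' := by
        have e1 : ∀ j', (Matrix.vecMul y G) j' = ∑ k, (∑ j, y j * F j k) * F j' k := by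
          intro j'
          rw [Matrix.vecMul, dotProduct]
          simp only [hGe, mul_sum, sum_mul]
          rw [sum_comm]
          refine sum_congr rfl fun k _ => sum_congr rfl fun j _ => by ring
        calc ∑ k, (∑ j, y j * F j k) ^ 2 = ∑ k, ∑ x, (∑ j, y j * F j k) * F x k * y x := by
              refine sum_congr rfl fun k _ => ?_
              rw [pow_two]
              conv_lhs => rw [mul_sum]
              exact sum_congr rfl fun x _ => by ring
          _ = ∑ x, ∑ k, (∑ j, y j * F j k) * F x k * y x := sum_comm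
          _ = _ := sum_congr rfl fun x _ => by rw [e1, sum_mul]
      rw [h2, hy0]
      simp
    have h3 := (sum_eq_zero_iff_of_nonneg (fun k _ => sq_nonneg _)).1 h1 i (mem_univ i)
    exact hi (pow_eq_zero_iff (two_ne_zero) |>.1 h3)
  have hn0 : (0 : ℝ) ≤ n := Nat.cast_nonneg n
  -- the entries of the Gram matrix
  have hGb : ∀ i j, |((G i j : ℤ) : ℝ)| ≤ (n + 1) * Z ^ 2 := by
    intro i j
    rw [hGe]
    push_cast
    calc |∑ k, (F i k : ℝ) * F j k| ≤ ∑ k, |(F i k : ℝ) * F j k| := abs_sum_le_sum_abs _ _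
      _ ≤ ∑ _k : Fin n, Z * Z := by
          refine sum_le_sum fun k _ => ?_
          rw [abs_mul]
          exact mul_le_mul (hF i k) (hF j k) (abs_nonneg _) (by linarith)
      _ = n * Z ^ 2 := by rw [sum_const, card_univ, Fintype.card_fin, nsmul_eq_mul]; ring
      _ ≤ _ := by nlinarith [sq_nonneg Z]
  have hX1 : (1 : ℝ) ≤ (n + 1) * Z ^ 2 := by
    have : 1 ≤ Z ^ 2 := one_le_pow₀ hZ
    nlinarith
  -- the adjugate
  have hadj : ∀ i j, |((G.adjugate i j : ℤ) : ℝ)| ≤ r.factorial * ((n + 1) * Z ^ 2) ^ r := by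
    intro i j
    rw [Matrix.adjugate_apply]
    have h1 : (((G.updateRow j (Pi.single i 1)).det : ℤ) : ℝ) =
        ((G.updateRow j (Pi.single i 1)).map (Int.cast : ℤ → ℝ)).det := by
      have := RingHom.map_det (Int.castRingHom ℝ) (G.updateRow j (Pi.single i 1))
      exact this
    rw [h1]
    have h2 := Matrix.det_le (A := (G.updateRow j (Pi.single i 1)).map (Int.cast : ℤ → ℝ))
      (abv := AbsoluteValue.abs) (x := (n + 1) * Z ^ 2) (by
        intro i' j'
        rw [Matrix.map_apply, AbsoluteValue.abs_apply]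
        rw [Matrix.updateRow_apply]
        split_ifs with h3
        · rcases eq_or_ne j' i with h4 | h4
          · rw [h4, Pi.single_eq_same]
            simpa using hX1
          · rw [Pi.single_eq_of_ne h4]
            simp only [Int.cast_zero, abs_zero]
            linarith
        · exact hGb i' j')
    rw [Fintype.card_fin, nsmul_eq_mul, AbsoluteValue.abs_apply] at h2
    exact h2
  -- Cramer's rule
  have hcr : G.det * l j = ∑ j', (∑ k, (∑ i, l i * F i k) * F j' k) * G.adjugate j' j := by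
    have h1 : Matrix.vecMul (Matrix.vecMul l G) G.adjugate = G.det • l := by
      rw [Matrix.vecMul_vecMul, Matrix.mul_adjugate, Matrix.vecMul_smul, Matrix.vecMul_one]
    have h2 := congrFun h1 j
    rw [Pi.smul_apply, smul_eq_mul] at h2
    rw [← h2, Matrix.vecMul, dotProduct]
    refine sum_congr rfl fun j' _ => ?_
    congr 1
    rw [Matrix.vecMul, dotProduct]
    simp only [hGe, mul_sum, sum_mul]
    rw [sum_comm]
    refine sum_congr rfl fun k _ => sum_congr rfl fun i _ => by ring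
  have hdet1 : (1 : ℝ) ≤ |(G.det : ℝ)| := by
    have := Int.one_le_abs hdet
    exact_mod_cast this
  have hZ0 : 0 ≤ Z := by linarith
  calc |(l j : ℝ)| ≤ |(G.det : ℝ)| * |(l j : ℝ)| := le_mul_of_one_le_left (abs_nonneg _) hdet1
    _ = |((G.det * l j : ℤ) : ℝ)| := by push_cast; rw [abs_mul]
    _ = |∑ j', (∑ k, ((∑ i, l i * F i k : ℤ) : ℝ) * F j' k) * (G.adjugate j' j : ℝ)| := by
        rw [hcr]; push_cast; rfl
    _ ≤ ∑ j', |(∑ k, ((∑ i, l i * F i k : ℤ) : ℝ) * F j' k) * (G.adjugate j' j : ℝ)| :=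
        abs_sum_le_sum_abs _ _
    _ ≤ ∑ _j' : Fin r, ((n * (V * Z)) * (r.factorial * ((n + 1) * Z ^ 2) ^ r)) := by
        refine sum_le_sum fun j' _ => ?_
        rw [abs_mul]
        refine mul_le_mul ?_ (hadj j' j) (abs_nonneg _) (by positivity)
        calc |∑ k, ((∑ i, l i * F i k : ℤ) : ℝ) * F j' k| ≤
              ∑ k, |((∑ i, l i * F i k : ℤ) : ℝ) * F j' k| := abs_sum_le_sum_abs _ _
          _ ≤ ∑ _k : Fin n, V * Z := by
              refine sum_le_sum fun k _ => ?_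
              rw [abs_mul]
              exact mul_le_mul (hV k) (hF j' k) (abs_nonneg _) hV0
          _ = n * (V * Z) := by rw [sum_const, card_univ, Fintype.card_fin, nsmul_eq_mul]
    _ = r * ((n * (V * Z)) * (r.factorial * ((n + 1) * Z ^ 2) ^ r)) := by
        rw [sum_const, card_univ, Fintype.card_fin, nsmul_eq_mul]
    _ ≤ r * (((n + 1) * (V * Z)) * (r.factorial * ((n + 1) * Z ^ 2) ^ r)) := by
        have h3 : 0 ≤ (r.factorial : ℝ) * ((n + 1) * Z ^ 2) ^ r := by positivity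
        have h4 : (n : ℝ) * (V * Z) ≤ (n + 1) * (V * Z) := by
          have : 0 ≤ V * Z := by positivity
          nlinarith
        gcongr
    _ = _ := by
        rw [mul_pow, ← pow_mul, pow_succ ((n : ℝ) + 1) r, pow_succ Z (2 * r)]
        ring

/-- the laws of the tuples `∑ t, f j t (x t) / m` for random real algebraic numbers `x t` of degree
`q t + 2` and height at most `H` -/
def SAlg (n r : ℕ) (q : Fin n → ℕ) (κ : ℝ) (H : ℕ) : Set (Measure (Fin r → ℝ)) :=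
  {P | ∃ (s : Fin n → Finset ℝ) (f : Fin r → Fin n → ℤ[X]) (m : ℕ),
    (∀ t x, x ∈ s t ↔ x ∈ Alg (q t + 2) H) ∧ (∀ t, (s t).Nonempty) ∧
    (∀ j t, (f j t).natDegree ≤ q t + 1) ∧ (∀ j t i, |((f j t).coeff i : ℝ)| ≤ (H : ℝ) ^ κ) ∧ 1 ≤ m ∧
    (m : ℝ) ≤ (H : ℝ) ^ κ ∧
    (∀ l : Fin r → ℤ, l ≠ 0 → ∃ t i, 1 ≤ i ∧ ∑ j, l j * (f j t).coeff i ≠ 0) ∧
    P = unif (Fintype.piFinset s) (fun x j => (∑ t, aeval (x t) (f j t)) / m)}

lemma SAlg_prob (n r : ℕ) (q : Fin n → ℕ) (κ : ℝ) (H : ℕ) (_hH : 1 ≤ H) (P : Measure (Fin r → ℝ))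
    (hP : P ∈ SAlg n r q κ H) : IsProbabilityMeasure P := by
  classical
  obtain ⟨s, f, m, _, hs, _, _, _, _, _, rfl⟩ := hP
  exact unif_prob (Fintype.piFinset_nonempty.2 hs) _

/-- **power saving for the exponential sums over the tuples of elements of the fields** -/
theorem good_algF {n : ℕ} (q : Fin n → ℕ) {b : Fin r → ℕ} (hb : ∀ j, 2 ≤ b j) {a κ : ℝ} (ha : 0 < a)
    (hκ : 0 < κ) (hκa : κ * (2 * r + 2) * 4 ≤ a * log 2) : GoodF b a (SAlg n r q κ) := by
  classical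
  intro k A
  have hlog2 : 0 < log 2 := Real.log_pos (by norm_num)
  have hb1 : ∀ j, 1 ≤ b j := fun j => by have := hb j; omega
  obtain ⟨B0, hB0⟩ := exists_ge (fun j => (b j : ℝ))
  obtain ⟨B1, hB1⟩ : ∃ B1 : ℝ, B1 = max B0 1 := ⟨_, rfl⟩
  have hB1' : 1 ≤ B1 := by rw [hB1]; exact le_max_right _ _
  have hbB : ∀ j, (b j : ℝ) ≤ B1 := fun j => (hB0 j).trans (by rw [hB1]; exact le_max_left _ _)
  have hlB : 0 ≤ log B1 := Real.log_nonneg hB1'
  obtain ⟨δ1, hδ1⟩ : ∃ δ1 : ℝ, δ1 = a * log 2 / 2 := ⟨_, rfl⟩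
  have hδ10 : 0 < δ1 := by rw [hδ1]; positivity
  obtain ⟨K, hK⟩ : ∃ K : ℕ, 3 + κ + |A| * log B1 ≤ K := exists_nat_ge _
  have hK1 : 1 ≤ K := by
    have h1 : (1 : ℝ) ≤ K := by
      have : 0 ≤ |A| * log B1 := by positivity
      linarith
    exact_mod_cast h1
  choose κt hκt ρt hρt H0t hH0t using fun t => algG (q t) K hK1 δ1 hδ10
  obtain ⟨ρ, hρ, hρle⟩ := exists_pos_le ρt hρt
  obtain ⟨Q, hQ⟩ : ∃ Q : ℕ, ∀ t, q t ≤ Q := ⟨univ.sup q, fun t => Finset.le_sup (mem_univ t)⟩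
  obtain ⟨H0, hH0⟩ : ∃ H0 : ℕ, ∀ t, H0t t ≤ H0 := ⟨univ.sup H0t, fun t => Finset.le_sup (mem_univ t)⟩
  obtain ⟨Cb, hCb⟩ : ∃ Cb : ℝ, Cb = r * (r.factorial * ((n * (Q + 1) : ℕ) + 1) ^ (r + 1)) := ⟨_, rfl⟩
  have hCb0 : 0 ≤ Cb := by rw [hCb]; positivity
  obtain ⟨H1, hH1⟩ := eventually_atTop.1 (ev_le Cb (a * log 2 / 4) (by positivity))
  obtain ⟨H2, hH2⟩ := eventually_atTop.1 (ev_le ((r : ℝ) * k) 1 (by norm_num))
  refine ⟨min 1 ρ, lt_min one_pos hρ, max (max H0 1) (max H1 H2), ?_⟩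
  intro H hH P hP qq hq h hh hne
  obtain ⟨s, f, m, hs, hsne, hfd, hfc, hm1, hmκ, hind, rfl⟩ := hP
  have hHa : H0 ≤ H := le_of_max_le_left (le_of_max_le_left hH)
  have hHb : 1 ≤ H := le_of_max_le_right (le_of_max_le_left hH)
  have hHc : H1 ≤ H := le_of_max_le_left (le_of_max_le_right hH)
  have hHd : H2 ≤ H := le_of_max_le_right (le_of_max_le_right hH)
  have hHR : (1 : ℝ) ≤ H := by exact_mod_cast hHb
  have hHp : (0 : ℝ) < H := by linarith
  have hCH : Cb ≤ (H : ℝ) ^ (a * log 2 / 4) := hH1 H hHc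
  have hrk : (r : ℝ) * k ≤ (H : ℝ) ^ (1 : ℝ) := hH2 H hHd
  have hlog0 : 0 ≤ log (H : ℝ) := Real.log_nonneg hHR
  have hη1 : (H : ℝ) ^ (min 1 ρ) ≤ (H : ℝ) ^ (1 : ℝ) :=
    Real.rpow_le_rpow_of_exponent_le hHR (min_le_left _ _)
  have hmR : (1 : ℝ) ≤ m := by exact_mod_cast hm1
  have hmp : (0 : ℝ) < m := by linarith
  obtain ⟨l, hl⟩ : ∃ l : Fin r → ℤ, l = ∑ i, h i • qq i := ⟨_, rfl⟩
  rw [← hl] at hne ⊢
  choose jj nn hna hnA hqe using hq
  have hlj : ∀ j, l j = ∑ i, h i * (((b (jj i) ^ nn i : ℕ) : ℤ) * (Pi.single (jj i) 1 : Fin r → ℤ) j) := by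
    intro j
    rw [hl, Finset.sum_apply]
    refine sum_congr rfl fun i _ => ?_
    rw [Pi.smul_apply, smul_eq_mul, hqe i]
  -- the size of `l`
  have hlup : ∀ j, |(l j : ℝ)| ≤ k * ((H : ℝ) ^ (1 : ℝ) * (H : ℝ) ^ (|A| * log B1)) := by
    intro j
    rw [hlj]
    push_cast
    calc _ ≤ ∑ i, |(h i : ℝ) * ((b (jj i) : ℝ) ^ nn i *
          ((Pi.single (jj i) 1 : Fin r → ℤ) j : ℝ))| := abs_sum_le_sum_abs _ _
      _ ≤ ∑ _i : Fin k, (H : ℝ) ^ (1 : ℝ) * (H : ℝ) ^ (|A| * log B1) := by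
          refine sum_le_sum fun i _ => ?_
          rw [abs_mul, abs_mul]
          have h1 : |(h i : ℝ)| ≤ (H : ℝ) ^ (1 : ℝ) := (hh i).trans hη1
          have h2 : |(((Pi.single (jj i) 1 : Fin r → ℤ) j : ℤ) : ℝ)| ≤ 1 := by
            rcases eq_or_ne j (jj i) with h4 | h4
            · rw [h4, Pi.single_eq_same]
              simp
            · rw [Pi.single_eq_of_ne h4]
              simp
          have h3 : |(b (jj i) : ℝ) ^ nn i| ≤ (H : ℝ) ^ (|A| * log B1) := by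
            rw [abs_of_nonneg (by positivity)]
            have h5 : ((nn i : ℕ) : ℝ) ≤ |A| * log H := (hnA i).trans (by gcongr; exact le_abs_self _)
            calc (b (jj i) : ℝ) ^ nn i ≤ B1 ^ nn i := by gcongr; exact hbB _
              _ = B1 ^ ((nn i : ℕ) : ℝ) := (Real.rpow_natCast _ _).symm
              _ ≤ B1 ^ (|A| * log H) := Real.rpow_le_rpow_of_exponent_le hB1' h5
              _ = (H : ℝ) ^ (|A| * log B1) := by
                  rw [Real.rpow_def_of_pos (by linarith), Real.rpow_def_of_pos hHp]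
                  congr 1
                  ring
          calc |(h i : ℝ)| * (|(b (jj i) : ℝ) ^ nn i| * |(((Pi.single (jj i) 1 : Fin r → ℤ) j : ℤ) : ℝ)|)
              ≤ (H : ℝ) ^ (1 : ℝ) * ((H : ℝ) ^ (|A| * log B1) * 1) := by gcongr
            _ = _ := by rw [mul_one]
      _ = _ := by rw [sum_const, card_univ, Fintype.card_fin, nsmul_eq_mul]
  have hllow : ∃ j, (H : ℝ) ^ (a * log 2) ≤ |(l j : ℝ)| := by
    obtain ⟨j, hj⟩ : ∃ j, l j ≠ 0 := by
      by_contra hcon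
      push Not at hcon
      exact hne (funext hcon)
    refine ⟨j, ?_⟩
    obtain ⟨n0, hn0⟩ : ∃ n0 : ℕ, n0 = ⌈a * log H⌉₊ := ⟨_, rfl⟩
    have hdvd : ((b j ^ n0 : ℕ) : ℤ) ∣ l j := by
      rw [hlj]
      refine Finset.dvd_sum fun i _ => ?_
      rcases eq_or_ne j (jj i) with h4 | h4
      · have h5 : n0 ≤ nn i := by
          rw [hn0]
          exact Nat.ceil_le.2 (hna i)
        have h6 : ((b j ^ n0 : ℕ) : ℤ) ∣ ((b (jj i) ^ nn i : ℕ) : ℤ) := by
          rw [← h4]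
          exact_mod_cast pow_dvd_pow _ h5
        exact Dvd.dvd.mul_left (Dvd.dvd.mul_right h6 _) _
      · rw [Pi.single_eq_of_ne h4]
        simp
    have h1 : ((b j ^ n0 : ℕ) : ℤ) ≤ |l j| :=
      Int.le_of_dvd (abs_pos.2 hj) ((dvd_abs _ _).2 hdvd)
    have h2 : ((b j : ℝ) ^ n0) ≤ |(l j : ℝ)| := by exact_mod_cast h1
    refine le_trans ?_ h2
    calc (H : ℝ) ^ (a * log 2) = (2 : ℝ) ^ (a * log H) := by
          rw [Real.rpow_def_of_pos hHp, Real.rpow_def_of_pos (by norm_num : (0 : ℝ) < 2)]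
          congr 1
          ring
      _ ≤ (2 : ℝ) ^ ((n0 : ℕ) : ℝ) := by
          apply Real.rpow_le_rpow_of_exponent_le (by norm_num)
          rw [hn0]
          exact Nat.le_ceil _
      _ = (2 : ℝ) ^ n0 := Real.rpow_natCast _ _
      _ ≤ (b j : ℝ) ^ n0 := by
          gcongr
          exact_mod_cast hb j
  -- the polynomials
  obtain ⟨g, hg⟩ : ∃ g : Fin n → ℤ[X], g = fun t => ∑ j, C (l j) * f j t := ⟨_, rfl⟩
  have hgc : ∀ t i, (g t).coeff i = ∑ j, l j * (f j t).coeff i := by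
    intro t i
    rw [hg, finsetSum_coeff]
    exact sum_congr rfl fun j _ => coeff_C_mul _
  have hgd : ∀ t, (g t).natDegree ≤ q t + 1 := by
    intro t
    rw [hg]
    refine natDegree_sum_le_of_forall_le _ _ fun j _ => ?_
    exact (natDegree_C_mul_le _ _).trans (hfd j t)
  obtain ⟨t0, i0, hi0, hi0'⟩ := hind l hne
  rw [← hgc] at hi0'
  -- the largest coefficient
  obtain ⟨⟨t1, i1⟩, hi1m, hi1⟩ := Finset.exists_max_image (univ ×ˢ Finset.Icc 1 (Q + 1))
    (fun p : Fin n × ℕ => |(g p.1).coeff p.2|) ⟨(t0, 1), by simp⟩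
  rw [mem_product, Finset.mem_Icc] at hi1m
  obtain ⟨V, hV⟩ : ∃ V : ℤ, V = |(g t1).coeff i1| := ⟨_, rfl⟩
  have hVall : ∀ t i, 1 ≤ i → |(g t).coeff i| ≤ V := by
    intro t i hi
    rw [hV]
    rcases le_or_gt i (Q + 1) with h1 | h1
    · exact hi1 (t, i) (mem_product.2 ⟨mem_univ _, Finset.mem_Icc.2 ⟨hi, h1⟩⟩)
    · have h2 := hQ t
      have h3 := hgd t
      rw [coeff_eq_zero_of_natDegree_lt (by omega), abs_zero]
      exact abs_nonneg _
  have hV1 : 1 ≤ V := (Int.one_le_abs hi0').trans (hVall t0 i0 hi0)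
  have hVR : (1 : ℝ) ≤ V := by exact_mod_cast hV1
  have hVp : (0 : ℝ) < V := by linarith
  have hVlow : (H : ℝ) ^ (a * log 2) ≤ Cb * (H : ℝ) ^ (κ * (2 * r + 1)) * V := by
    obtain ⟨j, hj⟩ := hllow
    refine hj.trans ?_
    have h1 := inv_bound (r := r) (n := n * (Q + 1))
      (fun j p => (f j (finProdFinEquiv.symm p).1).coeff ((finProdFinEquiv.symm p).2.1 + 1))
      (Z := (H : ℝ) ^ κ)
      (Real.one_le_rpow hHR hκ.le) (fun j i => hfc j _ _) (fun l' hl' => by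
        obtain ⟨t, i, hi, hi'⟩ := hind l' hl'
        have hiQ : i - 1 < Q + 1 := by
          by_contra hcon
          apply hi'
          refine sum_eq_zero fun j _ => ?_
          have h2 := hfd j t
          have h3 := hQ t
          rw [coeff_eq_zero_of_natDegree_lt (by omega), mul_zero]
        refine ⟨finProdFinEquiv (t, ⟨i - 1, hiQ⟩), ?_⟩
        simp only [Equiv.symm_apply_apply]
        simpa [Nat.sub_add_cancel hi] using hi') l (V := (V : ℝ)) hVp.le (fun p => by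
        rw [← hgc]
        have := hVall (finProdFinEquiv.symm p).1 ((finProdFinEquiv.symm p).2.1 + 1) (by omega)
        exact_mod_cast this) j
    have e1 : ((H : ℝ) ^ κ) ^ (2 * r + 1) = (H : ℝ) ^ (κ * (2 * r + 1)) := by
      rw [← Real.rpow_natCast, ← Real.rpow_mul hHp.le]
      push_cast
      rfl
    rw [e1, ← hCb] at h1
    exact h1
  have hVup : (V : ℝ) ≤ (H : ℝ) ^ (K : ℝ) := by
    rw [hV, hgc]
    push_cast
    calc |∑ j, (l j : ℝ) * ((f j t1).coeff i1 : ℝ)| ≤ ∑ j, |(l j : ℝ) * ((f j t1).coeff i1 : ℝ)| :=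
          abs_sum_le_sum_abs _ _
      _ ≤ ∑ _j : Fin r, (k * ((H : ℝ) ^ (1 : ℝ) * (H : ℝ) ^ (|A| * log B1))) * (H : ℝ) ^ κ := by
          refine sum_le_sum fun j _ => ?_
          rw [abs_mul]
          exact mul_le_mul (hlup j) (hfc j _ _) (abs_nonneg _) (by positivity)
      _ = (r * k) * ((H : ℝ) ^ (1 : ℝ) * (H : ℝ) ^ (|A| * log B1) * (H : ℝ) ^ κ) := by
          rw [sum_const, card_univ, Fintype.card_fin, nsmul_eq_mul]
          ring
      _ ≤ (H : ℝ) ^ (1 : ℝ) * ((H : ℝ) ^ (1 : ℝ) * (H : ℝ) ^ (|A| * log B1) * (H : ℝ) ^ κ) := by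
          gcongr
      _ = (H : ℝ) ^ (2 + |A| * log B1 + κ) := by
          rw [← Real.rpow_add hHp, ← Real.rpow_add hHp, ← Real.rpow_add hHp]
          congr 1
          ring
      _ ≤ _ := Real.rpow_le_rpow_of_exponent_le hHR (by linarith)
  -- the phase
  obtain ⟨G, hG⟩ : ∃ G : ℝ[X], G = C (1 / (V : ℝ)) * (g t1).map (Int.castRingHom ℝ) := ⟨_, rfl⟩
  have hGc : ∀ i, G.coeff i = ((g t1).coeff i : ℝ) / V := by
    intro i
    rw [hG, coeff_C_mul, coeff_map]
    simp only [eq_intCast]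
    ring
  have hshape : Shape (κt t1) H (q t1) G := by
    refine ⟨?_, ?_, i1, hi1m.2.1, ?_⟩
    · rw [hG]
      exact (natDegree_C_mul_le _ _).trans (natDegree_map_le.trans (hgd t1))
    · intro i hi
      rw [hGc, abs_div, abs_of_pos hVp, div_le_iff₀ hVp]
      have h1 : |((g t1).coeff i : ℝ)| ≤ V := by exact_mod_cast hVall t1 i hi
      have h2 : (1 : ℝ) ≤ (H : ℝ) ^ (κt t1) := Real.one_le_rpow hHR (hκt t1).le
      nlinarith
    · rw [hGc, abs_div, abs_of_pos hVp, le_div_iff₀ hVp]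
      have h1 : |((g t1).coeff i1 : ℝ)| = V := by rw [hV]; push_cast; rfl
      have h2 : (H : ℝ) ^ (-(κt t1)) ≤ 1 :=
        Real.rpow_le_one_of_one_le_of_nonpos hHR (by linarith [hκt t1])
      rw [h1]
      nlinarith
  have hθ : ∀ x : Fin n → ℝ, lin r l (fun j => (∑ t, aeval (x t) (f j t)) / m) =
      ∑ t, (eval₂ (Int.castRingHom ℝ) (x t) (g t)) / m := by
    intro x
    rw [lin_apply]
    have h1 : ∀ t, eval₂ (Int.castRingHom ℝ) (x t) (g t) = ∑ j, (l j : ℝ) * aeval (x t) (f j t) := by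
      intro t
      rw [hg, eval₂_finsetSum]
      refine sum_congr rfl fun j _ => ?_
      rw [eval₂_mul, eval₂_C]
      rfl
    simp only [h1, mul_div_assoc', mul_sum, sum_div]
    rw [sum_comm]
  have hθ1 : ∀ x : ℝ, eval₂ (Int.castRingHom ℝ) x (g t1) / m = (V / m : ℝ) * G.eval x := by
    intro x
    rw [hG, eval_mul, eval_C, eval_map]
    field_simp
  have hm : (H : ℝ) ^ δ1 ≤ |(V / m : ℝ)| := by
    rw [abs_of_nonneg (by positivity), le_div_iff₀ hmp]
    have h1 : (H : ℝ) ^ δ1 * m * (Cb * (H : ℝ) ^ (κ * (2 * r + 1))) ≤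
        V * (Cb * (H : ℝ) ^ (κ * (2 * r + 1))) := by
      calc (H : ℝ) ^ δ1 * m * (Cb * (H : ℝ) ^ (κ * (2 * r + 1))) ≤
            (H : ℝ) ^ δ1 * (H : ℝ) ^ κ * ((H : ℝ) ^ (a * log 2 / 4) * (H : ℝ) ^ (κ * (2 * r + 1))) := by
              gcongr
        _ = (H : ℝ) ^ (δ1 + κ + (a * log 2 / 4) + κ * (2 * r + 1)) := by
            rw [← Real.rpow_add hHp, ← Real.rpow_add hHp, ← Real.rpow_add hHp]
            congr 1
            ring
        _ ≤ (H : ℝ) ^ (a * log 2) := by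
            apply Real.rpow_le_rpow_of_exponent_le hHR
            rw [hδ1]
            nlinarith
        _ ≤ _ := hVlow.trans (le_of_eq (mul_comm _ _))
    by_contra hcon
    push Not at hcon
    have h2 : 0 < Cb * (H : ℝ) ^ (κ * (2 * r + 1)) := by
      by_contra h3
      push Not at h3
      have h4 : 0 < (H : ℝ) ^ (a * log 2) := by positivity
      nlinarith
    have h5 := mul_lt_mul_of_pos_right hcon h2
    linarith
  have hM : |(V / m : ℝ)| ≤ (H : ℝ) ^ (K : ℝ) := by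
    rw [abs_of_nonneg (by positivity)]
    exact (div_le_self hVp.le hmR).trans hVup
  have key : ‖∑ x ∈ s t1, e ((V / m : ℝ) * G.eval x)‖ ≤ (s t1).card * (H : ℝ) ^ (-(ρt t1)) :=
    (hH0t t1 H ((hH0 t1).trans hHa)).2 G hshape (V / m) hm hM (s t1) (hs t1)
  unfold hat
  rw [integral_unif, norm_mul]
  have hcard : (0 : ℝ) < (Fintype.piFinset s).card := by
    exact_mod_cast Finset.card_pos.2 (Fintype.piFinset_nonempty.2 hsne)
  have hnorm : ‖(1 / (((Fintype.piFinset s).card : ℕ) : ℂ))‖ = 1 / ((Fintype.piFinset s).card : ℝ) := by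
    rw [norm_div, norm_one, Complex.norm_natCast]
  rw [hnorm]
  simp only [hθ, e_sum]
  rw [← Finset.prod_univ_sum s (fun t x => e (eval₂ (Int.castRingHom ℝ) x (g t) / m)), norm_prod]
  have hprod : ∏ t, ‖∑ x ∈ s t, e (eval₂ (Int.castRingHom ℝ) x (g t) / m)‖ ≤
      (∏ t, ((s t).card : ℝ)) * (H : ℝ) ^ (-ρ) := by
    rw [← Finset.mul_prod_erase univ _ (mem_univ t1),
      ← Finset.mul_prod_erase univ (fun t => ((s t).card : ℝ)) (mem_univ t1)]
    have h1 : ‖∑ x ∈ s t1, e (eval₂ (Int.castRingHom ℝ) x (g t1) / m)‖ ≤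
        (s t1).card * (H : ℝ) ^ (-ρ) := by
      simp only [hθ1]
      refine key.trans ?_
      gcongr
      exact hρle t1
    have h2 : ∏ t ∈ univ.erase t1, ‖∑ x ∈ s t, e (eval₂ (Int.castRingHom ℝ) x (g t) / m)‖ ≤
        ∏ t ∈ univ.erase t1, ((s t).card : ℝ) := by
      refine Finset.prod_le_prod (fun t _ => norm_nonneg _) fun t _ => ?_
      refine (norm_sum_le _ _).trans (le_of_eq ?_)
      simp only [norm_e, sum_const, nsmul_eq_mul, mul_one]
    calc _ ≤ ((s t1).card * (H : ℝ) ^ (-ρ)) * ∏ t ∈ univ.erase t1, ((s t).card : ℝ) := by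
          refine mul_le_mul h1 h2 ?_ (by positivity)
          exact Finset.prod_nonneg fun t _ => norm_nonneg _
      _ = _ := by ring
  have hcp : ((Fintype.piFinset s).card : ℝ) = ∏ t, ((s t).card : ℝ) := by
    rw [Fintype.card_piFinset]
    push_cast
    rfl
  calc 1 / ((Fintype.piFinset s).card : ℝ) *
        ∏ t, ‖∑ x ∈ s t, e (eval₂ (Int.castRingHom ℝ) x (g t) / m)‖ ≤
        1 / ((Fintype.piFinset s).card : ℝ) * ((∏ t, ((s t).card : ℝ)) * (H : ℝ) ^ (-ρ)) := by gcongr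
    _ = (H : ℝ) ^ (-ρ) := by
        rw [← hcp]
        field_simp
    _ ≤ (H : ℝ) ^ (-(min 1 ρ)) :=
        Real.rpow_le_rpow_of_exponent_le hHR (by linarith [min_le_right 1 ρ])

end Pool.Agent.K7.H79.ND
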