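import Pool.Agent.K7.H79.ND.AlgF

/-!
# Joint normality of all tuples of elements of small height of the fields generated by random real
algebraic numbers (helper79)
-/

set_option autoImplicit false

namespace Pool.Agent.K7.H79.ND

open Finset Real MeasureTheory Filter Topology Polynomial
open Pool.Agent.Y951.TU
open Pool.Agent.Y933.KG (Alg Alg_finite Alg_many)
open Pool.Agent.Y933.KD.VdC (ev_le)

variable {r : ℕ}

lemma exists_pos_le_fin {ι : Type*} (T : Finset ι) (c : ι → ℝ) (h : ∀ t, 0 < c t) :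
    ∃ c0 : ℝ, 0 < c0 ∧ ∀ t ∈ T, c0 ≤ c t := by
  classical
  induction T using Finset.induction_on with
  | empty => exact ⟨1, one_pos, by simp⟩
  | insert t T _ ih =>
    obtain ⟨c0, h0, h1⟩ := ih
    refine ⟨min c0 (c t), lt_min h0 (h t), fun t' ht' => ?_⟩
    rcases Finset.mem_insert.1 ht' with h2 | h2
    · rw [h2]
      exact min_le_right _ _
    · exact (min_le_left _ _).trans (h1 t' h2)

open Classical in
/-- joint normality for uniform laws on finite families, when the exponential sums are small for the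
frequencies of the digits after the first `ε / 4 log M` ones -/
theorem count_normal1 {ι : Type*} (hr : 1 ≤ r) {b : Fin r → ℕ} (hb : ∀ j, 2 ≤ b j)
    {S : ℕ → Set (Measure (Fin r → ℝ))} (hS : ∀ M, 1 ≤ M → ∀ P ∈ S M, IsProbabilityMeasure P)
    (w : ℕ) (A ε : ℝ) (hε : 0 < ε) (hG : GoodF b (ε / 4) S) :
    ∃ c : ℝ, 0 < c ∧ ∃ M₀ : ℕ, ∀ M : ℕ, M₀ ≤ M → ∀ (I : Finset ι) (x : ι → Fin r → ℝ),
      unif I x ∈ S M →
      ((I.filter (fun m => ¬ NormalUpTo b w (A * log M) (ε * log M) (x m))).card : ℝ) ≤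
        I.card * (M : ℝ) ^ (-c) := by
  have hb1 : ∀ j, 1 ≤ b j := fun j => by have := hb j; omega
  obtain ⟨c, hc, M0, h⟩ := normalF hr hb hS hG w A (ε / 2) (by positivity)
  have hlog : Tendsto (fun M : ℕ => log (M : ℝ)) atTop atTop :=
    Real.tendsto_log_atTop.comp tendsto_natCast_atTop_atTop
  obtain ⟨M1, hM1⟩ := eventually_atTop.1 (hlog.eventually_ge_atTop (4 / ε))
  refine ⟨c, hc, max M0 M1, fun M hM I x hI => ?_⟩
  obtain ⟨V, hV, hVP, hVx⟩ := h M ((le_max_left _ _).trans hM)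
  have hl := hM1 M ((le_max_right _ _).trans hM)
  have hl1 : 1 ≤ ε / 4 * log M := by
    rw [div_le_iff₀ hε] at hl
    linarith
  have h1 := hVP _ hI
  rcases I.eq_empty_or_nonempty with h0 | h0
  · rw [h0]
    simp
  have hcard : (0 : ℝ) < I.card := by exact_mod_cast Finset.card_pos.2 h0
  rw [real_unif _ _ hV, div_le_iff₀ hcard] at h1
  refine le_trans ?_ (h1.trans (le_of_eq (mul_comm _ _)))
  rw [Nat.cast_le]
  refine card_le_card fun m hm => ?_
  rw [mem_filter] at hm ⊢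
  refine ⟨hm.1, ?_⟩
  by_contra hmV
  apply hm.2
  rw [normalUpTo_iff]
  have h2 := NrT_shift hb1 (hVx _ hmV) (E' := ε / 2 * log M) (by linarith) (by linarith) (by linarith)
  have e1 : ε / 2 * log M + ε / 2 * log M = ε * log (M : ℝ) := by ring
  rw [e1] at h2
  exact h2

/-- the polynomials of degree at most `n` are given by their coefficients -/
lemma poly_of_coeff (n : ℕ) (f : ℤ[X]) (hf : f.natDegree ≤ n) :
    f = ∑ i : Fin (n + 1), monomial i.1 (f.coeff i.1) := by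
  conv_lhs => rw [f.as_sum_range' (n + 1) (by omega)]
  rw [Finset.sum_range]

open Classical in
/-- **joint normality** -/
theorem alg_normal {n : ℕ} (q : Fin n → ℕ) (hr : 1 ≤ r) (B w : ℕ) (A ε : ℝ) (hε : 0 < ε) :
    ∃ c : ℝ, 0 < c ∧ ∃ H₀ : ℕ, ∀ H : ℕ, H₀ ≤ H → ∀ s : Fin n → Finset ℝ,
      (∀ t x, x ∈ s t ↔ x ∈ Alg (q t + 2) H) →
      (((Fintype.piFinset s).filter (fun x => ¬ ∀ (f : Fin r → Fin n → ℤ[X]) (m : ℕ) (b : Fin r → ℕ),
          (∀ j t, (f j t).natDegree ≤ q t + 1) → (∀ j t i, |((f j t).coeff i : ℝ)| ≤ (H : ℝ) ^ c) →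
          1 ≤ m → (m : ℝ) ≤ (H : ℝ) ^ c →
          (∀ l : Fin r → ℤ, l ≠ 0 → ∃ t i, 1 ≤ i ∧ ∑ j, l j * (f j t).coeff i ≠ 0) →
          (∀ j, 2 ≤ b j) → (∀ j, b j ≤ B) →
          NormalUpTo b w (A * log H) (ε * log H) (fun j => (∑ t, aeval (x t) (f j t)) / m))).card : ℝ) ≤
        (Fintype.piFinset s).card * (H : ℝ) ^ (-c) := by
  have hlog2 : 0 < log 2 := Real.log_pos (by norm_num)
  obtain ⟨κ, hκ⟩ : ∃ κ : ℝ, κ = ε / 4 * log 2 / (4 * (2 * r + 2)) := ⟨_, rfl⟩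
  have hκ0 : 0 < κ := by rw [hκ]; positivity
  have hκa : κ * (2 * r + 2) * 4 ≤ ε / 4 * log 2 := by
    rw [hκ]
    have : (0 : ℝ) < 4 * (2 * r + 2) := by positivity
    rw [div_mul_eq_mul_div, div_mul_eq_mul_div, div_le_iff₀ this]
    nlinarith
  have hmain : ∀ b : Fin r → ℕ, ∃ c : ℝ, 0 < c ∧ ∃ M₀ : ℕ, (∀ j, 2 ≤ b j) → ∀ M : ℕ, M₀ ≤ M →
      ∀ (I : Finset (Fin n → ℝ)) (x : (Fin n → ℝ) → Fin r → ℝ), unif I x ∈ SAlg n r q κ M →
      ((I.filter (fun m => ¬ NormalUpTo b w (A * log M) (ε * log M) (x m))).card : ℝ) ≤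
        I.card * (M : ℝ) ^ (-c) := by
    intro b
    by_cases hb : ∀ j, 2 ≤ b j
    · obtain ⟨c, hc, M0, h⟩ := count_normal1 (ι := Fin n → ℝ) hr hb (SAlg_prob n r q κ) w A ε hε
        (good_algF q hb (by positivity) hκ0 hκa)
      exact ⟨c, hc, M0, fun _ => h⟩
    · exact ⟨1, one_pos, 0, fun h => absurd h hb⟩
  choose cb hcb Mb hMb using hmain
  obtain ⟨Q, hQ⟩ : ∃ Q : ℕ, ∀ t, q t ≤ Q := ⟨univ.sup q, fun t => Finset.le_sup (mem_univ t)⟩
  obtain ⟨T, hT⟩ : ∃ T : Finset (Fin r → ℕ), T = Fintype.piFinset fun _ => Finset.Icc 2 B := ⟨_, rfl⟩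
  obtain ⟨c0, hc0, hc0le⟩ := exists_pos_le_fin T cb hcb
  obtain ⟨D, hD⟩ : ∃ D : ℕ, D = (Q + 2) * n * r := ⟨_, rfl⟩
  obtain ⟨c, hc⟩ : ∃ c : ℝ, c = min κ (c0 / (4 * (D + 2))) := ⟨_, rfl⟩
  have hD0 : (0 : ℝ) ≤ D := Nat.cast_nonneg D
  have hcp : 0 < c := by rw [hc]; exact lt_min hκ0 (by positivity)
  have hcκ : c ≤ κ := by rw [hc]; exact min_le_left _ _
  have hcc0 : c * (4 * (D + 2)) ≤ c0 := by
    have h1 : c ≤ c0 / (4 * (D + 2)) := by rw [hc]; exact min_le_right _ _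
    have h2 : (0 : ℝ) < 4 * (D + 2) := by positivity
    rwa [le_div_iff₀ h2] at h1
  obtain ⟨H1, hH1⟩ := eventually_atTop.1 (ev_le ((3 : ℝ) ^ D * T.card) (c0 / 2) (by positivity))
  refine ⟨c, hcp, max (max (T.sup Mb) 1) H1, fun H hH s hs => ?_⟩
  have hHa : T.sup Mb ≤ H := le_of_max_le_left (le_of_max_le_left hH)
  have hHb : 1 ≤ H := le_of_max_le_right (le_of_max_le_left hH)
  have hHc : H1 ≤ H := le_of_max_le_right hH
  have hHR : (1 : ℝ) ≤ H := by exact_mod_cast hHb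
  have hHp : (0 : ℝ) < H := by linarith
  have hCH := hH1 H hHc
  rcases (Fintype.piFinset s).eq_empty_or_nonempty with hs0 | hsne'
  · rw [hs0]
    simp
  have hsne : ∀ t, (s t).Nonempty := Fintype.piFinset_nonempty.1 hsne'
  obtain ⟨Z, hZ⟩ : ∃ Z : ℕ, Z = ⌊(H : ℝ) ^ c⌋₊ := ⟨_, rfl⟩
  have hZle : (Z : ℝ) ≤ (H : ℝ) ^ c := by rw [hZ]; exact Nat.floor_le (by positivity)
  have hHc1 : (1 : ℝ) ≤ (H : ℝ) ^ c := Real.one_le_rpow hHR hcp.le
  -- the parameters
  obtain ⟨Fp, hFp⟩ : ∃ Fp : Finset (Fin r → Fin n → Fin (Q + 2) → ℤ), Fp = Fintype.piFinset fun _ =>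
    Fintype.piFinset fun _ => Fintype.piFinset fun _ => Finset.Icc (-(Z : ℤ)) Z := ⟨_, rfl⟩
  obtain ⟨dec, hdec⟩ : ∃ dec : (Fin r → Fin n → Fin (Q + 2) → ℤ) → Fin r → Fin n → ℤ[X],
    dec = fun u j t => ∑ i : Fin (Q + 2), monomial i.1 (u j t i) := ⟨_, rfl⟩
  obtain ⟨Cond, hCond⟩ : ∃ Cond : ((Fin r → Fin n → Fin (Q + 2) → ℤ) × ℕ × (Fin r → ℕ)) → Prop,
    Cond = fun p => (∀ j t, (dec p.1 j t).natDegree ≤ q t + 1) ∧
      (∀ j t i, |((dec p.1 j t).coeff i : ℝ)| ≤ (H : ℝ) ^ c) ∧ 1 ≤ p.2.1 ∧ (p.2.1 : ℝ) ≤ (H : ℝ) ^ c ∧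
      (∀ l : Fin r → ℤ, l ≠ 0 → ∃ t i, 1 ≤ i ∧ ∑ j, l j * (dec p.1 j t).coeff i ≠ 0) := ⟨_, rfl⟩
  have hbad : ∀ p ∈ Fp ×ˢ (Finset.Icc 1 Z ×ˢ T), (((Fintype.piFinset s).filter (fun x => Cond p ∧
      ¬ NormalUpTo p.2.2 w (A * log H) (ε * log H)
        (fun j => (∑ t, aeval (x t) (dec p.1 j t)) / p.2.1))).card : ℝ) ≤
      (Fintype.piFinset s).card * (H : ℝ) ^ (-c0) := by
    intro p hp
    rw [mem_product, mem_product] at hp
    by_cases hC : Cond p
    · have hC' := hC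
      rw [hCond] at hC'
      obtain ⟨h1, h2, h3, h4, h5⟩ := hC'
      have hmono : (H : ℝ) ^ c ≤ (H : ℝ) ^ κ := Real.rpow_le_rpow_of_exponent_le hHR hcκ
      have hb2 : ∀ j, 2 ≤ p.2.2 j := by
        intro j
        have h6 := hp.2.2
        rw [hT, Fintype.mem_piFinset] at h6
        exact (Finset.mem_Icc.1 (h6 j)).1
      have hMle : Mb p.2.2 ≤ H := (Finset.le_sup hp.2.2).trans hHa
      have h7 := hMb p.2.2 hb2 H hMle (Fintype.piFinset s)
        (fun x j => (∑ t, aeval (x t) (dec p.1 j t)) / p.2.1)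
        ⟨s, dec p.1, p.2.1, hs, hsne, h1, fun j t i => (h2 j t i).trans hmono, h3, h4.trans hmono, h5,
          rfl⟩
      have h8 : (H : ℝ) ^ (-(cb p.2.2)) ≤ (H : ℝ) ^ (-c0) :=
        Real.rpow_le_rpow_of_exponent_le hHR (by linarith [hc0le _ hp.2.2])
      refine le_trans ?_ (h7.trans (by gcongr))
      rw [Nat.cast_le]
      refine card_le_card fun x hx => ?_
      rw [mem_filter] at hx ⊢
      exact ⟨hx.1, hx.2.2⟩
    · rw [Finset.filter_false_of_mem (fun x _ h => hC h.1)]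
      simp only [card_empty, Nat.cast_zero]
      positivity
  have hsub : (Fintype.piFinset s).filter (fun x => ¬ ∀ (f : Fin r → Fin n → ℤ[X]) (m : ℕ)
          (b : Fin r → ℕ),
          (∀ j t, (f j t).natDegree ≤ q t + 1) → (∀ j t i, |((f j t).coeff i : ℝ)| ≤ (H : ℝ) ^ c) →
          1 ≤ m → (m : ℝ) ≤ (H : ℝ) ^ c →
          (∀ l : Fin r → ℤ, l ≠ 0 → ∃ t i, 1 ≤ i ∧ ∑ j, l j * (f j t).coeff i ≠ 0) →
          (∀ j, 2 ≤ b j) → (∀ j, b j ≤ B) →
          NormalUpTo b w (A * log H) (ε * log H) (fun j => (∑ t, aeval (x t) (f j t)) / m)) ⊆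
      (Fp ×ˢ (Finset.Icc 1 Z ×ˢ T)).biUnion (fun p => (Fintype.piFinset s).filter (fun x => Cond p ∧
        ¬ NormalUpTo p.2.2 w (A * log H) (ε * log H)
          (fun j => (∑ t, aeval (x t) (dec p.1 j t)) / p.2.1))) := by
    intro x hx
    rw [mem_filter] at hx
    obtain ⟨hxs, hx2⟩ := hx
    push Not at hx2
    obtain ⟨f, m, b, h1, h2, h3, h4, h5, h6, h7, h8⟩ := hx2
    obtain ⟨u, hu⟩ : ∃ u : Fin r → Fin n → Fin (Q + 2) → ℤ, u = fun j t i => (f j t).coeff i.1 :=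
      ⟨_, rfl⟩
    have hdu : dec u = f := by
      rw [hdec, hu]
      funext j t
      have h9 := h1 j t
      have h10 := hQ t
      exact (poly_of_coeff (Q + 1) (f j t) (by omega)).symm
    rw [mem_biUnion]
    refine ⟨(u, m, b), ?_, ?_⟩
    · rw [mem_product, mem_product]
      refine ⟨?_, ?_, ?_⟩
      · rw [hFp, Fintype.mem_piFinset]
        intro j
        rw [Fintype.mem_piFinset]
        intro t
        rw [Fintype.mem_piFinset]
        intro i
        rw [Finset.mem_Icc, ← abs_le, hu]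
        have h9 : (((f j t).coeff i.1).natAbs : ℝ) ≤ (H : ℝ) ^ c := by
          have := h2 j t i.1
          rw [Nat.cast_natAbs]
          exact_mod_cast this
        have h10 : ((f j t).coeff i.1).natAbs ≤ Z := by
          rw [hZ]
          exact Nat.le_floor h9
        rw [Int.abs_eq_natAbs]
        exact_mod_cast h10
      · rw [Finset.mem_Icc, hZ]
        exact ⟨h3, Nat.le_floor h4⟩
      · rw [hT, Fintype.mem_piFinset]
        intro j
        rw [Finset.mem_Icc]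
        exact ⟨h6 j, h7 j⟩
    · rw [mem_filter]
      refine ⟨hxs, ?_, ?_⟩
      · rw [hCond]
        simp only [hdu]
        exact ⟨h1, h2, h3, h4, h5⟩
      · simp only [hdu]
        exact h8
  have hcardF : (Fp.card : ℝ) ≤ (3 * (H : ℝ) ^ c) ^ D := by
    have h1 : Fp.card = (2 * Z + 1) ^ D := by
      rw [hFp, hD, Fintype.card_piFinset]
      simp only [Fintype.card_piFinset, Int.card_Icc, Finset.prod_const, card_univ, Fintype.card_fin]
      rw [← pow_mul, ← pow_mul]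
      congr 1
      · omega
      · ring
    rw [h1]
    push_cast
    gcongr
    linarith
  calc (((Fintype.piFinset s).filter _).card : ℝ) ≤ (((Fp ×ˢ (Finset.Icc 1 Z ×ˢ T)).biUnion (fun p =>
        (Fintype.piFinset s).filter (fun x =>
        Cond p ∧ ¬ NormalUpTo p.2.2 w (A * log H) (ε * log H)
          (fun j => (∑ t, aeval (x t) (dec p.1 j t)) / p.2.1)))).card : ℝ) := by
        exact_mod_cast card_le_card hsub
    _ ≤ ∑ p ∈ Fp ×ˢ (Finset.Icc 1 Z ×ˢ T), (((Fintype.piFinset s).filter (fun x => Cond p ∧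
        ¬ NormalUpTo p.2.2 w (A * log H) (ε * log H)
          (fun j => (∑ t, aeval (x t) (dec p.1 j t)) / p.2.1))).card : ℝ) := by
        exact_mod_cast card_biUnion_le
    _ ≤ ∑ _p ∈ Fp ×ˢ (Finset.Icc 1 Z ×ˢ T), (Fintype.piFinset s).card * (H : ℝ) ^ (-c0) :=
        sum_le_sum hbad
    _ = (Fp.card * (Z * T.card)) * ((Fintype.piFinset s).card * (H : ℝ) ^ (-c0)) := by
        rw [sum_const, card_product, card_product, Nat.card_Icc, nsmul_eq_mul]
        push_cast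
        simp
    _ ≤ ((3 * (H : ℝ) ^ c) ^ D * ((H : ℝ) ^ c * T.card)) *
          ((Fintype.piFinset s).card * (H : ℝ) ^ (-c0)) := by gcongr
    _ = (Fintype.piFinset s).card * ((3 ^ D * T.card) *
          ((H : ℝ) ^ (c * (D + 1)) * (H : ℝ) ^ (-c0))) := by
        have e1 : ((H : ℝ) ^ c) ^ D = (H : ℝ) ^ (c * D) := by
          rw [← Real.rpow_natCast, ← Real.rpow_mul hHp.le]
        have e2 : (H : ℝ) ^ (c * (D + 1)) = (H : ℝ) ^ (c * D) * (H : ℝ) ^ c := by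
          rw [← Real.rpow_add hHp]
          congr 1
          ring
        rw [mul_pow, e1, e2]
        ring
    _ ≤ (Fintype.piFinset s).card * ((H : ℝ) ^ (c0 / 2) *
          ((H : ℝ) ^ (c * (D + 1)) * (H : ℝ) ^ (-c0))) := by gcongr
    _ = (Fintype.piFinset s).card * (H : ℝ) ^ (c0 / 2 + (c * (D + 1) + -c0)) := by
        rw [← Real.rpow_add hHp, ← Real.rpow_add hHp]
    _ ≤ (Fintype.piFinset s).card * (H : ℝ) ^ (-c) := by
        gcongr
        nlinarith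

end Pool.Agent.K7.H79.ND
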