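import Mathlib
import Pool.Agent.H373R2.NB.Weyl
import Pool.Agent.Y933.KD.Fej

/-!
# Weyl sums of polynomials whose high coefficients are rational (helper79)
-/

set_option autoImplicit false

namespace Pool.Agent.K7.H79.ND

open Finset Polynomial
open Pool.Agent.H373R2.NB (Ph IW IW_all)
open Pool.Agent.Y933.KD (e e_add norm_e)

lemma e_eq_ee (x : ℝ) : e x = Pool.Agent.Helper602.MK.ee x := by
  unfold Pool.Agent.Y933.KD.e Pool.Agent.Helper602.MK.ee
  congr 1
  push_cast
  ring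

lemma Ph_real (d : ℕ) : ∀ f : ℝ[X], f.natDegree ≤ d →
    Ph d ((d.factorial : ℝ) * f.coeff d) (fun n => f.eval (n : ℝ)) := by
  induction d with
  | zero =>
    intro f hf n
    have h1 : f = C (f.coeff 0) := eq_C_of_natDegree_le_zero hf
    have h2 : f.eval (n : ℝ) = f.coeff 0 := by
      conv_lhs => rw [h1]
      rw [eval_C]
    show f.eval (n : ℝ) = _
    rw [h2]; simp
  | succ d ih =>
    intro f hf h
    set g : ℝ[X] := taylor (h : ℝ) f - f with hg
    have hcoef : ∀ j, d ≤ j → (taylor (h : ℝ) f).coeff j =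
        f.coeff j + (if j = d then ((d : ℝ) + 1) * f.coeff (d + 1) * h else 0) := by
      intro j hj
      rw [taylor_coeff]
      have h1 : (hasseDeriv j f).natDegree < 2 := by
        have := natDegree_hasseDeriv_le f j
        omega
      rw [eval_eq_sum_range' h1, sum_range_succ, sum_range_succ, sum_range_zero, hasseDeriv_coeff,
        hasseDeriv_coeff]
      rcases eq_or_ne j d with h2 | h2
      · subst h2
        rw [if_pos rfl, zero_add, zero_add, Nat.choose_self, add_comm 1 j, Nat.choose_succ_self_right]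
        push_cast
        ring
      · rw [if_neg h2]
        have h3 : f.coeff (1 + j) = 0 := coeff_eq_zero_of_natDegree_lt (by omega)
        rw [h3, zero_add, zero_add, Nat.choose_self]
        push_cast
        ring
    have hgd : g.natDegree ≤ d := by
      rw [natDegree_le_iff_coeff_eq_zero]
      intro j hj
      rw [hg, coeff_sub, hcoef j (by omega), if_neg (by omega)]
      ring
    have hgc : g.coeff d = ((d : ℝ) + 1) * f.coeff (d + 1) * h := by
      rw [hg, coeff_sub, hcoef d le_rfl, if_pos rfl]; ring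
    have h1 := ih g hgd
    have h2 : (fun n : ℕ => g.eval (n : ℝ)) = fun n : ℕ =>
        f.eval ((n + h : ℕ) : ℝ) - f.eval (n : ℝ) := by
      funext n
      rw [hg, eval_sub, taylor_eval]
      push_cast
      ring
    have h3 : (d.factorial : ℝ) * g.coeff d = (h : ℝ) * (((d + 1).factorial : ℝ) * f.coeff (d + 1)) := by
      rw [hgc, Nat.factorial_succ]; push_cast; ring
    rw [h2, h3] at h1
    exact h1

/-- the number of the terms of `range M` in the residue class of `a` modulo `Q` -/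
def cntR (M Q a : ℕ) : ℕ := (M + Q - 1 - a) / Q

lemma lt_cntR {M Q a n : ℕ} (hQ : 1 ≤ Q) (ha : a < Q) : n < cntR M Q a ↔ Q * n + a < M := by
  unfold cntR
  rw [Nat.lt_div_iff_mul_lt (by omega)]
  have : n * Q = Q * n := Nat.mul_comm _ _
  constructor
  · intro h; omega
  · intro h; omega

lemma residue_sum {M Q : ℕ} (hQ : 1 ≤ Q) (g : ℕ → ℂ) :
    ∑ n ∈ range M, g n = ∑ a ∈ range Q, ∑ n ∈ range (cntR M Q a), g (Q * n + a) := by
  rw [← Finset.sum_fiberwise_of_maps_to (g := fun n => n % Q) (t := range Q)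
    (fun n _ => mem_range.2 (Nat.mod_lt _ (by omega)))]
  refine sum_congr rfl fun a ha => ?_
  rw [mem_range] at ha
  refine sum_nbij' (fun n => n / Q) (fun n => Q * n + a) ?_ ?_ ?_ ?_ ?_
  · intro n hn
    rw [mem_filter, mem_range] at hn
    rw [mem_range, lt_cntR hQ ha]
    have := Nat.div_add_mod n Q
    rw [hn.2] at this
    omega
  · intro n hn
    rw [mem_range, lt_cntR hQ ha] at hn
    rw [mem_filter, mem_range]
    refine ⟨hn, ?_⟩
    rw [Nat.mul_add_mod, Nat.mod_eq_of_lt ha]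
  · intro n hn
    rw [mem_filter, mem_range] at hn
    have := Nat.div_add_mod n Q
    rw [hn.2] at this
    exact this
  · intro n _
    rw [Nat.mul_add_div (by omega), Nat.div_eq_of_lt ha, add_zero]
  · intro n hn
    rw [mem_filter, mem_range] at hn
    have := Nat.div_add_mod n Q
    rw [hn.2] at this
    rw [this]

lemma cntR_le {M Q a : ℕ} (hQ : 1 ≤ Q) (ha : a < Q) : cntR M Q a ≤ M := by
  by_contra h
  push Not at h
  have h1 := (lt_cntR (M := M) hQ ha).1 h
  have : M ≤ Q * M := Nat.le_mul_of_pos_left _ hQ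
  omega

lemma e_int (x : ℝ) (z : ℤ) : e (x + z) = e x := by
  rw [e_add]
  have : e (z : ℝ) = 1 := by
    unfold Pool.Agent.Y933.KD.e
    rw [Complex.exp_eq_one_iff]
    exact ⟨z, by push_cast; ring⟩
  rw [this, mul_one]

/-- the polynomial on a residue class -/
noncomputable def cls (K Q b : ℕ) (f : ℝ[X]) : ℝ[X] :=
  (∑ i ∈ range (K + 1), C (f.coeff i) * (C (Q : ℝ) * X + C (b : ℝ)) ^ i) +
    C (∑ i ∈ Ico (K + 1) (f.natDegree + 1), f.coeff i * (b : ℝ) ^ i)

lemma natDegree_lin_pow (Q b : ℝ) (i : ℕ) : ((C Q * X + C b) ^ i).natDegree ≤ i := by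
  refine natDegree_pow_le.trans ?_
  have : (C Q * X + C b).natDegree ≤ 1 := natDegree_linear_le
  calc i * (C Q * X + C b).natDegree ≤ i * 1 := Nat.mul_le_mul_left _ this
    _ = i := mul_one i

lemma cls_natDegree (K Q b : ℕ) (f : ℝ[X]) : (cls K Q b f).natDegree ≤ K := by
  unfold cls
  refine (natDegree_add_le _ _).trans (max_le ?_ (by rw [natDegree_C]; omega))
  refine natDegree_sum_le_of_forall_le _ _ fun i hi => ?_
  rw [mem_range] at hi
  refine (natDegree_C_mul_le _ _).trans ((natDegree_lin_pow _ _ i).trans (by omega))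

lemma coeff_lin_pow (Q b : ℝ) (i : ℕ) : ((C Q * X + C b) ^ i).coeff i = Q ^ i := by
  have h := coeff_pow_of_natDegree_le (p := C Q * X + C b) (m := i) (n := 1) natDegree_linear_le
  rw [Nat.mul_one] at h
  rw [h]
  simp

lemma cls_coeff {K : ℕ} (hK : 1 ≤ K) (Q b : ℕ) (f : ℝ[X]) :
    (cls K Q b f).coeff K = f.coeff K * (Q : ℝ) ^ K := by
  unfold cls
  rw [coeff_add, coeff_C, if_neg (by omega), add_zero, finsetSum_coeff, sum_range_succ,
    sum_eq_zero, zero_add, coeff_C_mul, coeff_lin_pow]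
  intro i hi
  rw [mem_range] at hi
  rw [coeff_C_mul, coeff_eq_zero_of_natDegree_lt ((natDegree_lin_pow _ _ i).trans_lt hi), mul_zero]

lemma cls_eval {K Q : ℕ} (b : ℕ) (f : ℝ[X]) (hf : ∀ i, K < i → ∃ z : ℤ, (Q : ℝ) * f.coeff i = z)
    (n : ℕ) : e (f.eval (((Q * n + b : ℕ)) : ℝ)) = e ((cls K Q b f).eval (n : ℝ)) := by
  choose z hz using hf
  -- the difference is an integer
  have key : ∃ w : ℤ, f.eval (((Q * n + b : ℕ)) : ℝ) = (cls K Q b f).eval (n : ℝ) + w := by
    have hdiv : ∀ i : ℕ, ∃ v : ℤ, (((Q * n + b : ℕ)) : ℝ) ^ i = (b : ℝ) ^ i + Q * v := by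
      intro i
      have h1 : ((Q : ℤ) * n + b) - b ∣ ((Q : ℤ) * n + b) ^ i - (b : ℤ) ^ i := sub_dvd_pow_sub_pow _ _ i
      rw [add_sub_cancel_right] at h1
      obtain ⟨v, hv⟩ := (Dvd.intro _ rfl : (Q : ℤ) ∣ (Q : ℤ) * n).trans h1
      refine ⟨v, ?_⟩
      have h2 : ((((Q : ℤ) * n + b) ^ i : ℤ) : ℝ) = ((b : ℤ) ^ i + Q * v : ℤ) := by
        rw [← hv]; congr 1; ring
      push_cast at h2 ⊢
      exact h2
    choose v hv using hdiv
    refine ⟨∑ i ∈ Ico (K + 1) (f.natDegree + 1), (if h : K < i then z i h * v i else 0), ?_⟩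
    unfold cls
    rw [eval_add, eval_C, eval_finsetSum]
    simp only [eval_mul, eval_C, eval_pow, eval_add, eval_X]
    rw [eval_eq_sum_range]
    push_cast
    rw [add_assoc, ← sum_add_distrib]
    have h1 : ∀ i ∈ Ico (K + 1) (f.natDegree + 1), f.coeff i * (b : ℝ) ^ i +
        (((if h : K < i then z i h * v i else 0 : ℤ)) : ℝ) = f.coeff i * ((Q : ℝ) * n + b) ^ i := by
      intro i hi
      rw [mem_Ico] at hi
      rw [dif_pos (by omega : K < i)]
      have h2 := hv i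
      push_cast at h2
      rw [h2]
      push_cast
      rw [← hz i (by omega)]
      ring
    rw [sum_congr rfl h1]
    rcases le_total (K + 1) (f.natDegree + 1) with h2 | h2
    · rw [range_eq_Ico, range_eq_Ico, sum_Ico_consecutive _ (by omega) h2]
    · rw [Ico_eq_empty_of_le h2, sum_empty, add_zero]
      refine sum_subset (range_subset_range.2 h2) fun i _ hi => ?_
      rw [mem_range, not_lt] at hi
      rw [coeff_eq_zero_of_natDegree_lt (by omega), zero_mul]
  obtain ⟨w, hw⟩ := key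
  rw [hw, e_int]

/-- **inverse theorem**: a Weyl sum is small unless its last irrational coefficient has a good
rational approximation -/
theorem sum_poly (K : ℕ) (hK : 1 ≤ K) (Q : ℕ) (hQ : 1 ≤ Q) : ∃ c m : ℕ, 1 ≤ c ∧
    ∀ (M : ℕ) (u : ℝ) (f : ℝ[X]), 1 ≤ M → 1 ≤ u →
      (∀ i, K < i → ∃ z : ℤ, (Q : ℝ) * f.coeff i = z) →
      (M : ℝ) ≤ u * ‖∑ n ∈ Icc 1 M, e (f.eval (n : ℝ))‖ →
      ∃ q : ℕ, 1 ≤ q ∧ (q : ℝ) ≤ c * u ^ m ∧ ∃ a : ℤ, |q * f.coeff K - a| ≤ c * u ^ m / (M : ℝ) ^ K := by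
  obtain ⟨c, m, hc, hI⟩ := IW_all K hK
  refine ⟨c * (K.factorial * Q ^ K) * Q ^ (m + K), m + K, ?_, ?_⟩
  · have h1 : 0 < c * (K.factorial * Q ^ K) * Q ^ (m + K) := by
      have := Nat.factorial_pos K
      positivity
    exact h1
  intro M u f hM hu hf hS
  have hMR : (1 : ℝ) ≤ M := by exact_mod_cast hM
  have hQR : (1 : ℝ) ≤ Q := by exact_mod_cast hQ
  have hcR : (1 : ℝ) ≤ c := by exact_mod_cast hc
  have h1 : ∑ n ∈ Icc 1 M, e (f.eval (n : ℝ)) = ∑ n ∈ range M, e (f.eval ((n + 1 : ℕ) : ℝ)) := by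
    rw [range_eq_Ico, sum_Ico_add' (fun n : ℕ => e (f.eval (n : ℝ))) 0 M 1]
    congr 1
  rw [h1, residue_sum hQ] at hS
  -- the largest class
  obtain ⟨a, ha, hbig⟩ : ∃ a ∈ range Q, (M : ℝ) ≤ u * Q *
      ‖∑ n ∈ range (cntR M Q a), e (f.eval ((Q * n + a + 1 : ℕ) : ℝ))‖ := by
    by_contra hcon
    push Not at hcon
    have h2 : u * Q * ‖∑ a ∈ range Q, ∑ n ∈ range (cntR M Q a),
        e (f.eval ((Q * n + a + 1 : ℕ) : ℝ))‖ < Q * (M : ℝ) := by
      calc _ ≤ u * Q * ∑ a ∈ range Q, ‖∑ n ∈ range (cntR M Q a),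
            e (f.eval ((Q * n + a + 1 : ℕ) : ℝ))‖ := by
            gcongr
            exact norm_sum_le _ _
        _ = ∑ a ∈ range Q, u * Q * ‖∑ n ∈ range (cntR M Q a),
            e (f.eval ((Q * n + a + 1 : ℕ) : ℝ))‖ := by rw [mul_sum]
        _ < ∑ _a ∈ range Q, (M : ℝ) := by
            refine sum_lt_sum_of_nonempty ⟨0, mem_range.2 (by omega)⟩ fun a ha => hcon a ha
        _ = Q * (M : ℝ) := by rw [sum_const, card_range, nsmul_eq_mul]
    have h3 : (Q : ℝ) * M ≤ u * Q * ‖∑ a ∈ range Q, ∑ n ∈ range (cntR M Q a),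
        e (f.eval ((Q * n + a + 1 : ℕ) : ℝ))‖ := by
      calc (Q : ℝ) * M ≤ Q * (u * ‖∑ a ∈ range Q, ∑ n ∈ range (cntR M Q a),
            e (f.eval ((Q * n + a + 1 : ℕ) : ℝ))‖) := by gcongr
        _ = _ := by ring
    linarith
  rw [mem_range] at ha
  set N := cntR M Q a with hN
  have hsum : ∑ n ∈ range N, e (f.eval ((Q * n + a + 1 : ℕ) : ℝ)) =
      ∑ n ∈ range N, Pool.Agent.Helper602.MK.ee ((cls K Q (a + 1) f).eval (n : ℝ)) := by
    refine sum_congr rfl fun n _ => ?_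
    rw [← e_eq_ee, ← cls_eval (a + 1) f hf n]
    rfl
  rw [hsum] at hbig
  have hnormle : ‖∑ n ∈ range N, Pool.Agent.Helper602.MK.ee ((cls K Q (a + 1) f).eval (n : ℝ))‖ ≤ N := by
    refine (norm_sum_le _ _).trans ?_
    simp [← e_eq_ee, norm_e]
  have hNpos : 1 ≤ N := by
    by_contra h
    have h0 : N = 0 := by omega
    rw [h0] at hnormle
    have h2 : ‖∑ n ∈ range N, Pool.Agent.Helper602.MK.ee ((cls K Q (a + 1) f).eval (n : ℝ))‖ = 0 := by
      rw [h0]; simp
    rw [h2] at hbig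
    linarith
  have hNM : (N : ℝ) ≤ M := by exact_mod_cast cntR_le hQ ha
  have hu' : 1 ≤ u * Q := one_le_mul_of_one_le_of_one_le hu hQR
  obtain ⟨q, hq1, hq2, z, hz⟩ := hI N (u * Q) _ _ hNpos hu' (Ph_real K _ (cls_natDegree K Q (a + 1) f))
    (hNM.trans hbig)
  rw [cls_coeff hK] at hz
  have hNlow : (M : ℝ) / (u * Q) ≤ N := by
    rw [div_le_iff₀ (by linarith)]
    calc (M : ℝ) ≤ u * Q * N := hbig.trans (by gcongr)
      _ = N * (u * Q) := by ring
  have hNR : (0 : ℝ) < N := by exact_mod_cast hNpos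
  have hfac : (1 : ℝ) ≤ (K.factorial : ℝ) * Q ^ K := by
    exact_mod_cast Nat.mul_pos (Nat.factorial_pos K) (pow_pos (by omega) K)
  refine ⟨q * (K.factorial * Q ^ K), ?_, ?_, z, ?_⟩
  · exact Nat.mul_pos hq1 (Nat.mul_pos (Nat.factorial_pos K) (pow_pos (by omega) K))
  · push_cast
    calc (q : ℝ) * (K.factorial * Q ^ K) ≤ (c * (u * Q) ^ m) * (K.factorial * Q ^ K) := by gcongr
      _ = c * (K.factorial * Q ^ K) * Q ^ m * u ^ m := by ring
      _ ≤ c * (K.factorial * Q ^ K) * Q ^ (m + K) * u ^ (m + K) := by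
          have h2 : (Q : ℝ) ^ m ≤ Q ^ (m + K) := pow_le_pow_right₀ hQR (by omega)
          have h3 : u ^ m ≤ u ^ (m + K) := pow_le_pow_right₀ hu (by omega)
          gcongr
  · have e1 : ((q * (K.factorial * Q ^ K) : ℕ) : ℝ) * f.coeff K =
        q * ((K.factorial : ℝ) * (f.coeff K * (Q : ℝ) ^ K)) := by
      push_cast
      ring
    rw [e1]
    refine hz.trans ?_
    rw [div_le_div_iff₀ (by positivity) (by positivity)]
    push_cast
    have h2 : (M : ℝ) ^ K ≤ (u * Q) ^ K * (N : ℝ) ^ K := by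
      rw [← mul_pow]
      refine pow_le_pow_left₀ (by linarith) ?_ K
      rw [div_le_iff₀ (by linarith)] at hNlow
      linarith
    calc (c : ℝ) * (u * Q) ^ m * (M : ℝ) ^ K ≤ c * (u * Q) ^ m * ((u * Q) ^ K * (N : ℝ) ^ K) := by
          gcongr
      _ = c * 1 * Q ^ (m + K) * u ^ (m + K) * (N : ℝ) ^ K := by ring
      _ ≤ c * (K.factorial * Q ^ K) * Q ^ (m + K) * u ^ (m + K) * (N : ℝ) ^ K := by gcongr

end Pool.Agent.K7.H79.ND
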