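import Pool.Agent.K7.H79.ND.Abs
import Pool.Agent.K7.H79.ND.WeylP

/-!
# The values of polynomials with algebraic coefficients (helper79)
-/

set_option autoImplicit false

namespace Pool.Agent.K7.H79.ND

open Finset Real MeasureTheory Filter Topology Polynomial
open Pool.Agent.Y933.KD (e e_zero e_add norm_e e_sum box card_box)
open Pool.Agent.TH419.WI (Smooth)
open Pool.Agent.Y951.TU

variable {r d : ℕ}

/-- in each variable separately a real polynomial of degree less than `D` -/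
def LowDeg (D : ℕ) (R : (Fin d → ℕ) → ℝ) : Prop :=
  ∀ (t : Fin d) (m : Fin d → ℕ), ∃ p : ℝ[X], p.natDegree < D ∧
    ∀ n : ℕ, R (Function.update m t n) = p.eval (n : ℝ)

/-- the vectors of the values -/
noncomputable def pv (A : Fin r → Fin d → ℝ[X]) (R : Fin r → (Fin d → ℕ) → ℝ) (m : Fin d → ℕ) :
    Fin r → ℝ := fun j => ∑ t, (A j t).eval (m t : ℝ) + R j m

/-- the laws of the values -/
def SP (A : Fin r → Fin d → ℝ[X]) (D : ℕ) (M : ℕ) : Set (Measure (Fin r → ℝ)) :=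
  {P | ∃ R : Fin r → (Fin d → ℕ) → ℝ, (∀ j, LowDeg D (R j)) ∧ P = unif (box d M) (pv A R)}

lemma SP_prob (A : Fin r → Fin d → ℝ[X]) (D : ℕ) (M : ℕ) (hM : 1 ≤ M) (P : Measure (Fin r → ℝ))
    (hP : P ∈ SP A D M) : IsProbabilityMeasure P := by
  obtain ⟨R, _, rfl⟩ := hP
  refine unif_prob ?_ _
  rw [← Finset.card_pos, card_box]
  positivity

lemma box_avg {M : ℕ} (t0 : Fin d) (F : (Fin d → ℕ) → ℂ) :
    (M : ℂ) * ∑ m ∈ box d M, F m = ∑ m ∈ box d M, ∑ n ∈ Finset.Icc 1 M, F (Function.update m t0 n) := by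
  classical
  have h1 : ∑ m ∈ box d M, ∑ n ∈ Finset.Icc 1 M, F (Function.update m t0 n) =
      ∑ p ∈ box d M ×ˢ Finset.Icc 1 M, F (Function.update p.1 t0 p.2) := by
    rw [sum_product]
  have h2 : (M : ℂ) * ∑ m ∈ box d M, F m = ∑ p ∈ box d M ×ˢ Finset.Icc 1 M, F p.1 := by
    rw [sum_product, mul_sum]
    refine sum_congr rfl fun m _ => ?_
    simp only [sum_const, Nat.card_Icc, nsmul_eq_mul, Nat.add_sub_cancel]
  rw [h1, h2]
  have hmem : ∀ m : Fin d → ℕ, m ∈ box d M ↔ ∀ t, m t ∈ Finset.Icc 1 M := by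
    intro m
    unfold Pool.Agent.Y933.KD.box
    rw [Fintype.mem_piFinset]
  symm
  refine sum_nbij' (fun p => (Function.update p.1 t0 p.2, p.1 t0))
    (fun p => (Function.update p.1 t0 p.2, p.1 t0)) ?_ ?_ ?_ ?_ ?_
  · intro p hp
    rw [mem_product, hmem] at hp ⊢
    refine ⟨fun t => ?_, hp.1 t0⟩
    rcases eq_or_ne t t0 with h | h
    · rw [h]
      simp only [Function.update_self]
      exact hp.2
    · simp only [Function.update_of_ne h]
      exact hp.1 t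
  · intro p hp
    rw [mem_product, hmem] at hp ⊢
    refine ⟨fun t => ?_, hp.1 t0⟩
    rcases eq_or_ne t t0 with h | h
    · rw [h]
      simp only [Function.update_self]
      exact hp.2
    · simp only [Function.update_of_ne h]
      exact hp.1 t
  · intro p _
    simp
  · intro p _
    simp
  · intro p _
    rfl

lemma box_le {M : ℕ} (_hM : 1 ≤ M) (t0 : Fin d) (F : (Fin d → ℕ) → ℂ) {B : ℝ}
    (h : ∀ m, ‖∑ n ∈ Finset.Icc 1 M, F (Function.update m t0 n)‖ ≤ B) :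
    (M : ℝ) * ‖∑ m ∈ box d M, F m‖ ≤ (M : ℝ) ^ d * B := by
  have h1 : (M : ℝ) * ‖∑ m ∈ box d M, F m‖ = ‖(M : ℂ) * ∑ m ∈ box d M, F m‖ := by
    rw [norm_mul]
    simp
  rw [h1, box_avg t0 F]
  calc _ ≤ ∑ m ∈ box d M, ‖∑ n ∈ Finset.Icc 1 M, F (Function.update m t0 n)‖ := norm_sum_le _ _
    _ ≤ ∑ _m ∈ box d M, B := sum_le_sum fun m _ => h m
    _ = (M : ℝ) ^ d * B := by rw [sum_const, card_box, nsmul_eq_mul]; push_cast; rfl

/-- the rational values of an integral linear form have a common denominator -/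
lemma exists_den (α : Fin r → ℝ) : ∃ Q : ℕ, 1 ≤ Q ∧ ∀ l : Fin r → ℤ,
    ¬ Irrational (∑ j, (l j : ℝ) * α j) → ∃ z : ℤ, (Q : ℝ) * ∑ j, (l j : ℝ) * α j = z := by
  classical
  let f : (Fin r → ℤ) →ₗ[ℤ] ℝ :=
    { toFun := fun l => ∑ j, (l j : ℝ) * α j
      map_add' := fun l l' => by
        rw [← sum_add_distrib]
        refine sum_congr rfl fun j _ => ?_
        rw [Pi.add_apply]
        push_cast
        ring
      map_smul' := fun c l => by
        simp only [RingHom.id_apply, Pi.smul_apply, smul_eq_mul, zsmul_eq_mul]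
        rw [mul_sum]
        refine sum_congr rfl fun j _ => ?_
        push_cast
        ring }
  let g : ℚ →ₗ[ℤ] ℝ :=
    { toFun := fun q => (q : ℝ)
      map_add' := fun a b => by push_cast; ring
      map_smul' := fun c q => by simp }
  let L : Submodule ℤ (Fin r → ℤ) := (LinearMap.range g).comap f
  have hfg : L.FG := IsNoetherian.noetherian L
  obtain ⟨s, hs⟩ := hfg
  have hsL : ∀ l ∈ s, ∃ q : ℚ, (q : ℝ) = ∑ j, (l j : ℝ) * α j := by
    intro l hl
    have h1 : l ∈ L := by rw [← hs]; exact Submodule.subset_span hl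
    obtain ⟨q, hq⟩ := h1
    exact ⟨q, hq⟩
  choose! qf hqf using hsL
  refine ⟨∏ l ∈ s, (qf l).den, ?_, ?_⟩
  · exact Finset.prod_pos fun l _ => (qf l).den_pos
  · intro l hl
    have hlL : l ∈ L := by
      rw [Irrational, not_not] at hl
      obtain ⟨q, hq⟩ := hl
      exact ⟨q, hq⟩
    rw [← hs] at hlL
    have hspan : ∀ x ∈ Submodule.span ℤ (s : Set (Fin r → ℤ)),
        ∃ z : ℤ, ((∏ l ∈ s, (qf l).den : ℕ) : ℝ) * f x = z := by
      intro x hx
      induction hx using Submodule.span_induction with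
      | mem x hx =>
        refine ⟨(∏ l ∈ s.erase x, ((qf l).den : ℤ)) * (qf x).num, ?_⟩
        have h1 : f x = (qf x : ℝ) := (hqf x hx).symm
        have h2 : (qf x : ℝ) = (qf x).num / (qf x).den := by exact_mod_cast (Rat.num_div_den _).symm
        have h3 : ((qf x).den : ℝ) ≠ 0 := by exact_mod_cast (qf x).den_pos.ne'
        rw [h1, h2, ← Finset.mul_prod_erase s _ hx]
        push_cast
        field_simp
      | zero => exact ⟨0, by simp⟩
      | add x y _ _ hx hy =>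
        obtain ⟨z, hz⟩ := hx
        obtain ⟨z', hz'⟩ := hy
        refine ⟨z + z', ?_⟩
        rw [map_add, mul_add, hz, hz']
        push_cast
        rfl
      | smul a x _ hx =>
        obtain ⟨z, hz⟩ := hx
        refine ⟨a * z, ?_⟩
        rw [map_smul, zsmul_eq_mul]
        push_cast at hz ⊢
        rw [← hz]
        ring
    obtain ⟨z, hz⟩ := hspan l hlL
    exact ⟨z, hz⟩

/-- the polynomial in one of the variables -/
lemma slice {D : ℕ} (A : Fin r → Fin d → ℝ[X]) {R : Fin r → (Fin d → ℕ) → ℝ}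
    (hR : ∀ j, LowDeg D (R j)) (l : Fin r → ℤ) (t0 : Fin d) (m : Fin d → ℕ) :
    ∃ f : ℝ[X], (∀ n : ℕ, lin r l (pv A R (Function.update m t0 n)) = f.eval (n : ℝ)) ∧
      ∀ i, D ≤ i → 1 ≤ i → f.coeff i = ∑ j, (l j : ℝ) * (A j t0).coeff i := by
  classical
  choose p hp1 hp2 using fun j => hR j t0 m
  refine ⟨∑ j, C (l j : ℝ) * (A j t0 + C (∑ t ∈ univ.erase t0, (A j t).eval (m t : ℝ)) + p j), ?_, ?_⟩
  · intro n
    rw [lin_apply, eval_finsetSum]
    refine sum_congr rfl fun j _ => ?_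
    rw [eval_mul, eval_C, eval_add, eval_add, eval_C]
    unfold pv
    rw [hp2 j n, ← Finset.add_sum_erase univ _ (mem_univ t0)]
    simp only [Function.update_self]
    have h1 : ∑ x ∈ univ.erase t0, (A j x).eval ((Function.update m t0 n x : ℕ) : ℝ) =
        ∑ x ∈ univ.erase t0, (A j x).eval (m x : ℝ) := by
      refine sum_congr rfl fun x hx => ?_
      rw [Function.update_of_ne (Finset.ne_of_mem_erase hx)]
    rw [h1]
  · intro i hi hi1
    rw [finsetSum_coeff]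
    refine sum_congr rfl fun j _ => ?_
    rw [coeff_C_mul, coeff_add, coeff_add, coeff_C, if_neg (by omega),
      coeff_eq_zero_of_natDegree_lt ((hp1 j).trans_le hi)]
    ring

/-- **power saving for the exponential sums over the values of polynomials** -/
theorem good_pol {D : ℕ} (hD : 1 ≤ D) (A : Fin r → Fin d → ℝ[X])
    (halg : ∀ j t i, IsAlgebraic ℚ ((A j t).coeff i))
    (hind : ∀ c : Fin r → ℤ, c ≠ 0 → ∃ t i, D ≤ i ∧ Irrational (∑ j, (c j : ℝ) * (A j t).coeff i))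
    {b : Fin r → ℕ} (hb : ∀ j, 1 ≤ b j) (a : ℝ) : GoodF b a (SP A D) := by
  classical
  intro k A0
  -- the degree
  obtain ⟨Δ, hΔ⟩ : ∃ Δ, ∀ j t, (A j t).natDegree ≤ Δ := by
    refine ⟨∑ j, ∑ t, (A j t).natDegree, fun j t => ?_⟩
    calc (A j t).natDegree ≤ ∑ t, (A j t).natDegree :=
          Finset.single_le_sum (f := fun t => (A j t).natDegree) (fun _ _ => Nat.zero_le _) (mem_univ t)
      _ ≤ _ := Finset.single_le_sum (f := fun j => ∑ t, (A j t).natDegree) (fun _ _ => Nat.zero_le _)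
          (mem_univ j)
  -- the diophantine input
  set S : Finset ℕ := univ.biUnion fun j => (b j).primeFactors with hS
  have hS0 : ∀ p ∈ S, 0 < p := fun p hp => by
    rw [hS, mem_biUnion] at hp
    obtain ⟨j, _, hj⟩ := hp
    exact (Nat.prime_of_mem_primeFactors hj).pos
  obtain ⟨B0, hB0⟩ := exists_ge (fun j => (b j : ℝ))
  set B1 : ℝ := max B0 1 with hB1
  have hB1' : 1 ≤ B1 := le_max_right _ _
  have hbB : ∀ j, (b j : ℝ) ≤ B1 := fun j => (hB0 j).trans (le_max_left _ _)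
  have hlB : 0 ≤ log B1 := Real.log_nonneg hB1'
  choose ηt hηt L0t hL0t using fun (t : Fin d) (i : Fin (Δ + 1)) =>
    dioph (fun j => (A j t).coeff i) (fun j => halg j t i) S hS0 k (|A0| * log B1)
      (1 / 2) (by positivity) (by norm_num)
  choose Qt hQt1 hQt using fun (t : Fin d) (i : Fin (Δ + 1)) => exists_den (fun j => (A j t).coeff i)
  obtain ⟨η0, hη0, hη0le⟩ : ∃ η0 : ℝ, 0 < η0 ∧ ∀ t i, η0 ≤ ηt t i := by
    choose η1 h1 h2 using fun t => exists_pos_le (ηt t) (fun i => hηt t i)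
    obtain ⟨η0, h3, h4⟩ := exists_pos_le η1 h1
    exact ⟨η0, h3, fun t i => (h4 t).trans (h2 t i)⟩
  obtain ⟨L0, hL0⟩ : ∃ L0 : ℝ, ∀ t i, L0t t i ≤ L0 := by
    choose L1 h1 using fun t => exists_ge (L0t t)
    obtain ⟨L0, h2⟩ := exists_ge L1
    exact ⟨L0, fun t i => (h1 t i).trans (h2 t)⟩
  set Q : ℕ := ∏ t, ∏ i, Qt t i with hQ
  have hQ1 : 1 ≤ Q := by
    rw [hQ]
    exact Nat.one_le_iff_ne_zero.2 (Finset.prod_ne_zero_iff.2 fun t _ =>
      Finset.prod_ne_zero_iff.2 fun i _ => Nat.one_le_iff_ne_zero.1 (hQt1 t i))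
  have hQdvd : ∀ t i, Qt t i ∣ Q := fun t i =>
    (Finset.dvd_prod_of_mem _ (mem_univ i)).trans (Finset.dvd_prod_of_mem (fun t => ∏ i, Qt t i) (mem_univ t))
  -- the inverse theorem
  have hIW : ∀ K : ℕ, ∃ c m : ℕ, 1 ≤ c ∧ (1 ≤ K → ∀ (M : ℕ) (u : ℝ) (f : ℝ[X]), 1 ≤ M → 1 ≤ u →
      (∀ i, K < i → ∃ z : ℤ, (Q : ℝ) * f.coeff i = z) →
      (M : ℝ) ≤ u * ‖∑ n ∈ Finset.Icc 1 M, e (f.eval (n : ℝ))‖ →
      ∃ q : ℕ, 1 ≤ q ∧ (q : ℝ) ≤ c * u ^ m ∧
        ∃ a : ℤ, |q * f.coeff K - a| ≤ c * u ^ m / (M : ℝ) ^ K) := by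
    intro K
    by_cases hK : 1 ≤ K
    · obtain ⟨c, m, hc, h⟩ := sum_poly K hK Q hQ1
      exact ⟨c, m, hc, fun _ => h⟩
    · exact ⟨1, 0, le_rfl, fun h => absurd h hK⟩
  choose cK mK hcK hIK using hIW
  set Cc : ℕ := ∑ K ∈ range (Δ + 1), cK K with hCc
  set mm : ℕ := ∑ K ∈ range (Δ + 1), mK K with hmm
  have hcle : ∀ K, K ≤ Δ → cK K ≤ Cc := fun K hK =>
    Finset.single_le_sum (f := cK) (fun _ _ => Nat.zero_le _) (mem_range.2 (by omega))
  have hmle : ∀ K, K ≤ Δ → mK K ≤ mm := fun K hK =>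
    Finset.single_le_sum (f := mK) (fun _ _ => Nat.zero_le _) (mem_range.2 (by omega))
  -- the exponent
  set η : ℝ := min η0 (1 / 8) / (2 * (mm + 1)) with hη
  have hmmR : (0 : ℝ) ≤ mm := Nat.cast_nonneg _
  have hη1 : 0 < η := by
    have : 0 < min η0 (1 / 8) := lt_min hη0 (by norm_num)
    positivity
  have hη2 : η * (mm + 1) * 2 = min η0 (1 / 8) := by
    rw [hη]
    field_simp
  have hη3 : η * (mm + 1) * 2 ≤ η0 := hη2.le.trans (min_le_left _ _)
  have hη4 : η * (mm + 1) * 2 ≤ 1 / 8 := hη2.le.trans (min_le_right _ _)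
  have hη5 : η ≤ η0 := by nlinarith
  obtain ⟨M1, hM1⟩ := eventually_atTop.1
    (Pool.Agent.Y933.KD.VdC.ev_le (Cc : ℝ) η hη1)
  refine ⟨η, hη1, max M1 (⌈exp |L0|⌉₊ + 1), ?_⟩
  intro M hM P hP q hq h hh hne
  obtain ⟨R, hR, rfl⟩ := hP
  have hMM1 : M1 ≤ M := (le_max_left _ _).trans hM
  have hM2 : ⌈exp |L0|⌉₊ + 1 ≤ M := (le_max_right _ _).trans hM
  have hM1' : 1 ≤ M := by omega
  have hMR : (1 : ℝ) ≤ M := by exact_mod_cast hM1'
  have hMp : (0 : ℝ) < M := by linarith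
  have hCM : (Cc : ℝ) ≤ (M : ℝ) ^ η := hM1 M hMM1
  have hlog : |L0| ≤ log M := by
    rw [← Real.log_exp |L0|]
    apply Real.log_le_log (exp_pos _)
    calc exp |L0| ≤ (⌈exp |L0|⌉₊ : ℝ) := Nat.le_ceil _
      _ ≤ M := by exact_mod_cast (by omega : ⌈exp |L0|⌉₊ ≤ M)
  have hlog0 : 0 ≤ log M := (abs_nonneg _).trans hlog
  have hpow : ∀ a : ℝ, (M : ℝ) ^ a = exp (a * log M) := fun a => by
    rw [Real.rpow_def_of_pos hMp, mul_comm]
  set l : Fin r → ℤ := ∑ i, h i • q i with hl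
  choose jj nn hna hnA hqe using hq
  -- the last irrational coefficient
  obtain ⟨t0, i0, hi0, hirr0⟩ := hind l hne
  set β : ℕ → ℝ := fun i => ∑ j, (l j : ℝ) * (A j t0).coeff i with hβ
  have hβbig : ∀ i, Δ < i → β i = 0 := by
    intro i hi
    rw [hβ]
    refine sum_eq_zero fun j _ => ?_
    rw [coeff_eq_zero_of_natDegree_lt ((hΔ j t0).trans_lt hi), mul_zero]
  obtain ⟨K, hK1, hK2, hK3⟩ : ∃ K, D ≤ K ∧ Irrational (β K) ∧ ∀ i, K < i → ¬ Irrational (β i) := by
    set T : Finset ℕ := (range (Δ + 1)).filter (fun i => D ≤ i ∧ Irrational (β i)) with hT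
    have hne : T.Nonempty := by
      refine ⟨i0, ?_⟩
      rw [hT, mem_filter, mem_range]
      refine ⟨?_, hi0, hirr0⟩
      by_contra hcon
      have h0 := hβbig i0 (by omega)
      have h1 : Irrational (β i0) := hirr0
      rw [h0] at h1
      exact not_irrational_zero h1
    have hmemT : ∀ i, i ∈ T ↔ i < Δ + 1 ∧ D ≤ i ∧ Irrational (β i) := fun i => by
      rw [hT, mem_filter, mem_range]
    have hmax := ((hmemT _).1 (T.max'_mem hne)).2
    refine ⟨T.max' hne, hmax.1, hmax.2, fun i hi hirr => ?_⟩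
    have h1 : i ∈ T := by
      rw [hT, mem_filter, mem_range]
      refine ⟨?_, by omega, hirr⟩
      by_contra hcon
      have h0 := hβbig i (by omega)
      rw [h0] at hirr
      exact not_irrational_zero hirr
    have h2 := T.le_max' i h1
    omega
  have hKΔ : K ≤ Δ := by
    by_contra hcon
    have h0 := hβbig K (by omega)
    rw [h0] at hK2
    exact not_irrational_zero hK2
  have hKpos : 1 ≤ K := hD.trans hK1
  -- the diophantine lower bound
  have hlow : ∀ (qq : ℕ) (z : ℤ), 1 ≤ qq → (qq : ℝ) ≤ (M : ℝ) ^ (η0 - η) →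
      (M : ℝ) ^ (-(1 / 2) : ℝ) < |qq * β K - z| := by
    intro qq z hqq1 hqq2
    have key := hL0t t0 ⟨K, by omega⟩ (log M) ((hL0 t0 _).trans ((le_abs_self _).trans hlog))
      (fun i => b (jj i) ^ nn i) (fun i => Pi.single (jj i) 1) (fun i => (qq : ℤ) * h i) z
    have hsum : ∀ j, ((qq : ℤ) * l j) = ∑ i, (qq : ℤ) * h i * (((b (jj i) ^ nn i : ℕ) : ℤ) *
        (Pi.single (jj i) 1 : Fin r → ℤ) j) := by
      intro j
      rw [hl, Finset.sum_apply, mul_sum]
      refine sum_congr rfl fun i _ => ?_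
      rw [Pi.smul_apply, smul_eq_mul, hqe i, mul_assoc]
    have h1 : ∑ j, ((∑ i, (qq : ℤ) * h i * (((b (jj i) ^ nn i : ℕ) : ℤ) *
        (Pi.single (jj i) 1 : Fin r → ℤ) j) : ℤ) : ℝ) * (A j t0).coeff K = qq * β K := by
      rw [hβ, mul_sum]
      refine sum_congr rfl fun j _ => ?_
      rw [← hsum j]
      push_cast
      ring
    have h2 := key ?_ ?_ ?_ ?_ ?_
    · simp only at h2
      rw [h1] at h2
      rw [hpow]
      have e1 : -(1 / 2 : ℝ) * log M = -(1 / 2 * log M) := by ring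
      rw [e1]
      exact h2
    · intro i
      refine ⟨pow_ne_zero _ (Nat.pos_iff_ne_zero.1 (hb _)), ?_⟩
      intro p' hp'
      rw [hS, mem_biUnion]
      refine ⟨jj i, mem_univ _, ?_⟩
      rw [Nat.mem_primeFactors] at hp' ⊢
      exact ⟨hp'.1, hp'.1.dvd_of_dvd_pow hp'.2.1, Nat.pos_iff_ne_zero.1 (hb _)⟩
    · intro i
      push_cast
      have hbj : (1 : ℝ) ≤ b (jj i) := by exact_mod_cast hb (jj i)
      have h3 : ((nn i : ℕ) : ℝ) ≤ |A0| * log M := (hnA i).trans (by gcongr; exact le_abs_self _)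
      calc (b (jj i) : ℝ) ^ nn i ≤ B1 ^ nn i := by gcongr; exact hbB _
        _ = B1 ^ ((nn i : ℕ) : ℝ) := (Real.rpow_natCast _ _).symm
        _ ≤ B1 ^ (|A0| * log M) := Real.rpow_le_rpow_of_exponent_le hB1' h3
        _ = exp (|A0| * log B1 * log M) := by
            rw [Real.rpow_def_of_pos (by linarith)]
            congr 1
            ring
    · intro i
      push_cast
      rw [abs_mul, Nat.abs_cast]
      calc (qq : ℝ) * |(h i : ℝ)| ≤ (M : ℝ) ^ (η0 - η) * (M : ℝ) ^ η := by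
            gcongr
            exact hh i
        _ = (M : ℝ) ^ η0 := by rw [← Real.rpow_add hMp, sub_add_cancel]
        _ = exp (η0 * log M) := hpow _
        _ ≤ exp (ηt t0 ⟨K, by omega⟩ * log M) := by
            apply Real.exp_le_exp.2
            have := hη0le t0 ⟨K, by omega⟩
            gcongr
    · intro i j
      have h3 : (1 : ℝ) ≤ exp (ηt t0 ⟨K, by omega⟩ * log M) :=
        Real.one_le_exp (mul_nonneg (hηt t0 _).le hlog0)
      rcases eq_or_ne j (jj i) with h4 | h4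
      · rw [h4, Pi.single_eq_same]
        simpa using h3
      · rw [Pi.single_eq_of_ne h4]
        simp only [Int.cast_zero, abs_zero]
        linarith
    · rw [h1]
      have h3 : Irrational (((qq : ℤ) : ℝ) * β K) :=
        irrational_intCast_mul_iff.2 ⟨by omega, hK2⟩
      exact_mod_cast h3
  -- the exponential sum
  by_contra hcon
  push Not at hcon
  unfold hat at hcon
  rw [integral_unif, card_box, norm_mul] at hcon
  have hnorm : ‖(1 / ((M ^ d : ℕ) : ℂ))‖ = 1 / (M : ℝ) ^ d := by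
    push_cast
    simp
  rw [hnorm] at hcon
  have hbig : ∃ m : Fin d → ℕ, (M : ℝ) ≤ (M : ℝ) ^ η *
      ‖∑ n ∈ Finset.Icc 1 M, e (lin r l (pv A R (Function.update m t0 n)))‖ := by
    by_contra hno
    push Not at hno
    have h1 := box_le hM1' t0 (fun m => e (lin r l (pv A R m))) (B := (M : ℝ) ^ (1 - η)) (by
      intro m
      have h2 := (hno m).le
      have h3 : (M : ℝ) ^ (1 - η) * (M : ℝ) ^ η = M := by
        rw [← Real.rpow_add hMp, sub_add_cancel, Real.rpow_one]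
      have h4 : 0 < (M : ℝ) ^ η := by positivity
      refine le_of_mul_le_mul_left ?_ h4
      calc _ ≤ (M : ℝ) := h2
        _ = (M : ℝ) ^ η * (M : ℝ) ^ (1 - η) := by rw [mul_comm, h3])
    have h5 : (M : ℝ) * ‖∑ m ∈ box d M, e (lin r l (pv A R m))‖ ≤ (M : ℝ) * ((M : ℝ) ^ d * (M : ℝ) ^ (-η)) := by
      refine h1.trans (le_of_eq ?_)
      rw [show (1 - η) = 1 + -η by ring, Real.rpow_add hMp, Real.rpow_one]
      ring
    have h6 := le_of_mul_le_mul_left h5 hMp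
    have h7 : 1 / (M : ℝ) ^ d * ‖∑ m ∈ box d M, e (lin r l (pv A R m))‖ ≤ (M : ℝ) ^ (-η) := by
      rw [one_div, inv_mul_le_iff₀ (by positivity)]
      exact h6
    linarith
  obtain ⟨m, hm⟩ := hbig
  obtain ⟨f, hf1, hf2⟩ := slice A hR l t0 m
  have hMη : 1 ≤ (M : ℝ) ^ η := Real.one_le_rpow hMR hη1.le
  simp only [hf1] at hm
  obtain ⟨qq, hqq1, hqq2, z, hz⟩ := hIK K hKpos M _ f hM1' hMη (by
    intro i hi
    rw [hf2 i (hK1.trans hi.le) (by omega)]
    rcases le_or_gt i Δ with h1 | h1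
    · obtain ⟨z, hz⟩ := hQt t0 ⟨i, by omega⟩ l (hK3 i hi)
      obtain ⟨v, hv⟩ := hQdvd t0 ⟨i, by omega⟩
      refine ⟨v * z, ?_⟩
      rw [hv]
      push_cast
      rw [← hz]
      ring
    · refine ⟨0, ?_⟩
      have := hβbig i h1
      simp only [hβ] at this
      rw [this]
      simp) hm
  rw [hf2 K hK1 hKpos] at hz
  have hcu : (cK K : ℝ) * ((M : ℝ) ^ η) ^ mK K ≤ (M : ℝ) ^ (η * (mm + 1)) := by
    calc (cK K : ℝ) * ((M : ℝ) ^ η) ^ mK K ≤ Cc * ((M : ℝ) ^ η) ^ mm := by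
          have h1 : (cK K : ℝ) ≤ Cc := by exact_mod_cast hcle K hKΔ
          have h2 : ((M : ℝ) ^ η) ^ mK K ≤ ((M : ℝ) ^ η) ^ mm := pow_le_pow_right₀ hMη (hmle K hKΔ)
          gcongr
      _ ≤ (M : ℝ) ^ η * ((M : ℝ) ^ η) ^ mm := by gcongr
      _ = (M : ℝ) ^ (η * (mm + 1)) := by
          rw [← Real.rpow_natCast ((M : ℝ) ^ η), ← Real.rpow_mul hMp.le, ← Real.rpow_add hMp]
          congr 1
          ring
  have h1 := hlow qq z hqq1 (hqq2.trans (hcu.trans (Real.rpow_le_rpow_of_exponent_le hMR (by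
    have : η ≤ η * (mm + 1) := by nlinarith
    linarith))))
  have h2 : (cK K : ℝ) * ((M : ℝ) ^ η) ^ mK K / (M : ℝ) ^ K ≤ (M : ℝ) ^ (-(1 / 2) : ℝ) := by
    rw [div_le_iff₀ (by positivity)]
    calc (cK K : ℝ) * ((M : ℝ) ^ η) ^ mK K ≤ (M : ℝ) ^ (η * (mm + 1)) := hcu
      _ ≤ (M : ℝ) ^ ((1 : ℝ) / 2) := Real.rpow_le_rpow_of_exponent_le hMR (by linarith)
      _ = (M : ℝ) ^ (-(1 / 2) : ℝ) * (M : ℝ) ^ (1 : ℝ) := by
          rw [← Real.rpow_add hMp]; norm_num
      _ ≤ (M : ℝ) ^ (-(1 / 2) : ℝ) * (M : ℝ) ^ K := by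
          rw [Real.rpow_one]
          have : (M : ℝ) ≤ (M : ℝ) ^ K := by
            calc (M : ℝ) = (M : ℝ) ^ 1 := (pow_one _).symm
              _ ≤ _ := pow_le_pow_right₀ hMR hKpos
          gcongr
  have h3 := hz.trans h2
  simp only [hβ] at h1
  linarith

end Pool.Agent.K7.H79.ND
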