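import Pool.Agent.Y933.KG.Tup2

/-!
# Lower bounds away from finitely many points, without conditions on the leading coefficient (helper79)
-/

set_option autoImplicit false

namespace Pool.Agent.K7.H79.ND

open Finset Polynomial
open Pool.Agent.Y933.KG

/-- the coefficients of a product of linear factors -/
lemma coeff_prod_le (s : Multiset ℂ) : ∀ n : ℕ,
    ‖((s.map (fun z => X - C z)).prod).coeff n‖ ≤ (s.map (fun z => 1 + ‖z‖)).prod := by
  induction s using Multiset.induction_on with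
  | empty =>
    intro n
    simp only [Multiset.map_zero, Multiset.prod_zero, coeff_one]
    split_ifs <;> simp
  | cons z s ih =>
    intro n
    have hnn : 0 ≤ (s.map (fun z => 1 + ‖z‖)).prod := by
      refine Multiset.prod_nonneg fun a ha => ?_
      obtain ⟨w, _, rfl⟩ := Multiset.mem_map.1 ha
      positivity
    rw [Multiset.map_cons, Multiset.prod_cons, Multiset.map_cons, Multiset.prod_cons, sub_mul,
      coeff_sub, coeff_C_mul]
    have h1 : ‖(X * (s.map (fun z => X - C z)).prod).coeff n‖ ≤ (s.map (fun z => 1 + ‖z‖)).prod := by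
      cases n with
      | zero => rw [coeff_X_mul_zero, norm_zero]; exact hnn
      | succ n => rw [coeff_X_mul]; exact ih n
    calc _ ≤ ‖(X * (s.map (fun z => X - C z)).prod).coeff n‖ +
          ‖z * ((s.map (fun z => X - C z)).prod).coeff n‖ := norm_sub_le _ _
      _ ≤ (s.map (fun z => 1 + ‖z‖)).prod + ‖z‖ * (s.map (fun z => 1 + ‖z‖)).prod := by
          rw [norm_mul]
          exact add_le_add h1 (mul_le_mul_of_nonneg_left (ih n) (norm_nonneg _))
      _ = _ := by ring

/-- a lower bound for a polynomial away from the real parts of its roots, in terms of any coefficient -/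
lemma root_avoid2 (N : ℝ[X]) :
    ∃ E : Finset ℝ, E.card ≤ N.natDegree ∧ ∀ x ρ R : ℝ, 0 ≤ ρ → ρ ≤ 1 → 1 ≤ R → |x| ≤ R →
      (∀ e ∈ E, ρ ≤ |x - e|) → ∀ n, |N.coeff n| * (ρ / (4 * R)) ^ N.natDegree ≤ |N.eval x| := by
  classical
  set Q : ℂ[X] := N.map (algebraMap ℝ ℂ) with hQ
  refine ⟨(Q.roots.map Complex.re).toFinset, ?_, ?_⟩
  · refine (Multiset.toFinset_card_le _).trans ?_
    rw [Multiset.card_map]
    exact (card_roots' Q).trans natDegree_map_le
  · intro x ρ R hρ hρ1 hR hx hE n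
    have h2 : Q.eval (x : ℂ) = ((N.eval x : ℝ) : ℂ) := by
      rw [hQ, eval_map_algebraMap]
      exact aeval_algebraMap_apply_eq_algebraMap_eval x N
    have h4 : Multiset.card Q.roots = N.natDegree := by
      rw [← (IsAlgClosed.splits Q).natDegree_eq_card_roots, hQ, natDegree_map]
    have h1 := (IsAlgClosed.splits Q).eval_eq_prod_roots (x : ℂ)
    have h5 : |N.eval x| = ‖Q.eval (x : ℂ)‖ := by
      rw [h2, Complex.norm_real, Real.norm_eq_abs]
    have h6 : |N.coeff n| = ‖Q.coeff n‖ := by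
      rw [hQ, coeff_map]
      simp
    have h7 : Q = C Q.leadingCoeff * (Q.roots.map (fun z => X - C z)).prod :=
      (IsAlgClosed.splits Q).eq_prod_roots
    have h8 : ‖Q.coeff n‖ ≤ ‖Q.leadingCoeff‖ * (Q.roots.map (fun z => 1 + ‖z‖)).prod := by
      conv_lhs => rw [h7]
      rw [coeff_C_mul, norm_mul]
      exact mul_le_mul_of_nonneg_left (coeff_prod_le _ _) (norm_nonneg _)
    have hR0 : 0 < 4 * R := by linarith
    have hρR : 0 ≤ ρ / (4 * R) := by positivity
    have h9 : ∀ s : Multiset ℂ, (∀ z ∈ s, ρ ≤ |x - z.re|) →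
        (s.map (fun z => 1 + ‖z‖)).prod * (ρ / (4 * R)) ^ Multiset.card s ≤
          ‖(s.map (fun z => (x : ℂ) - z)).prod‖ := by
      intro s
      induction s using Multiset.induction_on with
      | empty => intro _; simp
      | cons z s ih =>
        intro h
        rw [Multiset.map_cons, Multiset.prod_cons, Multiset.map_cons, Multiset.prod_cons, norm_mul,
          Multiset.card_cons]
        have h10 := h z (Multiset.mem_cons_self z s)
        have h11 := ih (fun w hw => h w (Multiset.mem_cons_of_mem hw))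
        have h12 : |x - z.re| ≤ ‖(x : ℂ) - z‖ := by
          have := Complex.abs_re_le_norm ((x : ℂ) - z)
          simpa using this
        have hz0 : 0 ≤ ‖z‖ := norm_nonneg z
        have h13 : (1 + ‖z‖) * (ρ / (4 * R)) ≤ ‖(x : ℂ) - z‖ := by
          rw [mul_div_assoc', div_le_iff₀ hR0]
          rcases le_or_gt ‖z‖ (2 * R) with h14 | h14
          · calc (1 + ‖z‖) * ρ ≤ (4 * R) * ρ := by
                  apply mul_le_mul_of_nonneg_right _ hρ
                  linarith
              _ ≤ (4 * R) * ‖(x : ℂ) - z‖ := by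
                  apply mul_le_mul_of_nonneg_left (h10.trans h12) hR0.le
              _ = _ := by ring
          · have h15 : ‖z‖ - R ≤ ‖(x : ℂ) - z‖ := by
              have h16 := norm_sub_norm_le z (x : ℂ)
              rw [norm_sub_rev] at h16
              have h17 : ‖(x : ℂ)‖ ≤ R := by
                rw [Complex.norm_real, Real.norm_eq_abs]; exact hx
              linarith
            have h18 : ‖z‖ / 2 ≤ ‖(x : ℂ) - z‖ := by linarith
            calc (1 + ‖z‖) * ρ ≤ (1 + ‖z‖) * 1 := by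
                  apply mul_le_mul_of_nonneg_left hρ1 (by linarith)
              _ ≤ ‖z‖ / 2 * (4 * R) := by nlinarith
              _ ≤ _ := mul_le_mul_of_nonneg_right h18 hR0.le
        calc _ = ((1 + ‖z‖) * (ρ / (4 * R))) *
              ((s.map (fun z => 1 + ‖z‖)).prod * (ρ / (4 * R)) ^ Multiset.card s) := by
              rw [pow_succ]; ring
          _ ≤ _ := by
              refine mul_le_mul h13 h11 ?_ (norm_nonneg _)
              have : 0 ≤ (s.map (fun z => 1 + ‖z‖)).prod := by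
                refine Multiset.prod_nonneg fun a ha => ?_
                obtain ⟨w, _, rfl⟩ := Multiset.mem_map.1 ha
                positivity
              positivity
    have h10 := h9 Q.roots fun z hz => hE _ (by
      rw [Multiset.mem_toFinset]
      exact Multiset.mem_map_of_mem _ hz)
    rw [h5, h6, h1, norm_mul]
    rw [h4] at h10
    calc ‖Q.coeff n‖ * (ρ / (4 * R)) ^ N.natDegree ≤
          (‖Q.leadingCoeff‖ * (Q.roots.map (fun z => 1 + ‖z‖)).prod) * (ρ / (4 * R)) ^ N.natDegree :=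
          mul_le_mul_of_nonneg_right h8 (by positivity)
      _ = ‖Q.leadingCoeff‖ * ((Q.roots.map (fun z => 1 + ‖z‖)).prod * (ρ / (4 * R)) ^ N.natDegree) := by
          ring
      _ ≤ _ := mul_le_mul_of_nonneg_left h10 (norm_nonneg _)

/-- the numerators are linear in `F` -/
lemma Nm_add (P F G : ℝ[X]) (j : ℕ) : Nm P (F + G) j = Nm P F j + Nm P G j := by
  induction j with
  | zero => simp [Nm]
  | succ j ih =>
    simp only [Nm]
    rw [ih, derivative_add]
    ring

lemma coeff_mul_le {u v : ℝ[X]} {U V : ℝ} {D : ℕ} (hU : 0 ≤ U) (hV : 0 ≤ V)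
    (hu : ∀ i, |u.coeff i| ≤ U) (hv : ∀ i, |v.coeff i| ≤ V) (hD : v.natDegree ≤ D) (n : ℕ) :
    |(u * v).coeff n| ≤ (D + 1) * (U * V) := by
  have h1 : u * v = ∑ i ∈ range (D + 1), C (v.coeff i) * (u * X ^ i) := by
    conv_lhs => rw [v.as_sum_range' (D + 1) (by omega), mul_sum]
    refine sum_congr rfl fun i _ => ?_
    rw [← C_mul_X_pow_eq_monomial]
    ring
  rw [h1, finsetSum_coeff]
  calc |∑ i ∈ range (D + 1), (C (v.coeff i) * (u * X ^ i)).coeff n| ≤
        ∑ i ∈ range (D + 1), |(C (v.coeff i) * (u * X ^ i)).coeff n| := abs_sum_le_sum_abs _ _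
    _ ≤ ∑ _i ∈ range (D + 1), U * V := by
        refine sum_le_sum fun i _ => ?_
        rw [coeff_C_mul, abs_mul, mul_comm U V, coeff_mul_X_pow']
        refine mul_le_mul (hv i) ?_ (abs_nonneg _) hV
        split_ifs
        · exact hu _
        · rw [abs_zero]; exact hU
    _ = _ := by
        rw [sum_const, card_range, nsmul_eq_mul]
        push_cast
        ring

lemma coeff_derivative_le {u : ℝ[X]} {U : ℝ} {D : ℕ} (hU : 0 ≤ U)
    (hu : ∀ i, 1 ≤ i → |u.coeff i| ≤ U) (hD : u.natDegree ≤ D) (n : ℕ) :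
    |(derivative u).coeff n| ≤ D * U := by
  rw [coeff_derivative, abs_mul]
  rcases le_or_gt (n + 1) D with h | h
  · have h1 : |((n : ℝ) + 1)| ≤ D := by
      rw [abs_of_nonneg (by positivity)]
      exact_mod_cast h
    calc |u.coeff (n + 1)| * |((n : ℝ) + 1)| ≤ U * D :=
          mul_le_mul (hu _ (by omega)) h1 (abs_nonneg _) hU
      _ = _ := mul_comm _ _
  · rw [coeff_eq_zero_of_natDegree_lt (by omega), abs_zero, zero_mul]
    positivity

/-- upper bounds for the coefficients of the numerators -/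
lemma Nm_coeff_le (q j : ℕ) : ∃ Cc : ℝ, 0 ≤ Cc ∧ ∀ (P F : ℝ[X]) (h φ : ℝ), 0 ≤ h → 0 ≤ φ →
    P.natDegree ≤ q + 2 → F.natDegree ≤ q + 1 → (∀ i, 1 ≤ i → |P.coeff i| ≤ h) →
    (∀ i, 1 ≤ i → |F.coeff i| ≤ φ) → ∀ n, |(Nm P F j).coeff n| ≤ Cc * (φ * h ^ j) := by
  induction j with
  | zero =>
    refine ⟨q + 1, by positivity, fun P F h φ hh hφ _ hF _ hFc n => ?_⟩
    have h1 := coeff_derivative_le hφ hFc hF n
    push_cast at h1
    simpa [Nm] using h1
  | succ j ih =>
    obtain ⟨Cc, hCc0, hCc⟩ := ih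
    refine ⟨((q + 1 : ℕ) + 1) * ((q + j * q) * Cc * (q + 2)) +
      (2 * j + 1) * (((q : ℕ) + 1) * (Cc * ((q + 1) * (q + 2)))), by positivity, ?_⟩
    intro P F h φ hh hφ hP hF hPc hFc n
    have hN := hCc P F h φ hh hφ hP hF hPc hFc
    have hNd : (Nm P F j).natDegree ≤ q + j * q := (Nm_deg (e := q) (s := q) hP hF j).1
    have h0 : 0 ≤ Cc * (φ * h ^ j) := by positivity
    have hP1 : (derivative P).natDegree ≤ q + 1 := (natDegree_derivative_le P).trans (by omega)
    have hP2 : (derivative (derivative P)).natDegree ≤ q :=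
      (natDegree_derivative_le _).trans (by omega)
    have hP1c := coeff_derivative_le hh hPc hP
    have hP2c : ∀ i, |(derivative (derivative P)).coeff i| ≤ ((q + 1 : ℕ) : ℝ) * (((q + 2 : ℕ) : ℝ) * h) :=
      coeff_derivative_le (by positivity) (fun i _ => hP1c i) hP1
    have hN1 := coeff_derivative_le h0 (fun i _ => hN i) hNd
    have hA := coeff_mul_le (D := q + 1) (by positivity) (by positivity) hN1 hP1c hP1 n
    have hB := coeff_mul_le (D := q) h0 (by positivity) hN hP2c hP2 n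
    show |(derivative (Nm P F j) * derivative P -
      C (2 * (j : ℝ) + 1) * (Nm P F j * derivative (derivative P))).coeff n| ≤ _
    rw [coeff_sub, coeff_C_mul]
    refine (abs_sub _ _).trans ?_
    rw [abs_mul, abs_of_nonneg (by positivity : (0 : ℝ) ≤ 2 * (j : ℝ) + 1)]
    have h5 : (0 : ℝ) ≤ 2 * (j : ℝ) + 1 := by positivity
    calc _ ≤ (((q + 1 : ℕ) : ℝ) + 1) * ((((q + j * q : ℕ) : ℝ) * (Cc * (φ * h ^ j))) *
          (((q + 2 : ℕ) : ℝ) * h)) + (2 * (j : ℝ) + 1) * (((q : ℕ) + 1) * ((Cc * (φ * h ^ j)) *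
          (((q + 1 : ℕ) : ℝ) * (((q + 2 : ℕ) : ℝ) * h)))) := by gcongr
      _ = _ := by
        push_cast
        ring

/-- lower bounds away from finitely many points -/
lemma avoidG {P F : ℝ[X]} {q s : ℕ} (hP : P.natDegree = q + 2) (hF : F.natDegree = s + 1)
    (hs : s ≤ q) (K : ℕ) :
    ∃ E : Finset ℝ, E.card ≤ (q + K * q) + (q + (K + 1) * q) + (q + 1) ∧ ∀ x r R : ℝ, 0 < r → r ≤ 1 →
      1 ≤ R → |x| ≤ R → (∀ t ∈ E, r ≤ |x - t|) →
      (∀ n, |(Nm P F K).coeff n| * (r / (4 * R)) ^ (q + K * q) ≤ |(Nm P F K).eval x|) ∧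
      (Nm P F (K + 1)).eval x ≠ 0 ∧
      |P.coeff (q + 2)| * r ^ (q + 1) ≤ |(derivative P).eval x| := by
  classical
  set a := P.coeff (q + 2) with ha
  set f := F.coeff (s + 1) with hf
  have ha0 : a ≠ 0 := by
    rw [ha, ← hP]
    intro h
    rw [coeff_natDegree, leadingCoeff_eq_zero] at h
    rw [h, natDegree_zero] at hP
    omega
  have hf0 : f ≠ 0 := by
    rw [hf, ← hF]
    intro h
    rw [coeff_natDegree, leadingCoeff_eq_zero] at h
    rw [h, natDegree_zero] at hF
    omega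
  have hnu : ∀ j, nu q s f a j ≠ 0 := by
    intro j h
    have := abs_nu hs f a j
    rw [h, abs_zero] at this
    have h2 : 0 < |f| * |a| ^ j := mul_pos (abs_pos.2 hf0) (pow_pos (abs_pos.2 ha0) j)
    linarith
  have hdeg : ∀ j, (Nm P F j).natDegree = s + j * q ∧ (Nm P F j).leadingCoeff = nu q s f a j := by
    intro j
    obtain ⟨h1, h2⟩ := Nm_deg hP.le hF.le j
    have h3 : (Nm P F j).natDegree = s + j * q := by
      refine le_antisymm h1 (le_natDegree_of_ne_zero ?_)
      rw [h2]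
      exact hnu j
    exact ⟨h3, by rw [leadingCoeff, h3, h2]⟩
  have hd1 : (derivative P).coeff (q + 1) = a * (q + 2) := by
    rw [coeff_derivative, ha]
    push_cast
    ring
  have hd2 : (derivative P).natDegree = q + 1 := by
    refine le_antisymm ((natDegree_derivative_le P).trans (by omega)) (le_natDegree_of_ne_zero ?_)
    rw [hd1]
    exact mul_ne_zero ha0 (by positivity)
  obtain ⟨E1, hE1c, hE1⟩ := root_avoid2 (Nm P F K)
  obtain ⟨E2, hE2c, hE2⟩ := root_avoid (Nm P F (K + 1))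
  obtain ⟨E3, hE3c, hE3⟩ := root_avoid (derivative P)
  rw [(hdeg K).1] at hE1c hE1
  rw [(hdeg (K + 1)).1] at hE2c hE2
  rw [hd2] at hE3c hE3
  rw [(hdeg (K + 1)).2] at hE2
  refine ⟨E1 ∪ E2 ∪ E3, ?_, ?_⟩
  · calc (E1 ∪ E2 ∪ E3).card ≤ (E1 ∪ E2).card + E3.card := card_union_le _ _
      _ ≤ E1.card + E2.card + E3.card := Nat.add_le_add_right (card_union_le _ _) _
      _ ≤ _ := by omega
  · intro x r R hr hr1 hR hxR h
    have h1 := hE1 x r R hr.le hr1 hR hxR (fun t ht => h t (by simp [ht]))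
    have h2 := hE2 x r hr.le (fun t ht => h t (by simp [ht]))
    have h3 := hE3 x r hr.le (fun t ht => h t (by simp [ht]))
    have hrR : 0 < r / (4 * R) := by positivity
    have hrR1 : r / (4 * R) ≤ 1 := by
      rw [div_le_one (by positivity)]
      linarith
    refine ⟨?_, ?_, ?_⟩
    · intro n
      refine le_trans ?_ (h1 n)
      have h5 : (r / (4 * R)) ^ (q + K * q) ≤ (r / (4 * R)) ^ (s + K * q) :=
        pow_le_pow_of_le_one hrR.le hrR1 (by omega)
      exact mul_le_mul_of_nonneg_left h5 (abs_nonneg _)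
    · intro h4
      rw [h4, abs_zero] at h2
      have h5 : 0 < |nu q s f a (K + 1)| * r ^ (s + (K + 1) * q) :=
        mul_pos (abs_pos.2 (hnu _)) (by positivity)
      linarith
    · refine le_trans ?_ h3
      have h4 : (derivative P).leadingCoeff = a * (q + 2) := by
        rw [leadingCoeff, hd2, hd1]
      rw [h4, abs_mul]
      have h5 : (1 : ℝ) ≤ |(q : ℝ) + 2| := by
        rw [abs_of_nonneg (by positivity)]
        have : (0 : ℝ) ≤ q := Nat.cast_nonneg q
        linarith
      have h6 : |a| ≤ |a| * |(q : ℝ) + 2| := le_mul_of_one_le_right (abs_nonneg a) h5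
      gcongr

/-- a large coefficient of the numerator -/
lemma big_coeff (q K : ℕ) : ∃ Cc : ℝ, 0 ≤ Cc ∧ ∀ (P F : ℝ[X]) (h φ : ℝ) (e : ℕ), 0 ≤ h → 0 ≤ φ →
    P.natDegree ≤ q + 2 → F.natDegree ≤ q + 1 → e ≤ q → (∀ i, 1 ≤ i → |P.coeff i| ≤ h) →
    (∀ i, e + 1 < i → |F.coeff i| ≤ φ) →
    |F.coeff (e + 1)| * |P.coeff (q + 2)| ^ K - Cc * (φ * h ^ K) ≤ |(Nm P F K).coeff (e + K * q)| := by
  obtain ⟨Cc, hCc0, hCc⟩ := Nm_coeff_le q K
  refine ⟨Cc, hCc0, fun P F h φ e hh hφ hP hF he hPc hFc => ?_⟩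
  set F1 : ℝ[X] := ∑ i ∈ range (e + 2), C (F.coeff i) * X ^ i with hF1
  have hF1c : ∀ i, F1.coeff i = if i < e + 2 then F.coeff i else 0 := by
    intro i
    rw [hF1, finsetSum_coeff]
    simp only [coeff_C_mul, coeff_X_pow, mul_ite, mul_one, mul_zero]
    rw [sum_ite_eq]
    simp only [mem_range]
  have hF1d : F1.natDegree ≤ e + 1 := by
    rw [natDegree_le_iff_coeff_eq_zero]
    intro i hi
    rw [hF1c, if_neg (by omega)]
  set F2 : ℝ[X] := F - F1 with hF2
  have hF2c : ∀ i, F2.coeff i = if i < e + 2 then 0 else F.coeff i := by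
    intro i
    rw [hF2, coeff_sub, hF1c]
    split_ifs <;> ring
  have hF2d : F2.natDegree ≤ q + 1 := by
    rw [natDegree_le_iff_coeff_eq_zero]
    intro i hi
    rw [hF2c, if_neg (by omega), coeff_eq_zero_of_natDegree_lt (by omega)]
  have hsplit : F = F1 + F2 := by rw [hF2]; ring
  have h1 := (Nm_deg (e := q) (s := e) hP hF1d K).2
  rw [hF1c, if_pos (by omega)] at h1
  have h2 := hCc P F2 h φ hh hφ hP hF2d hPc (fun i _ => by
    rw [hF2c]
    split_ifs with h3
    · rw [abs_zero]; exact hφ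
    · exact hFc i (by omega)) (e + K * q)
  have h3 := abs_nu he (F.coeff (e + 1)) (P.coeff (q + 2)) K
  have h4 : (Nm P F K).coeff (e + K * q) = nu q e (F.coeff (e + 1)) (P.coeff (q + 2)) K +
      (Nm P F2 K).coeff (e + K * q) := by
    conv_lhs => rw [hsplit]
    rw [Nm_add, coeff_add, h1]
  rw [h4]
  have h5 := abs_sub_abs_le_abs_sub (nu q e (F.coeff (e + 1)) (P.coeff (q + 2)) K)
    (-(Nm P F2 K).coeff (e + K * q))
  rw [sub_neg_eq_add, abs_neg] at h5
  linarith

/-- the last coefficient which is not too small -/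
lemma choose_e {q : ℕ} {F : ℝ[X]} (hF : F.natDegree ≤ q + 1) {h δ τ : ℝ} (hh : 1 ≤ h) (hτ : 0 ≤ τ)
    (hex : ∃ i, 1 ≤ i ∧ h ^ (-δ) ≤ |F.coeff i|) :
    ∃ e, e ≤ q ∧ h ^ (-(δ + e * τ)) ≤ |F.coeff (e + 1)| ∧
      ∀ i, e + 1 < i → |F.coeff i| ≤ h ^ (-(δ + (e + 1) * τ)) := by
  classical
  have hh0 : 0 < h := by linarith
  set T : Finset ℕ := (range (q + 1)).filter (fun e => h ^ (-(δ + e * τ)) ≤ |F.coeff (e + 1)|) with hT
  have hmem : ∀ e, e ∈ T ↔ e < q + 1 ∧ h ^ (-(δ + e * τ)) ≤ |F.coeff (e + 1)| := by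
    intro e
    rw [hT, mem_filter, mem_range]
  have hne : T.Nonempty := by
    obtain ⟨i, hi1, hi2⟩ := hex
    refine ⟨i - 1, (hmem _).2 ⟨?_, ?_⟩⟩
    · by_contra hcon
      rw [coeff_eq_zero_of_natDegree_lt (by omega), abs_zero] at hi2
      have : 0 < h ^ (-δ) := by positivity
      linarith
    · rw [Nat.sub_add_cancel hi1]
      refine le_trans (Real.rpow_le_rpow_of_exponent_le hh ?_) hi2
      have : 0 ≤ ((i - 1 : ℕ) : ℝ) * τ := by positivity
      linarith
  obtain ⟨h1, h2⟩ := (hmem _).1 (T.max'_mem hne)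
  refine ⟨T.max' hne, by omega, h2, fun i hi => ?_⟩
  by_contra hcon
  push Not at hcon
  have h3 : i ≤ q + 1 := by
    by_contra h4
    rw [coeff_eq_zero_of_natDegree_lt (by omega), abs_zero] at hcon
    have : 0 < h ^ (-(δ + ((T.max' hne : ℕ) + 1 : ℝ) * τ)) := by positivity
    linarith
  have h4 : i - 1 ∈ T := by
    refine (hmem _).2 ⟨by omega, ?_⟩
    rw [Nat.sub_add_cancel (by omega)]
    refine le_trans (Real.rpow_le_rpow_of_exponent_le hh ?_) hcon.le
    have h5 : ((T.max' hne : ℕ) : ℝ) + 1 ≤ ((i - 1 : ℕ) : ℝ) := by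
      exact_mod_cast (by omega : T.max' hne + 1 ≤ i - 1)
    nlinarith
  have h5 := T.le_max' _ h4
  omega

end Pool.Agent.K7.H79.ND
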