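import Pool.Agent.K7.H79.ND.TupG
import Pool.Agent.Y933.KG.AlgHat

/-!
# The exponential sums over all algebraic numbers, phases with arbitrary large coefficients (helper79,
after helper933)
-/

set_option autoImplicit false

namespace Pool.Agent.K7.H79.ND

open Finset Polynomial Filter
open Pool.Agent.H469R2.NK (e norm_e e_add)
open Pool.Agent.Y933.KD.VdC (ev_le)
open Pool.Agent.Y933.KG

/-- **the exponential sum over all real roots of the polynomials of height at most `H`** -/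
theorem totG (q K : ℕ) (hK : 1 ≤ K) (δ1 : ℝ) (hδ1 : 0 < δ1) :
    ∃ κ : ℝ, 0 < κ ∧ ∃ ρ : ℝ, 0 < ρ ∧ ρ ≤ 1 ∧ ∃ Cc : ℝ, 0 ≤ Cc ∧ ∃ H0 : ℕ, ∀ H : ℕ, H0 ≤ H →
      ∀ G : ℝ[X], Shape κ H q G →
      ∀ θ : ℝ, (H : ℝ) ^ δ1 ≤ |θ| → |θ| ≤ (H : ℝ) ^ (K : ℝ) →
      ‖∑ p ∈ Om q H, e (θ * G.eval p.2.2)‖ ≤ Cc * (H : ℝ) ^ ((q : ℝ) + 3 - ρ) := by
  classical
  obtain ⟨δ, hδ, hδ2, ρ, hρ, hρ1, Cc, hCc, H0, hH0⟩ := tupG q K hK δ1 hδ1
  refine ⟨δ, hδ, min δ ρ, lt_min hδ hρ, (min_le_right _ _).trans hρ1,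
    3 ^ (q + 2) * Cc + 3 ^ (q + 1) * 3 * ((q + 2) * 3), by positivity, max H0 1, ?_⟩
  intro H hH G hG θ hθ1 hθ2
  have hH1 : 1 ≤ H := le_of_max_le_right hH
  have hHR : (1 : ℝ) ≤ H := by exact_mod_cast hH1
  have hHp : (0 : ℝ) < H := by linarith
  have h3H : 2 * (H : ℝ) + 1 ≤ 3 * H := by linarith
  have hadd : ∀ x y : ℝ, (H : ℝ) ^ x * (H : ℝ) ^ y = (H : ℝ) ^ (x + y) :=
    fun x y => (Real.rpow_add hHp x y).symm
  set T : ℝ := (H : ℝ) ^ (1 - δ) with hT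
  have hT1 : 1 ≤ T := Real.one_le_rpow hHR (by linarith)
  have hTle : T ≤ (H : ℝ) := by
    calc T ≤ (H : ℝ) ^ (1 : ℝ) := Real.rpow_le_rpow_of_exponent_le hHR (by linarith)
      _ = H := Real.rpow_one _
  set F : (Fin (q + 2) → ℤ) → ℂ := fun a =>
    ∑ c ∈ Finset.Icc (-(H : ℤ)) H, ∑ x ∈ (pol q a c).roots.toFinset, e (θ * G.eval x) with hF
  have hsum : ∑ p ∈ Om q H, e (θ * G.eval p.2.2) = ∑ a ∈ Av q H, F a := by
    unfold Om
    rw [Finset.sum_sigma]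
    refine sum_congr rfl fun a _ => ?_
    rw [Finset.sum_sigma]
  have htriv : ∀ a, ‖F a‖ ≤ (q + 2) * (2 * H + 1) := by
    intro a
    calc ‖F a‖ ≤ ∑ c ∈ Finset.Icc (-(H : ℤ)) H, ‖∑ x ∈ (pol q a c).roots.toFinset, e (θ * G.eval x)‖ :=
          norm_sum_le _ _
      _ ≤ ∑ _c ∈ Finset.Icc (-(H : ℤ)) H, ((q : ℝ) + 2) := by
          refine sum_le_sum fun c _ => ?_
          refine (norm_sum_le _ _).trans ?_
          simp only [norm_e, sum_const, nsmul_eq_mul, mul_one]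
          exact_mod_cast roots_card q a c
      _ = _ := by
          rw [sum_const, card_Icc_H, nsmul_eq_mul]
          push_cast
          ring
  have hgood : ∀ a ∈ Av q H, ¬ |(a (Fin.last (q + 1)) : ℝ)| < T → ‖F a‖ ≤ Cc * (H : ℝ) ^ (1 - ρ) := by
    intro a ha hlast
    push Not at hlast
    have h0 : a (Fin.last (q + 1)) ≠ 0 := by
      intro h
      rw [h] at hlast
      simp only [Int.cast_zero, abs_zero] at hlast
      linarith
    obtain ⟨X, hX, hXs⟩ := inner_eq (H := H) a h0 (fun x => e (θ * G.eval x))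
    rw [hF]
    simp only
    rw [hXs]
    have haR : ∀ i, |(a i : ℝ)| ≤ H := by
      intro i
      have := (mem_Av.1 ha) i
      exact_mod_cast this
    have hc2 : (pol q a 0).coeff (q + 2) = a (Fin.last (q + 1)) := pol_coeff_succ q a 0 (Fin.last (q + 1))
    refine hH0 H (le_of_max_le_left hH) (pol q a 0) ?_ ?_ ?_ X hX G hG θ hθ1 hθ2
    · refine le_antisymm (pol_natDegree_le q a 0) (le_natDegree_of_ne_zero ?_)
      rw [hc2]
      exact_mod_cast h0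
    · exact pol_coeff_abs q a 0 hHp.le haR (by simp)
    · rw [hc2]; exact hlast
  rw [hsum, ← Finset.sum_filter_add_sum_filter_not (Av q H)
    (fun a => |(a (Fin.last (q + 1)) : ℝ)| < T)]
  refine (norm_add_le _ _).trans ?_
  have hA : ‖∑ a ∈ (Av q H).filter (fun a => |(a (Fin.last (q + 1)) : ℝ)| < T), F a‖ ≤
      3 ^ (q + 1) * 3 * ((q + 2) * 3) * (H : ℝ) ^ ((q : ℝ) + 3 - min δ ρ) := by
    calc _ ≤ ∑ a ∈ (Av q H).filter (fun a => |(a (Fin.last (q + 1)) : ℝ)| < T), ‖F a‖ :=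
          norm_sum_le _ _
      _ ≤ ∑ _a ∈ (Av q H).filter (fun a => |(a (Fin.last (q + 1)) : ℝ)| < T),
          (((q : ℝ) + 2) * (2 * H + 1)) := sum_le_sum fun a _ => htriv a
      _ = (((Av q H).filter (fun a => |(a (Fin.last (q + 1)) : ℝ)| < T)).card : ℝ) *
          (((q : ℝ) + 2) * (2 * H + 1)) := by rw [sum_const, nsmul_eq_mul]
      _ ≤ ((2 * H + 1) ^ (q + 1) * (2 * T + 1)) * (((q : ℝ) + 2) * (2 * H + 1)) := by
          have := card_small q H T (by linarith)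
          gcongr
      _ ≤ ((3 * (H : ℝ)) ^ (q + 1) * (3 * T)) * (((q : ℝ) + 2) * (3 * H)) := by
          have : 2 * T + 1 ≤ 3 * T := by linarith
          gcongr
      _ = 3 ^ (q + 1) * 3 * ((q + 2) * 3) * ((H : ℝ) ^ (q + 1) * T * H) := by
          rw [mul_pow]; ring
      _ = 3 ^ (q + 1) * 3 * ((q + 2) * 3) * (H : ℝ) ^ ((q : ℝ) + 3 - δ) := by
          congr 1
          rw [hT, ← Real.rpow_natCast (H : ℝ) (q + 1), hadd]
          nth_rewrite 2 [← Real.rpow_one (H : ℝ)]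
          rw [hadd]
          congr 1
          push_cast
          ring
      _ ≤ _ := by
          refine mul_le_mul_of_nonneg_left (Real.rpow_le_rpow_of_exponent_le hHR ?_) (by positivity)
          linarith [min_le_left δ ρ]
  have hB : ‖∑ a ∈ (Av q H).filter (fun a => ¬ |(a (Fin.last (q + 1)) : ℝ)| < T), F a‖ ≤
      3 ^ (q + 2) * Cc * (H : ℝ) ^ ((q : ℝ) + 3 - min δ ρ) := by
    calc _ ≤ ∑ a ∈ (Av q H).filter (fun a => ¬ |(a (Fin.last (q + 1)) : ℝ)| < T), ‖F a‖ :=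
          norm_sum_le _ _
      _ ≤ ∑ _a ∈ (Av q H).filter (fun a => ¬ |(a (Fin.last (q + 1)) : ℝ)| < T),
          Cc * (H : ℝ) ^ (1 - ρ) := by
          refine sum_le_sum fun a ha => ?_
          rw [Finset.mem_filter] at ha
          exact hgood a ha.1 ha.2
      _ = (((Av q H).filter (fun a => ¬ |(a (Fin.last (q + 1)) : ℝ)| < T)).card : ℝ) *
          (Cc * (H : ℝ) ^ (1 - ρ)) := by rw [sum_const, nsmul_eq_mul]
      _ ≤ (3 * (H : ℝ)) ^ (q + 2) * (Cc * (H : ℝ) ^ (1 - ρ)) := by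
          have h1 : (((Av q H).filter (fun a => ¬ |(a (Fin.last (q + 1)) : ℝ)| < T)).card : ℝ) ≤
              (3 * (H : ℝ)) ^ (q + 2) := by
            calc _ ≤ ((Av q H).card : ℝ) := by exact_mod_cast Finset.card_filter_le _ _
              _ = (2 * (H : ℝ) + 1) ^ (q + 2) := by rw [card_Av]; push_cast; ring
              _ ≤ _ := by gcongr
          gcongr
      _ = 3 ^ (q + 2) * Cc * (H : ℝ) ^ ((q : ℝ) + 3 - ρ) := by
          rw [mul_pow, ← Real.rpow_natCast (H : ℝ) (q + 2)]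
          have e1 : (H : ℝ) ^ ((q : ℝ) + 3 - ρ) = (H : ℝ) ^ (((q + 2 : ℕ) : ℝ)) * (H : ℝ) ^ (1 - ρ) := by
            rw [hadd]
            congr 1
            push_cast
            ring
          rw [e1]
          ring
      _ ≤ _ := by
          refine mul_le_mul_of_nonneg_left (Real.rpow_le_rpow_of_exponent_le hHR ?_) (by positivity)
          linarith [min_le_right δ ρ]
  calc _ ≤ 3 ^ (q + 1) * 3 * ((q + 2) * 3) * (H : ℝ) ^ ((q : ℝ) + 3 - min δ ρ) +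
        3 ^ (q + 2) * Cc * (H : ℝ) ^ ((q : ℝ) + 3 - min δ ρ) := add_le_add hA hB
    _ = _ := by ring


/-- **the exponential sums over the real algebraic numbers of degree `q + 2`, ordered by height** -/
theorem algG (q K : ℕ) (hK : 1 ≤ K) (δ1 : ℝ) (hδ1 : 0 < δ1) :
    ∃ κ : ℝ, 0 < κ ∧ ∃ ρ : ℝ, 0 < ρ ∧ ∃ H0 : ℕ, ∀ H : ℕ, H0 ≤ H → (Alg (q + 2) H).Nonempty ∧
      ∀ G : ℝ[X], Shape κ H q G →
      ∀ θ : ℝ, (H : ℝ) ^ δ1 ≤ |θ| → |θ| ≤ (H : ℝ) ^ (K : ℝ) →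
      ∀ s : Finset ℝ, (∀ x, x ∈ s ↔ x ∈ Alg (q + 2) H) →
      ‖∑ x ∈ s, e (θ * G.eval x)‖ ≤ s.card * (H : ℝ) ^ (-ρ) := by
  classical
  obtain ⟨κ0, hκ0, ρ0, hρ0, hρ01, Cc, hCc, H0, hH0⟩ := totG q (3 * K) (by omega) δ1 hδ1
  obtain ⟨Cq, hCq, halg⟩ := alg_le q
  obtain ⟨ρ1, hρ1⟩ : ∃ ρ1 : ℝ, ρ1 = min ρ0 (1 / 2) := ⟨_, rfl⟩
  have hρ1p : 0 < ρ1 := by rw [hρ1]; exact lt_min hρ0 (by norm_num)
  have hρ1a : ρ1 ≤ ρ0 := by rw [hρ1]; exact min_le_left _ _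
  have hρ1b : ρ1 ≤ 1 / 2 := by rw [hρ1]; exact min_le_right _ _
  obtain ⟨C1, hC1⟩ : ∃ C1 : ℝ, C1 = 3 ^ (q + 3) * (q + 2) := ⟨_, rfl⟩
  have hC10 : 0 ≤ C1 := by rw [hC1]; positivity
  have hqR : (0 : ℝ) ≤ q := Nat.cast_nonneg q
  obtain ⟨H1, hH1⟩ := eventually_atTop.1 (ev_le (2 * (Cc + C1) + Cq) (ρ1 / 2) (by positivity))
  obtain ⟨H2, hH2⟩ := eventually_atTop.1 (Alg_many q (ρ1 / 4) (by positivity))
  obtain ⟨H3, hH3⟩ := eventually_atTop.1 (ev_le ((H0 : ℝ) + 2) (1 / 6) (by positivity))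
  refine ⟨κ0 / 3, by positivity, ρ1 / 4, by positivity, max (max H1 H2) (max H3 1),
    fun H hH => ?_⟩
  have hHa : H1 ≤ H := le_of_max_le_left (le_of_max_le_left hH)
  have hHb : H2 ≤ H := le_of_max_le_right (le_of_max_le_left hH)
  have hHc : H3 ≤ H := le_of_max_le_left (le_of_max_le_right hH)
  have hH1' : 1 ≤ H := le_of_max_le_right (le_of_max_le_right hH)
  have hHR : (1 : ℝ) ≤ H := by exact_mod_cast hH1'
  have hHp : (0 : ℝ) < H := by linarith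
  refine ⟨?_, ?_⟩
  · rw [Set.nonempty_iff_ne_empty]
    intro h
    have h1 := hH2 H hHb
    rw [h, Set.ncard_empty, Nat.cast_zero] at h1
    have h2 : 0 < (H : ℝ) ^ ((q : ℝ) + 3 - ρ1 / 4) := by positivity
    linarith
  intro G hG θ hθ1 hθ2 s hs
  have hncard : (Alg (q + 2) H).ncard = s.card := by
    rw [← Set.ncard_coe_finset]
    congr 1
    ext x
    rw [Finset.mem_coe, hs]
  have hmany := hH2 H hHb
  rw [hncard] at hmany
  have hbig := hH3 H hHc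
  have hH0p : (0 : ℝ) ≤ H0 := Nat.cast_nonneg _
  have h16 : 1 ≤ (H : ℝ) ^ ((1 : ℝ) / 6) := Real.one_le_rpow hHR (by norm_num)
  -- the integral part of the square root
  have hsq : (H : ℝ) ^ ((1 : ℝ) / 3) ≤ ((Nat.sqrt H : ℕ) : ℝ) := by
    have h1 : (H : ℝ) ^ ((1 : ℝ) / 2) < (Nat.sqrt H : ℕ) + 1 := by
      rw [← Real.sqrt_eq_rpow]
      exact Real.real_sqrt_lt_nat_sqrt_succ
    have h2 : (H : ℝ) ^ ((1 : ℝ) / 2) = (H : ℝ) ^ ((1 : ℝ) / 3) * (H : ℝ) ^ ((1 : ℝ) / 6) := by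
      rw [← Real.rpow_add hHp]
      norm_num
    have h3 : 1 ≤ (H : ℝ) ^ ((1 : ℝ) / 3) := Real.one_le_rpow hHR (by norm_num)
    nlinarith
  have hHH0 : (H0 : ℝ) ≤ (H : ℝ) ^ ((1 : ℝ) / 3) := by
    have h2 : (H : ℝ) ^ ((1 : ℝ) / 3) = (H : ℝ) ^ ((1 : ℝ) / 6) * (H : ℝ) ^ ((1 : ℝ) / 6) := by
      rw [← Real.rpow_add hHp]
      norm_num
    rw [h2]
    nlinarith
  have hterm : ∀ g ∈ Finset.Icc 1 H, ‖∑ p ∈ Om q (H / g), e (θ * G.eval p.2.2)‖ ≤
      (Cc + C1) * (H : ℝ) ^ ((q : ℝ) + 3 - ρ1) * ((g : ℝ) ^ 2)⁻¹ := by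
    intro g hg
    rw [Finset.mem_Icc] at hg
    obtain ⟨hg1, hg2⟩ := hg
    have hgR : (1 : ℝ) ≤ g := by exact_mod_cast hg1
    have hgp : (0 : ℝ) < g := by linarith
    have hh1 : 1 ≤ H / g := (Nat.one_le_div_iff hg1).2 hg2
    have hhR : (1 : ℝ) ≤ ((H / g : ℕ) : ℝ) := by exact_mod_cast hh1
    have hhle : ((H / g : ℕ) : ℝ) ≤ (H : ℝ) / g := Nat.cast_div_le
    have hhH : ((H / g : ℕ) : ℝ) ≤ H := by
      have : H / g ≤ H := Nat.div_le_self _ _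
      exact_mod_cast this
    have hginv : ∀ t : ℝ, 2 ≤ t → ((H : ℝ) / g) ^ t ≤ (H : ℝ) ^ t * ((g : ℝ) ^ 2)⁻¹ := by
      intro t ht
      rw [Real.div_rpow hHp.le hgp.le, div_eq_mul_inv]
      apply mul_le_mul_of_nonneg_left _ (by positivity)
      apply inv_anti₀ (by positivity)
      rw [← Real.rpow_natCast]
      exact Real.rpow_le_rpow_of_exponent_le hgR (by exact_mod_cast ht)
    rcases le_or_gt g (Nat.sqrt H) with hgs | hgs
    · have h1 : Nat.sqrt H ≤ H / g := by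
        rw [Nat.le_div_iff_mul_le (by omega)]
        calc Nat.sqrt H * g ≤ Nat.sqrt H * Nat.sqrt H := Nat.mul_le_mul_left _ hgs
          _ ≤ H := Nat.sqrt_le H
      have h2 : (H : ℝ) ^ ((1 : ℝ) / 3) ≤ ((H / g : ℕ) : ℝ) := by
        refine hsq.trans ?_
        exact_mod_cast h1
      have h3 : H0 ≤ H / g := by
        have : (H0 : ℝ) ≤ ((H / g : ℕ) : ℝ) := hHH0.trans h2
        exact_mod_cast this
      have h4 : ∀ t : ℝ, 0 ≤ t → (H : ℝ) ^ (t / 3) ≤ ((H / g : ℕ) : ℝ) ^ t := by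
        intro t ht
        calc (H : ℝ) ^ (t / 3) = ((H : ℝ) ^ ((1 : ℝ) / 3)) ^ t := by
              rw [← Real.rpow_mul hHp.le]
              congr 1
              ring
          _ ≤ _ := Real.rpow_le_rpow (by positivity) h2 ht
      have hG' : Shape κ0 ((H / g : ℕ) : ℝ) q G := by
        obtain ⟨hG1, hG2, i, hi, hi2⟩ := hG
        refine ⟨hG1, fun i hi => (hG2 i hi).trans (h4 κ0 hκ0.le), i, hi, le_trans ?_ hi2⟩
        rw [Real.rpow_neg (by positivity), Real.rpow_neg hHp.le]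
        exact inv_anti₀ (by positivity) (h4 κ0 hκ0.le)
      have h5 := hH0 (H / g) h3 G hG' θ (le_trans ?_ hθ1) (hθ2.trans ?_)
      · refine h5.trans ?_
        calc Cc * ((H / g : ℕ) : ℝ) ^ ((q : ℝ) + 3 - ρ0) ≤
              Cc * ((H : ℝ) / g) ^ ((q : ℝ) + 3 - ρ0) := by
              apply mul_le_mul_of_nonneg_left _ hCc
              exact Real.rpow_le_rpow (by positivity) hhle (by linarith)
          _ ≤ Cc * ((H : ℝ) ^ ((q : ℝ) + 3 - ρ0) * ((g : ℝ) ^ 2)⁻¹) := by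
              apply mul_le_mul_of_nonneg_left _ hCc
              exact hginv _ (by linarith)
          _ ≤ (Cc + C1) * ((H : ℝ) ^ ((q : ℝ) + 3 - ρ1) * ((g : ℝ) ^ 2)⁻¹) := by
              have : (H : ℝ) ^ ((q : ℝ) + 3 - ρ0) ≤ (H : ℝ) ^ ((q : ℝ) + 3 - ρ1) :=
                Real.rpow_le_rpow_of_exponent_le hHR (by linarith)
              gcongr
              linarith
          _ = _ := by ring
      · exact Real.rpow_le_rpow (by positivity) hhH hδ1.le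
      · refine le_trans (le_of_eq ?_) (h4 _ (Nat.cast_nonneg _))
        congr 1
        push_cast
        ring
    · have h1 : (H : ℝ) ^ ((1 : ℝ) / 2) ≤ g := by
        have h2 : (H : ℝ) ^ ((1 : ℝ) / 2) < (Nat.sqrt H : ℕ) + 1 := by
          rw [← Real.sqrt_eq_rpow]
          exact Real.real_sqrt_lt_nat_sqrt_succ
        have h3 : ((Nat.sqrt H : ℕ) : ℝ) + 1 ≤ g := by exact_mod_cast hgs
        linarith
      have h2 : ‖∑ p ∈ Om q (H / g), e (θ * G.eval p.2.2)‖ ≤ ((Om q (H / g)).card : ℝ) := by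
        refine (norm_sum_le _ _).trans (le_of_eq ?_)
        rw [Finset.sum_congr rfl fun p _ => norm_e _, Finset.sum_const, nsmul_eq_mul, mul_one]
      refine h2.trans ((card_Om_le q (H / g) hh1).trans ?_)
      rw [← hC1]
      calc C1 * ((H / g : ℕ) : ℝ) ^ (q + 3) ≤ C1 * ((H : ℝ) / g) ^ (q + 3) := by gcongr
        _ = C1 * ((H : ℝ) ^ (q + 3) * ((g : ℝ) ^ q * (g * (g : ℝ) ^ 2))⁻¹) := by
            rw [div_pow, div_eq_mul_inv]
            congr 3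
            ring
        _ ≤ C1 * ((H : ℝ) ^ (q + 3) * (1 * ((H : ℝ) ^ ((1 : ℝ) / 2) * (g : ℝ) ^ 2))⁻¹) := by
            apply mul_le_mul_of_nonneg_left _ hC10
            apply mul_le_mul_of_nonneg_left _ (by positivity)
            apply inv_anti₀ (by positivity)
            apply mul_le_mul (one_le_pow₀ hgR) _ (by positivity) (by positivity)
            exact mul_le_mul_of_nonneg_right h1 (by positivity)
        _ = C1 * (((H : ℝ) ^ (q + 3) * ((H : ℝ) ^ ((1 : ℝ) / 2))⁻¹) * ((g : ℝ) ^ 2)⁻¹) := by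
            rw [one_mul, mul_inv]
            ring
        _ ≤ C1 * ((H : ℝ) ^ ((q : ℝ) + 3 - ρ1) * ((g : ℝ) ^ 2)⁻¹) := by
            have e1 : (H : ℝ) ^ (q + 3) * ((H : ℝ) ^ ((1 : ℝ) / 2))⁻¹ ≤
                (H : ℝ) ^ ((q : ℝ) + 3 - ρ1) := by
              rw [← Real.rpow_neg hHp.le, ← Real.rpow_natCast (H : ℝ) (q + 3), ← Real.rpow_add hHp]
              apply Real.rpow_le_rpow_of_exponent_le hHR
              push_cast
              linarith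
            gcongr
        _ ≤ (Cc + C1) * ((H : ℝ) ^ ((q : ℝ) + 3 - ρ1) * ((g : ℝ) ^ 2)⁻¹) := by
            apply mul_le_mul_of_nonneg_right _ (by positivity)
            linarith
        _ = _ := by ring
  have h1 := halg H hH1' (fun x => e (θ * G.eval x)) (fun x => (norm_e _).le) s hs
  have h2 : ∑ g ∈ Finset.Icc 1 H, ‖∑ p ∈ Om q (H / g), e (θ * G.eval p.2.2)‖ ≤
      (Cc + C1) * (H : ℝ) ^ ((q : ℝ) + 3 - ρ1) * 2 := by
    refine (Finset.sum_le_sum hterm).trans ?_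
    rw [← Finset.mul_sum]
    apply mul_le_mul_of_nonneg_left (sum_sq H hH1') (by positivity)
  have h3 : (H : ℝ) ^ (q + 2) * Real.sqrt H ≤ (H : ℝ) ^ ((q : ℝ) + 3 - ρ1) := by
    rw [Real.sqrt_eq_rpow, ← Real.rpow_natCast (H : ℝ) (q + 2), ← Real.rpow_add hHp]
    apply Real.rpow_le_rpow_of_exponent_le hHR
    push_cast
    linarith
  have h4 : ‖∑ x ∈ s, e (θ * G.eval x)‖ ≤
      (2 * (Cc + C1) + Cq) * (H : ℝ) ^ ((q : ℝ) + 3 - ρ1) := by
    have h5 : Cq * ((H : ℝ) ^ (q + 2) * Real.sqrt H) ≤ Cq * (H : ℝ) ^ ((q : ℝ) + 3 - ρ1) :=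
      mul_le_mul_of_nonneg_left h3 hCq
    have h6 := h1.trans (add_le_add h2 h5)
    refine h6.trans (le_of_eq ?_)
    ring
  refine h4.trans ?_
  calc (2 * (Cc + C1) + Cq) * (H : ℝ) ^ ((q : ℝ) + 3 - ρ1) ≤
        (H : ℝ) ^ (ρ1 / 2) * (H : ℝ) ^ ((q : ℝ) + 3 - ρ1) := by
        apply mul_le_mul_of_nonneg_right (hH1 H hHa) (by positivity)
    _ = (H : ℝ) ^ ((q : ℝ) + 3 - ρ1 / 4) * (H : ℝ) ^ (-(ρ1 / 4)) := by
        rw [← Real.rpow_add hHp, ← Real.rpow_add hHp]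
        congr 1
        ring
    _ ≤ _ := by gcongr

end Pool.Agent.K7.H79.ND
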