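import Pool.Agent.K7.H79.ND.RootG

/-!
# One polynomial: the exponential sum, phases with arbitrary large coefficients (helper79, after helper933)
-/

set_option autoImplicit false

namespace Pool.Agent.K7.H79.ND

open Finset Polynomial Filter
open Pool.Agent.H469R2.NK (e norm_e e_add)
open Pool.Agent.Y933.KD.VdC (ev_le)
open Pool.Agent.Y933.KG

/-- the phases: polynomials of degree at most `q + 1` whose coefficients, other than the constant one,
are at most `h ^ δ`, and one of them at least `h ^ (-δ)` -/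
def Shape (δ h : ℝ) (q : ℕ) (F : ℝ[X]) : Prop :=
  F.natDegree ≤ q + 1 ∧ (∀ i, 1 ≤ i → |F.coeff i| ≤ h ^ δ) ∧ ∃ i, 1 ≤ i ∧ h ^ (-δ) ≤ |F.coeff i|

lemma Shape.pos {δ h : ℝ} (hh : 0 < h) {q : ℕ} {F : ℝ[X]} (hF : Shape δ h q F) : 1 ≤ F.natDegree := by
  obtain ⟨_, _, i, hi, hi2⟩ := hF
  by_contra h0
  rw [coeff_eq_zero_of_natDegree_lt (by omega), abs_zero] at hi2
  have : 0 < h ^ (-δ) := by positivity
  linarith

/-- the sum over all points where a polynomial of height `H` takes integral values of size at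
most `H` -/
theorem tupG (q K : ℕ) (hK : 1 ≤ K) (δ1 : ℝ) (hδ1 : 0 < δ1) :
    ∃ δ : ℝ, 0 < δ ∧ δ ≤ 1 / 2 ∧ ∃ ρ : ℝ, 0 < ρ ∧ ρ ≤ 1 ∧ ∃ Cc : ℝ, 0 ≤ Cc ∧ ∃ H0 : ℕ,
      ∀ H : ℕ, H0 ≤ H → ∀ P : ℝ[X], P.natDegree = q + 2 → (∀ i, |P.coeff i| ≤ H) →
      (H : ℝ) ^ (1 - δ) ≤ |P.coeff (q + 2)| →
      ∀ X : Finset ℝ, (∀ x, x ∈ X ↔ ∃ c : ℤ, |(c : ℝ)| ≤ H ∧ P.eval x = c) →
      ∀ F : ℝ[X], Shape δ H q F →
      ∀ θ : ℝ, (H : ℝ) ^ δ1 ≤ |θ| → |θ| ≤ (H : ℝ) ^ (K : ℝ) →
      ‖∑ x ∈ X, e (θ * F.eval x)‖ ≤ Cc * (H : ℝ) ^ (1 - ρ) := by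
  classical
  set μ : ℝ := min (δ1 / 2) (1 / 4) with hμ
  have hμ0 : 0 < μ := lt_min (by positivity) (by norm_num)
  have hμ1 : μ ≤ 1 / 4 := min_le_right _ _
  have hμ2 : μ ≤ δ1 / 2 := min_le_left _ _
  obtain ⟨ρ0, hρ0, M0, hM0⟩ := comp_sum K hK μ hμ0 hμ1
  obtain ⟨C0, hC00, hC0⟩ := Nm_up K 0
  obtain ⟨C2, hC20, hC2⟩ := big_coeff q K
  have hKR : (1 : ℝ) ≤ K := by exact_mod_cast hK
  have hqR : (0 : ℝ) ≤ q := Nat.cast_nonneg q
  set b1 : ℝ := (K + 2 + q * (K + 1)) + (2 * q + 9) * (q + K * q) + (2 * K + 1) * (2 * q + 5) with hb1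
  set b2 : ℝ := 1 + (2 * q + 6) + K * (2 * q + 5) + (2 * K + 1) * (1 + (2 * q + 6) * (q + 1))
    with hb2
  have hb10 : 1 ≤ b1 := by
    rw [hb1]
    have : 0 ≤ (2 * (q : ℝ) + 9) * (q + K * q) := by positivity
    have : 0 ≤ (2 * (K : ℝ) + 1) * (2 * q + 5) := by positivity
    have : 0 ≤ (q : ℝ) * (K + 1) := by positivity
    linarith
  have hb20 : 1 ≤ b2 := by
    rw [hb2]
    have : 0 ≤ (K : ℝ) * (2 * q + 5) := by positivity
    have : 0 ≤ (2 * (K : ℝ) + 1) * (1 + (2 * q + 6) * (q + 1)) := by positivity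
    linarith
  set δ : ℝ := μ / (16 * (b1 + b2)) with hδ
  have hδ0 : 0 < δ := by positivity
  have hδb : δ * (b1 + b2) = μ / 16 := by
    rw [hδ]
    field_simp
  have hδ2 : δ ≤ 1 / 128 := by
    have : δ * 2 ≤ δ * (b1 + b2) := by gcongr; linarith
    linarith
  set Ec : ℕ := (q + K * q) + (q + (K + 1) * q) + (q + 1) with hEc
  set Bf : ℕ := 3 * (q + 2) with hBf
  obtain ⟨H1, hH1⟩ := eventually_atTop.1 ((((ev_le 4 δ hδ0).and
    (ev_le ((q + 3).factorial : ℝ) δ hδ0)).and (ev_le C0 δ hδ0)).and (ev_le (2 * C2) δ hδ0))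
  refine ⟨δ, hδ0, by linarith, min ρ0 δ, lt_min hρ0 hδ0, (min_le_right _ _).trans (by linarith),
    Ec * ((q + 2) * 5) + (Ec + 1) * (2 + (Bf : ℝ)), by positivity, max (max H1 M0) (max Bf 1), ?_⟩
  intro H hH P hP hco hlead X hX F hF θ hθ1 hθ2
  obtain ⟨⟨⟨hHa, hHb⟩, hHc⟩, hHd⟩ := hH1 H (le_of_max_le_left (le_of_max_le_left hH))
  have hHM0 : M0 ≤ H := le_of_max_le_right (le_of_max_le_left hH)
  have hHB : Bf ≤ H := le_of_max_le_left (le_of_max_le_right hH)
  have hH11 : 1 ≤ H := le_of_max_le_right (le_of_max_le_right hH)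
  set h : ℝ := (H : ℝ) with hh
  have hh1 : 1 ≤ h := by rw [hh]; exact_mod_cast hH11
  have hh0 : 0 < h := by linarith
  have hF1 := hF.pos hh0
  obtain ⟨hF2, hFco, hFex⟩ := hF
  obtain ⟨s, hFs⟩ : ∃ s, F.natDegree = s + 1 := ⟨F.natDegree - 1, by omega⟩
  have hsq : s ≤ q := by omega
  have hadd : ∀ x y : ℝ, h ^ x * h ^ y = h ^ (x + y) := fun x y => (Real.rpow_add hh0 x y).symm
  have hnat : ∀ (x : ℝ) (n : ℕ), (h ^ x) ^ n = h ^ (x * n) := by
    intro x n
    rw [Real.rpow_mul hh0.le, Real.rpow_natCast]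
  have hmono : ∀ x y : ℝ, x ≤ y → h ^ x ≤ h ^ y := fun x y hxy =>
    Real.rpow_le_rpow_of_exponent_le hh1 hxy
  set a := |P.coeff (q + 2)| with ha
  have hapos : 0 < a := lt_of_lt_of_le (by positivity) hlead
  -- the size of the points
  set R : ℝ := h ^ (2 * δ) with hR
  have hR1 : 1 ≤ R := Real.one_le_rpow hh1 (by positivity)
  have hXR : ∀ x ∈ X, |x| ≤ R := by
    intro x hx
    obtain ⟨c, hc, hxc⟩ := (hX x).1 hx
    have h1 := root_size hP hh0.le hco hc hxc
    refine h1.trans ?_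
    have h2 : 2 * h / a ≤ 2 * h ^ δ := by
      rw [div_le_iff₀ hapos]
      calc 2 * h = 2 * (h ^ δ * h ^ (1 - δ)) := by
            rw [hadd, add_sub_cancel, Real.rpow_one]
        _ ≤ 2 * (h ^ δ * a) := by gcongr
        _ = _ := by ring
    have h3 : 1 ≤ h ^ δ := Real.one_le_rpow hh1 hδ0.le
    calc 2 * h / a + 1 ≤ 4 * h ^ δ := by linarith
      _ ≤ h ^ δ * h ^ δ := by gcongr
      _ = R := by rw [hadd, hR]; congr 1; ring
  -- the size of the derivatives
  set Λ : ℝ := h ^ (1 + (2 * q + 5) * δ) with hΛ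
  have hΛ0 : 0 < Λ := by positivity
  have hder : ∀ x, |x| ≤ R → ∀ r, 1 ≤ r → |(derivative^[r] P).eval x| ≤ Λ := by
    intro x hx r hr
    refine (deriv_bound hP.le hh0.le (fun i _ => hco i) hR1 hx r hr).trans ?_
    calc ((q + 3).factorial : ℝ) * h * R ^ (q + 2) ≤ h ^ δ * h ^ (1 : ℝ) * R ^ (q + 2) := by
          rw [Real.rpow_one]
          gcongr
      _ = Λ := by
          rw [hR, hnat, hadd, hadd, hΛ]
          congr 1
          push_cast
          ring
  have hder1 : ∀ x, |x| ≤ R → |(derivative P).eval x| ≤ Λ := fun x hx => by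
    simpa using hder x hx 1 le_rfl
  set Φ : ℝ := h ^ ((2 * q + 6) * δ) with hΦ
  have hΦ0 : 0 < Φ := by positivity
  have hderF : ∀ x, |x| ≤ R → ∀ r, 1 ≤ r → |(derivative^[r] F).eval x| ≤ Φ := by
    intro x hx r hr
    refine (deriv_bound (q := q) (by omega) (by positivity : (0 : ℝ) ≤ h ^ δ) hFco hR1 hx r hr).trans ?_
    calc ((q + 3).factorial : ℝ) * h ^ δ * R ^ (q + 2) ≤ h ^ δ * h ^ δ * R ^ (q + 2) := by
          gcongr
      _ = Φ := by
          rw [hR, hnat, hadd, hadd, hΦ]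
          congr 1
          push_cast
          ring
  -- the points to avoid
  obtain ⟨E, hEcard, hE0⟩ := avoidG hP hFs hsq K
  set ρ : ℝ := h ^ (-((2 * q + 6) * δ)) with hρ
  have hρ0' : 0 < ρ := by positivity
  have hρ1' : ρ ≤ 1 := Real.rpow_le_one_of_one_le_of_nonpos hh1 (by
    have : 0 ≤ (2 * (q : ℝ) + 6) * δ := by positivity
    linarith)
  -- a large coefficient of the numerator
  obtain ⟨ee, hee, hee1, hee2⟩ := choose_e hF2 (τ := (K + 1) * δ) hh1 (by positivity) hFex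
  set lam : ℝ := h ^ (K - δ * (K + 2 + q * (K + 1))) with hlam
  have hlam0 : 0 < lam := by positivity
  have hbigc : lam ≤ |(Nm P F K).coeff (ee + K * q)| := by
    refine le_trans ?_ (hC2 P F h _ ee hh0.le (by positivity) hP.le hF2 hee (fun i _ => hco i) hee2)
    have heeR : (ee : ℝ) ≤ q := by exact_mod_cast hee
    have h1 : h ^ (-(δ + ee * ((K + 1) * δ))) * (h ^ (1 - δ)) ^ K ≤
        |F.coeff (ee + 1)| * |P.coeff (q + 2)| ^ K := by gcongr
    have h2 : C2 * (h ^ (-(δ + (ee + 1) * ((K + 1) * δ))) * h ^ K) ≤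
        1 / 2 * (h ^ (-(δ + ee * ((K + 1) * δ))) * (h ^ (1 - δ)) ^ K) := by
      have e1 : h ^ (-(δ + ee * ((K + 1) * δ))) * (h ^ (1 - δ)) ^ K =
          h ^ δ * (h ^ (-(δ + (ee + 1) * ((K + 1) * δ))) * h ^ K) := by
        rw [hnat, ← Real.rpow_natCast h K, hadd, hadd, hadd]
        congr 1
        ring
      rw [e1]
      have h3 : 0 ≤ h ^ (-(δ + (ee + 1) * ((K + 1) * δ))) * h ^ K := by positivity
      nlinarith
    have h3 : lam ≤ 1 / 2 * (h ^ (-(δ + ee * ((K + 1) * δ))) * (h ^ (1 - δ)) ^ K) := by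
      have h4 : h ^ δ * lam ≤ h ^ (-(δ + ee * ((K + 1) * δ))) * (h ^ (1 - δ)) ^ K := by
        rw [hlam, hnat, hadd, hadd]
        apply hmono
        have h5 : (ee : ℝ) * ((K + 1) * δ) ≤ q * ((K + 1) * δ) := by gcongr
        nlinarith
      nlinarith
    linarith
  have hE : ∀ x r : ℝ, 0 < r → r ≤ 1 → |x| ≤ R → (∀ t ∈ E, r ≤ |x - t|) →
      lam * (r / (4 * R)) ^ (q + K * q) ≤ |(Nm P F K).eval x| ∧
      (Nm P F (K + 1)).eval x ≠ 0 ∧ |P.coeff (q + 2)| * r ^ (q + 1) ≤ |(derivative P).eval x| := by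
    intro x r hr hr1 hx ht
    obtain ⟨h1, h2, h3⟩ := hE0 x r R hr hr1 hR1 hx ht
    refine ⟨le_trans ?_ (h1 (ee + K * q)), h2, h3⟩
    gcongr
  have hE' : ∀ x r : ℝ, 0 < r → r ≤ 1 → (∀ t ∈ E, r ≤ |x - t|) →
      |P.coeff (q + 2)| * r ^ (q + 1) ≤ |(derivative P).eval x| := by
    intro x r hr hr1 ht
    exact (hE0 x r (max R |x|) hr hr1 (hR1.trans (le_max_left _ _)) (le_max_right _ _) ht).2.2
  have h4R : h ^ (-((2 * q + 9) * δ)) ≤ ρ / (4 * R) := by
    rw [le_div_iff₀ (by positivity)]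
    calc h ^ (-((2 * q + 9) * δ)) * (4 * R) ≤ h ^ (-((2 * q + 9) * δ)) * (h ^ δ * R) := by gcongr
      _ = ρ := by
          rw [hR, hρ, hadd, hadd]
          congr 1
          ring
  set lo : ℝ := h ^ (-((K : ℝ) + 1) - δ * b1) with hlo
  set hi : ℝ := h ^ (-((K : ℝ) + 1) + δ * b2) with hhi
  have hlo0 : 0 < lo := by positivity
  have hsize : ∀ x, |x| ≤ R → (∀ t ∈ E, ρ ≤ |x - t|) →
      lo ≤ |(Nm P F K).eval x / ((derivative P).eval x) ^ (2 * K + 1)| ∧
        |(Nm P F K).eval x / ((derivative P).eval x) ^ (2 * K + 1)| ≤ hi ∧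
        (Nm P F (K + 1)).eval x ≠ 0 := by
    intro x hx hfar
    obtain ⟨h1, h2, h3⟩ := hE x ρ hρ0' hρ1' hx hfar
    have h4 := hder1 x hx
    have h5 : |(Nm P F K).eval x| ≤ C0 * (Φ * Λ ^ K) := by
      have := hC0 P F x Φ Λ hΦ0.le hΛ0.le (fun r hr => hder x hx r hr) (fun r hr => hderF x hx r hr)
      simpa using this
    have h6 : 0 < |(derivative P).eval x| := lt_of_lt_of_le (by positivity) h3
    rw [abs_div, abs_pow]
    refine ⟨?_, ?_, h2⟩
    · rw [le_div_iff₀ (by positivity)]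
      calc lo * |(derivative P).eval x| ^ (2 * K + 1) ≤ lo * Λ ^ (2 * K + 1) := by gcongr
        _ = lam * (h ^ (-((2 * q + 9) * δ))) ^ (q + K * q) := by
            rw [hlo, hΛ, hlam, hnat, hnat, hadd, hadd]
            congr 1
            rw [hb1]
            push_cast
            ring
        _ ≤ lam * (ρ / (4 * R)) ^ (q + K * q) := by gcongr
        _ ≤ _ := h1
    · rw [div_le_iff₀ (by positivity)]
      calc |(Nm P F K).eval x| ≤ C0 * (Φ * Λ ^ K) := h5
        _ ≤ h ^ δ * (Φ * Λ ^ K) := by gcongr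
        _ = hi * (h ^ (1 - δ) * ρ ^ (q + 1)) ^ (2 * K + 1) := by
            rw [hhi, hΦ, hΛ, hρ, hnat, hnat, hadd, hadd, hadd, hnat, hadd]
            congr 1
            rw [hb2]
            push_cast
            ring
        _ ≤ hi * (a * ρ ^ (q + 1)) ^ (2 * K + 1) := by gcongr
        _ ≤ hi * |(derivative P).eval x| ^ (2 * K + 1) := by gcongr
  -- the number of all points
  set M : ℕ := Bf * H with hM
  have hMH : H ≤ M := by
    rw [hM]
    exact Nat.le_mul_of_pos_left _ (by omega)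
  have hXcard : X.card ≤ M := by
    have h1 := count_short hP X 0 h hh0.le (by
      intro x hx
      obtain ⟨c, hc, hxc⟩ := (hX x).1 hx
      refine ⟨c, hxc, ?_⟩
      simpa using hc)
    have h2 : (X.card : ℝ) ≤ (M : ℝ) := by
      refine h1.trans ?_
      rw [hM, hBf]
      push_cast
      rw [← hh]
      nlinarith
    exact_mod_cast h2
  have hMR : h ≤ (M : ℝ) := by rw [hh]; exact_mod_cast hMH
  have hM1 : (1 : ℝ) ≤ M := hh1.trans hMR
  have hM2 : (M : ℝ) ≤ h ^ (2 : ℝ) := by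
    rw [hM, Real.rpow_two]
    push_cast
    rw [← hh, pow_two]
    have : ((Bf : ℕ) : ℝ) ≤ h := by rw [hh]; exact_mod_cast hHB
    gcongr
  have hMp : (0 : ℝ) < M := by linarith
  -- one component
  set Xf := X.filter (fun x => ∀ t ∈ E, ρ ≤ |x - t|) with hXf
  set κ : ℝ → ℕ := fun x => (E.filter (fun t => t < x)).card with hκ
  have hθ0 : θ ≠ 0 := by
    intro h0
    rw [h0, abs_zero] at hθ1
    have : 0 < h ^ δ1 := by positivity
    linarith
  have hcond1 : hi ≤ lo * (M : ℝ) ^ (μ / 4) := by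
    calc hi = lo * h ^ (μ / 16) := by
          rw [hhi, hlo, hadd, ← hδb]
          congr 1
          ring
      _ ≤ lo * h ^ (μ / 4) := by
          refine mul_le_mul_of_nonneg_left (hmono _ _ ?_) hlo0.le
          linarith
      _ ≤ lo * (M : ℝ) ^ (μ / 4) := by gcongr
  have hcond2 : |θ| * lo ≤ (M : ℝ) ^ (-μ) := by
    calc |θ| * lo ≤ h ^ (K : ℝ) * h ^ (-((K : ℝ) + 1)) := by
          refine mul_le_mul hθ2 (hmono _ _ ?_) hlo0.le (by positivity)
          have : 0 ≤ δ * b1 := by positivity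
          linarith
      _ = h ^ (-1 : ℝ) := by
          rw [hadd]
          congr 1
          ring
      _ = (h ^ (2 : ℝ)) ^ (-(1 / 2) : ℝ) := by
          rw [← Real.rpow_mul hh0.le]
          norm_num
      _ ≤ (M : ℝ) ^ (-(1 / 2) : ℝ) :=
          Real.rpow_le_rpow_of_nonpos hMp hM2 (by norm_num)
      _ ≤ (M : ℝ) ^ (-μ) := Real.rpow_le_rpow_of_exponent_le hM1 (by linarith)
  have hcond3 : (M : ℝ) ^ (-((K : ℝ) + 1) + μ) ≤ |θ| * lo := by
    calc (M : ℝ) ^ (-((K : ℝ) + 1) + μ) ≤ h ^ (-((K : ℝ) + 1) + μ) :=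
          Real.rpow_le_rpow_of_nonpos hh0 hMR (by linarith)
      _ ≤ h ^ (δ1 + (-((K : ℝ) + 1) - δ * b1)) := by
          apply hmono
          have h1 : δ * b1 ≤ δ * (b1 + b2) := by
            refine mul_le_mul_of_nonneg_left ?_ hδ0.le
            linarith
          linarith
      _ = h ^ δ1 * lo := by rw [hlo, hadd]
      _ ≤ |θ| * lo := by gcongr
  have hcomp : ∀ r : ℕ, ‖∑ x ∈ Xf.filter (fun x => κ x = r), e (θ * F.eval x)‖ ≤
      2 + (M : ℝ) ^ (1 - ρ0) := by
    intro r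
    have hbet : ∀ x1 ∈ Xf.filter (fun x => κ x = r), ∀ x2 ∈ Xf.filter (fun x => κ x = r),
        ∀ t ∈ E, (t ≤ x1 - ρ ∧ t ≤ x2 - ρ) ∨ (x1 + ρ ≤ t ∧ x2 + ρ ≤ t) ∨ x2 < x1 := by
      intro x1 hx1 x2 hx2 t ht
      rw [Finset.mem_filter, hXf, Finset.mem_filter] at hx1 hx2
      rcases lt_or_ge x2 x1 with h12 | h12
      · exact Or.inr (Or.inr h12)
      have h1 := hx1.1.2 t ht
      have h2 := hx2.1.2 t ht
      rcases lt_or_ge t x1 with h3 | h3
      · left
        rw [abs_of_pos (by linarith)] at h1 h2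
        constructor <;> linarith
      · right; left
        have h4 : x2 ≤ t := by
          by_contra hcon
          push Not at hcon
          have h5 : (E.filter (fun t => t < x1)) ⊂ (E.filter (fun t => t < x2)) := by
            rw [Finset.ssubset_iff_of_subset]
            · exact ⟨t, by rw [Finset.mem_filter]; exact ⟨ht, hcon⟩, by
                rw [Finset.mem_filter]; rintro ⟨_, h6⟩; linarith⟩
            · intro s hs
              rw [Finset.mem_filter] at hs ⊢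
              exact ⟨hs.1, by linarith [hs.2]⟩
          have h6 := Finset.card_lt_card h5
          have h7 := hx1.2
          have h8 := hx2.2
          simp only [hκ] at h7 h8
          omega
        rw [abs_of_nonpos (by linarith)] at h1 h2
        constructor <;> linarith
    have hfarx : ∀ x1 ∈ Xf.filter (fun x => κ x = r), ∀ x2 ∈ Xf.filter (fun x => κ x = r),
        ∀ x, x1 ≤ x → x ≤ x2 → ∀ t ∈ E, ρ ≤ |x - t| := by
      intro x1 hx1 x2 hx2 x h1 h2 t ht
      rcases hbet x1 hx1 x2 hx2 t ht with h3 | h3 | h3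
      · rw [le_abs]; left; linarith [h3.1]
      · rw [le_abs]; right; linarith [h3.2]
      · linarith
    refine hM0 M (hHM0.trans hMH) P F _ lo hi (ρ / 2) hlo0 (by positivity) ?_ ?_ ?_ ?_ ?_ θ hθ0
      hcond1 hcond2 hcond3
    · exact ((Finset.card_filter_le _ _).trans (Finset.card_filter_le _ _)).trans hXcard
    · intro x hx
      rw [Finset.mem_filter, hXf, Finset.mem_filter] at hx
      obtain ⟨c, _, hc⟩ := (hX x).1 hx.1.1
      exact ⟨c, hc⟩
    · intro x1 hx1 x2 hx2 x h1 h2 hc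
      have hfx := hfarx x1 hx1 x2 hx2 x h1 h2
      have hx1' := hx1
      have hx2' := hx2
      rw [Finset.mem_filter, hXf, Finset.mem_filter] at hx1' hx2'
      rw [Finset.mem_filter, hXf, Finset.mem_filter]
      refine ⟨⟨?_, hfx⟩, ?_⟩
      · -- the value lies between the values at the end points
        obtain ⟨c, hc⟩ := hc
        obtain ⟨c1, hc1, hPc1⟩ := (hX x1).1 hx1'.1.1
        obtain ⟨c2, hc2, hPc2⟩ := (hX x2).1 hx2'.1.1
        refine (hX x).2 ⟨c, ?_, hc⟩
        have hne : ∀ y ∈ Set.Icc x1 x2, (derivative P).eval y ≠ 0 := by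
          intro y hy h0
          have h3 := hE' y ρ hρ0' hρ1' (hfarx x1 hx1 x2 hx2 y hy.1 hy.2)
          rw [h0, abs_zero] at h3
          have : 0 < a * ρ ^ (q + 1) := by positivity
          linarith
        have hmon : MonotoneOn (fun y => P.eval y) (Set.Icc x1 x2) ∨
            AntitoneOn (fun y => P.eval y) (Set.Icc x1 x2) := by
          rcases const_sign (derivative P).continuous.continuousOn hne with h3 | h3
          · left
            refine (strictMonoOn_of_deriv_pos (convex_Icc _ _) P.continuous.continuousOn ?_).monotoneOn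
            intro y hy
            rw [interior_Icc] at hy
            rw [Polynomial.deriv]
            exact h3 y ⟨hy.1.le, hy.2.le⟩
          · right
            refine (strictAntiOn_of_deriv_neg (convex_Icc _ _) P.continuous.continuousOn ?_).antitoneOn
            intro y hy
            rw [interior_Icc] at hy
            rw [Polynomial.deriv]
            exact h3 y ⟨hy.1.le, hy.2.le⟩
        have hx1I : x1 ∈ Set.Icc x1 x2 := ⟨le_rfl, h1.trans h2⟩
        have hx2I : x2 ∈ Set.Icc x1 x2 := ⟨h1.trans h2, le_rfl⟩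
        have hxI : x ∈ Set.Icc x1 x2 := ⟨h1, h2⟩
        rw [← hc]
        rw [← hPc1] at hc1
        rw [← hPc2] at hc2
        rw [abs_le] at hc1 hc2 ⊢
        rcases hmon with hm | hm
        · have h3 := hm hx1I hxI h1
          have h4 := hm hxI hx2I h2
          simp only at h3 h4
          constructor <;> linarith [hc1.1, hc1.2, hc2.1, hc2.2]
        · have h3 := hm hx1I hxI h1
          have h4 := hm hxI hx2I h2
          simp only at h3 h4
          constructor <;> linarith [hc1.1, hc1.2, hc2.1, hc2.2]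
      · rw [← hx1'.2]
        simp only [hκ]
        congr 1
        ext t
        simp only [Finset.mem_filter, and_congr_right_iff]
        intro ht
        rcases hbet x1 hx1 x2 hx2 t ht with h3 | h3 | h3
        · constructor
          · intro _; linarith [h3.1]
          · intro _; linarith [h3.1]
        · constructor
          · intro h4; linarith [h3.2]
          · intro h4; linarith [h3.1]
        · linarith
    · intro x1 hx1 x2 hx2 h12 x h1 h2 h0
      have hfar2 : ∀ t ∈ E, ρ / 2 ≤ |x - t| := by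
        intro t ht
        rcases hbet x1 hx1 x2 hx2 t ht with h3 | h3 | h3
        · rw [le_abs]; left; linarith [h3.1]
        · rw [le_abs]; right; linarith [h3.2]
        · linarith
      have h3 := hE' x (ρ / 2) (by positivity) (by linarith) hfar2
      rw [h0, abs_zero] at h3
      have : 0 < a * (ρ / 2) ^ (q + 1) := by positivity
      linarith
    · intro x1 hx1 x2 hx2 x h1 h2
      have hx1' := hx1
      have hx2' := hx2
      rw [Finset.mem_filter, hXf, Finset.mem_filter] at hx1' hx2'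
      refine hsize x ?_ (hfarx x1 hx1 x2 hx2 x h1 h2)
      have h3 := abs_le.1 (hXR x1 hx1'.1.1)
      have h4 := abs_le.1 (hXR x2 hx2'.1.1)
      rw [abs_le]
      constructor <;> linarith
  -- the points near the exceptional ones
  have hnear : ((X.filter (fun x => ¬ ∀ t ∈ E, ρ ≤ |x - t|)).card : ℝ) ≤
      Ec * ((q + 2) * 5) * h ^ (1 - δ) := by
    have h1 : X.filter (fun x => ¬ ∀ t ∈ E, ρ ≤ |x - t|) ⊆
        E.biUnion (fun t => X.filter (fun x => |x - t| < ρ)) := by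
      intro x hx
      rw [Finset.mem_filter] at hx
      obtain ⟨hx1, hx2⟩ := hx
      push Not at hx2
      obtain ⟨t, ht, ht2⟩ := hx2
      rw [Finset.mem_biUnion]
      exact ⟨t, ht, by rw [Finset.mem_filter]; exact ⟨hx1, ht2⟩⟩
    have h2 : ∀ t ∈ E, ((X.filter (fun x => |x - t| < ρ)).card : ℝ) ≤
        (q + 2) * 5 * h ^ (1 - δ) := by
      intro t _
      refine (near_count hP X hΛ0.le hρ0'.le (fun x hx => ⟨hXR x hx, by
        obtain ⟨c, _, hc⟩ := (hX x).1 hx; exact ⟨c, hc⟩⟩) hder1 t).trans ?_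
      have h3 : Λ * ρ = h ^ (1 - δ) := by
        rw [hΛ, hρ, hadd]
        congr 1
        ring
      have h4 : 1 ≤ h ^ (1 - δ) := Real.one_le_rpow hh1 (by linarith)
      have h5 : (2 : ℝ) * (Λ * (2 * ρ)) + 1 ≤ 5 * h ^ (1 - δ) := by
        have e1 : (2 : ℝ) * (Λ * (2 * ρ)) = 4 * (Λ * ρ) := by ring
        rw [e1, h3]
        linarith
      calc ((q : ℝ) + 2) * (2 * (Λ * (2 * ρ)) + 1) ≤ (q + 2) * (5 * h ^ (1 - δ)) := by gcongr
        _ = _ := by ring
    calc ((X.filter (fun x => ¬ ∀ t ∈ E, ρ ≤ |x - t|)).card : ℝ)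
        ≤ ((E.biUnion (fun t => X.filter (fun x => |x - t| < ρ))).card : ℝ) := by
          exact_mod_cast Finset.card_le_card h1
      _ ≤ ∑ t ∈ E, ((X.filter (fun x => |x - t| < ρ)).card : ℝ) := by
          exact_mod_cast Finset.card_biUnion_le
      _ ≤ ∑ _t ∈ E, (q + 2) * 5 * h ^ (1 - δ) := sum_le_sum h2
      _ = E.card * ((q + 2) * 5 * h ^ (1 - δ)) := by rw [sum_const, nsmul_eq_mul]
      _ ≤ Ec * ((q + 2) * 5 * h ^ (1 - δ)) := by
          have : (E.card : ℝ) ≤ Ec := by exact_mod_cast hEcard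
          gcongr
      _ = _ := by ring
  -- all points
  have hsplit : ∑ x ∈ X, e (θ * F.eval x) = ∑ x ∈ Xf, e (θ * F.eval x) +
      ∑ x ∈ X.filter (fun x => ¬ ∀ t ∈ E, ρ ≤ |x - t|), e (θ * F.eval x) :=
    (Finset.sum_filter_add_sum_filter_not X _ _).symm
  have hfib : ∑ x ∈ Xf, e (θ * F.eval x) =
      ∑ r ∈ range (Ec + 1), ∑ x ∈ Xf.filter (fun x => κ x = r), e (θ * F.eval x) := by
    rw [Finset.sum_fiberwise_of_maps_to]
    intro x _
    rw [Finset.mem_range]
    have : (E.filter (fun t => t < x)).card ≤ E.card := Finset.card_filter_le _ _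
    simp only [hκ]
    omega
  have hM3 : (M : ℝ) ^ (1 - ρ0) ≤ Bf * h ^ (1 - min ρ0 δ) := by
    have h1 : (M : ℝ) ^ (1 - ρ0) ≤ (M : ℝ) ^ (1 - min ρ0 δ) :=
      Real.rpow_le_rpow_of_exponent_le hM1 (by linarith [min_le_left ρ0 δ])
    refine h1.trans ?_
    rw [hM]
    push_cast
    rw [← hh, Real.mul_rpow (by positivity) hh0.le]
    have hB1 : (1 : ℝ) ≤ (Bf : ℝ) := by
      rw [hBf]; push_cast; linarith
    have h2 : (Bf : ℝ) ^ (1 - min ρ0 δ) ≤ Bf := by
      calc (Bf : ℝ) ^ (1 - min ρ0 δ) ≤ (Bf : ℝ) ^ (1 : ℝ) :=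
            Real.rpow_le_rpow_of_exponent_le hB1 (by
              have := lt_min hρ0 hδ0
              linarith)
        _ = Bf := Real.rpow_one _
    gcongr
  have hone : 1 ≤ h ^ (1 - min ρ0 δ) := Real.one_le_rpow hh1 (by linarith [min_le_right ρ0 δ])
  rw [hsplit, hfib]
  calc _ ≤ ‖∑ r ∈ range (Ec + 1), ∑ x ∈ Xf.filter (fun x => κ x = r), e (θ * F.eval x)‖ +
        ‖∑ x ∈ X.filter (fun x => ¬ ∀ t ∈ E, ρ ≤ |x - t|), e (θ * F.eval x)‖ := norm_add_le _ _
    _ ≤ ∑ _r ∈ range (Ec + 1), (2 + (M : ℝ) ^ (1 - ρ0)) +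
        ((X.filter (fun x => ¬ ∀ t ∈ E, ρ ≤ |x - t|)).card : ℝ) := by
        refine add_le_add ((norm_sum_le _ _).trans (sum_le_sum fun r _ => hcomp r)) ?_
        refine (norm_sum_le _ _).trans ?_
        simp [norm_e]
    _ ≤ (Ec + 1) * (2 * h ^ (1 - min ρ0 δ) + Bf * h ^ (1 - min ρ0 δ)) +
        Ec * ((q + 2) * 5) * h ^ (1 - min ρ0 δ) := by
        refine add_le_add ?_ (hnear.trans ?_)
        · rw [sum_const, card_range, nsmul_eq_mul]
          push_cast
          gcongr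
          linarith
        · refine mul_le_mul_of_nonneg_left (hmono _ _ ?_) (by positivity)
          linarith [min_le_right ρ0 δ]
    _ = _ := by ring

end Pool.Agent.K7.H79.ND
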